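import Pool.Agent.H22.T6.Defs
import Pool.Agent.H46.T6.Bnf

/-!
# BN: the interface of the Bernstein type lemma (block of helper46)

If the system `h_k = ∑_{i ∈ Q k} κ_{k,i} t^{a_i} = 0` has no solution in the torus and is
nondegenerate (hND), then `dim span Dif a Q K' < |K'|` for some nonempty `K'`.
-/

set_option autoImplicit false

namespace Pool.Agent.H22.T6

open Finset AddMonoidAlgebra
open Pool.Agent.H56.SMC Pool.Agent.H37.T5 Pool.Agent.H56.T5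

theorem bn_tz {n : ℕ} (t : Fin n → ℂˣ) (v : Fin n → ℤ) :
    tz t v = Pool.Agent.H46.T6.mon (fun j => (t j : ℂ)) v := by
  simp only [tz, Pool.Agent.H46.T6.mon, Units.coe_prod, Units.val_zpow_eq_zpow_val]

theorem bn_mn {n r : ℕ} (ν : Fin n → ℤ) (a : Fin r → Fin n → ℤ) (Q : Finset (Fin r))
    [DecidablePred (fun i => ∀ i' ∈ Q, Pool.Agent.H46.T6.pr ν (a i) ≤
      Pool.Agent.H46.T6.pr ν (a i'))] :
    Q.filter (fun i => ∀ i' ∈ Q, Pool.Agent.H46.T6.pr ν (a i) ≤ Pool.Agent.H46.T6.pr ν (a i')) =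
      mn ν a Q := by
  ext i
  simp only [mn, Finset.mem_filter, Pool.Agent.H46.T6.pr]

/-- BN -/
theorem bn {n r : ℕ} {θ : Type} [Fintype θ] [DecidableEq θ] (a : Fin r → Fin n → ℤ)
    (Q : θ → Finset (Fin r)) (hQ : ∀ k, (Q k).Nonempty) (κ : θ → Fin r → ℂ)
    (hND : ∀ (ν : Fin n → ℤ) (t : Fin n → ℂˣ),
      (∀ k, ∑ i ∈ mn ν a (Q k), κ k i * tz t (a i) = 0) →
      LinearIndependent ℂ (fun (k : θ) (j : Fin n) =>
        ∑ i ∈ mn ν a (Q k), κ k i * tz t (a i) * (a i j : ℂ)))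
    (hempty : ∀ t : Fin n → ℂˣ, ∃ k, ∑ i ∈ Q k, κ k i * tz t (a i) ≠ 0) :
    ∃ K : Finset θ, K.Nonempty ∧
      Module.finrank ℝ (Submodule.span ℝ (Dif a Q K)) < K.card := by
  have hlift : ∀ t : Fin n → ℂ, (∀ i, t i ≠ 0) → ∃ u : Fin n → ℂˣ, (fun j => (u j : ℂ)) = t :=
    fun t ht => ⟨fun j => Units.mk0 (t j) (ht j), rfl⟩
  exact Pool.Agent.H46.T6.bnf a Q hQ κ (by
    intro ν t ht h0
    obtain ⟨u, rfl⟩ := hlift t ht
    have h1 := hND ν u (fun k => by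
      have h2 := h0 k
      rw [bn_mn] at h2
      simp only [Pool.Agent.H46.T6.val, ← bn_tz] at h2
      exact h2)
    simp only [bn_mn]
    simp only [bn_tz] at h1
    exact h1) (by
    intro t ht
    obtain ⟨u, rfl⟩ := hlift t ht
    obtain ⟨k, hk⟩ := hempty u
    refine ⟨k, ?_⟩
    simp only [Pool.Agent.H46.T6.val, ← bn_tz]
    exact hk)

end Pool.Agent.H22.T6
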