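import Pool.Agent.H37.T6.YDefs
import Pool.Agent.H56.T5.KEDefs

/-!
# T6, root side: definitions

`tz t v = t^v`, `mn ν a Q` = the indices in `Q` with `ν·a_i` minimal, `Dif` = the differences of
the exponents of the sets `Q k`, `k ∈ K`.
-/

set_option autoImplicit false

namespace Pool.Agent.H22.T6

open Finset AddMonoidAlgebra
open Pool.Agent.H56.SMC Pool.Agent.H37.T5 Pool.Agent.H56.T5

/-- The value of the monomial `x^v` at the point `t` of the torus. -/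
noncomputable def tz {n : ℕ} (t : Fin n → ℂˣ) (v : Fin n → ℤ) : ℂ := ((∏ j, t j ^ v j : ℂˣ) : ℂ)

/-- The indices in `Q` with `ν·a_i` minimal. -/
def mn {n r : ℕ} (ν : Fin n → ℤ) (a : Fin r → Fin n → ℤ) (Q : Finset (Fin r)) : Finset (Fin r) :=
  Q.filter (fun i => ∀ i' ∈ Q, ∑ j, ν j * a i j ≤ ∑ j, ν j * a i' j)

/-- The differences of the exponents of `Q k`, `k ∈ K`. -/
def Dif {n r : ℕ} {θ : Type} (a : Fin r → Fin n → ℤ) (Q : θ → Finset (Fin r)) (K : Finset θ) :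
    Set (Fin n → ℝ) :=
  {v | ∃ k ∈ K, ∃ i ∈ Q k, ∃ i' ∈ Q k, v = fun j => (a i j : ℝ) - (a i' j : ℝ)}

/-- The exponents as integral vectors. -/
def aZ {n r : ℕ} (a : Fin r → (Fin n →₀ ℕ)) (i : Fin r) (j : Fin n) : ℤ := (a i j : ℤ)

open Classical in
/-- The indices of the exponents on the face of `w`. -/
noncomputable def FF {n r : ℕ} (a : Fin r → (Fin n →₀ ℕ)) (w : Fin n → ℕ) : Finset (Fin r) :=
  univ.filter (fun i => ∑ j, a i j * w j = H22.wmin a w)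

open Classical in
/-- The coordinates `j` with `w_j ≠ 0` and `x_j ∤ f`. -/
noncomputable def CC0 {n r : ℕ} (a : Fin r → (Fin n →₀ ℕ)) (w : Fin n → ℕ) : Finset (Fin n) :=
  univ.filter (fun j => w j ≠ 0 ∧ ∃ i, a i j = 0)

/-- The exponents of the face of `w` with `k`-th coordinate `1`. -/
noncomputable def PF {n r : ℕ} (a : Fin r → (Fin n →₀ ℕ)) (w : Fin n → ℕ) (k : Fin n) :
    Finset (Fin r) := (FF a w).filter (fun i => a i k = 1)

/-- The face of `w` is critical: `p0 = (|w|/N(w); 1, …, 1)` is in its span. -/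
def CritP {n r : ℕ} (a : Fin r → (Fin n →₀ ℕ)) (w : Fin n → ℕ) : Prop :=
  p0R a w ∈ Submodule.span ℝ
    ({y | ∃ i ∈ FF a w, y = H22.rowR a i} ∪ {y | ∃ j, w j = 0 ∧ y = (eR j : Unit ⊕ Fin n → ℝ)})

/-- The data given by linear programming: a functional `c ≥ 0` with support `P` and `c·a_i ≤ 1`,
a positive combination of the exponents with coordinates `1` on `P` and `> 1` on `C \ P`. -/
structure LPD {n r : ℕ} (A : Fin r → Fin n → ℕ) (F : Finset (Fin r)) (C P : Finset (Fin n))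
    (c : Fin n → ℚ) (lam : Fin r → ℚ) : Prop where
  PC : P ⊆ C
  c0 : ∀ j, 0 ≤ c j
  cP : ∀ j, c j ≠ 0 ↔ j ∈ P
  c1 : ∀ i ∈ F, ∑ j, c j * (A i j : ℚ) ≤ 1
  l0 : ∀ i ∈ F, 0 < lam i
  lP : ∀ j ∈ P, ∑ i ∈ F, lam i * (A i j : ℚ) = 1
  lC : ∀ j ∈ C, j ∉ P → 1 < ∑ i ∈ F, lam i * (A i j : ℚ)

end Pool.Agent.H22.T6
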