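import Mathlib

/-!
# GCH: the chamber lemma

Proof.  Let `V1` be the set of `v` with `β v ≠ 0`.  There is `ρ : Fin s → ℚ` with `∑ i, β v i * ρ i ≠ 0` for all `v ∈ V1`: `ρ i = N^i` for a large natural number `N`
(`∑ i, β v i * N^i` is the value of a nonzero polynomial in `N`, it has finitely many zeros; or use that a vector space over `ℚ` is not a finite union of proper subspaces).
`τ1 = ρ / N1` with `N1` a large natural number: `|τ1 i| < ε`, and for `v ∈ V1` the number `x_v = α v + (∑ β v i ρ i)/N1` is not an integer: if `α v` is an integer then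
`0 < |x_v - α v| < 1` for large `N1`; if `α v` is not an integer then `|x_v - α v| < min (fract (α v)) (1 - fract (α v))` for large `N1`.
Choose `ε1 > 0` with `|∑ β v i (τ i - τ1 i)| < min (fract x_v) (1 - fract x_v)` for all `v ∈ V1` if `|τ i - τ1 i| < ε1` (finitely many `v`; `ε1 * ∑ |β v i|` small).
For `v ∈ V1` and `z : ℤ`: `z + x_v` is not an integer, so `0 ≤ z + x_v` iff `0 < z + x_v` iff `z + ⌊x_v⌋ ≥ 0`, and `x_v + (small)` has the same floor and is not an integer.  For `v ∉ V1` both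
sides are equal.
-/

set_option autoImplicit false

namespace Pool.Agent.H22.T6

open Finset

private theorem GCH_rho {s : ℕ} {κ : Type} [Fintype κ] (β : κ → Fin s → ℚ) :
    ∃ ρ : Fin s → ℚ, ∀ v, β v ≠ 0 → ∑ i, β v i * ρ i ≠ 0 := by
  classical
  obtain ⟨Pl, hPl⟩ : ∃ Pl : κ → Polynomial ℚ, Pl = fun v =>
    ∑ i : Fin s, Polynomial.C (β v i) * Polynomial.X ^ (i : ℕ) := ⟨_, rfl⟩
  have hne : ∀ v, β v ≠ 0 → Pl v ≠ 0 := by
    intro v hv h0
    apply hv
    funext j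
    have h1 : (Pl v).coeff (j : ℕ) = β v j := by
      rw [hPl]
      simp only [Polynomial.finsetSum_coeff, Polynomial.coeff_C_mul_X_pow]
      rw [Finset.sum_eq_single j]
      · rw [if_pos rfl]
      · intro b _ hb
        rw [if_neg (fun h => hb (Fin.ext h.symm))]
      · intro h
        exact absurd (Finset.mem_univ j) h
    rw [h0, Polynomial.coeff_zero] at h1
    exact h1.symm
  have hprod : ∏ v ∈ univ.filter (fun v => β v ≠ 0), Pl v ≠ 0 :=
    Finset.prod_ne_zero_iff.2 fun v hv => hne v (Finset.mem_filter.1 hv).2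
  obtain ⟨N, hN⟩ : ∃ N : ℚ, (∏ v ∈ univ.filter (fun v => β v ≠ 0), Pl v).eval N ≠ 0 := by
    by_contra hcon
    push Not at hcon
    apply hprod
    apply Polynomial.funext
    intro r
    rw [hcon r, Polynomial.eval_zero]
  rw [Polynomial.eval_prod] at hN
  refine ⟨fun i => N ^ (i : ℕ), fun v hv => ?_⟩
  have h1 := Finset.prod_ne_zero_iff.1 hN v (Finset.mem_filter.2 ⟨Finset.mem_univ v, hv⟩)
  rw [hPl] at h1
  simpa [Polynomial.eval_finsetSum] using h1

private theorem GCH_bad (α b : ℚ) (hb : b ≠ 0) :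
    {t : ℚ | (0 < t ∧ t < 1) ∧ ∃ z : ℤ, α + t * b = z}.Finite := by
  obtain ⟨M, hM⟩ : ∃ M : ℤ, |α| + |b| ≤ M := ⟨⌈|α| + |b|⌉, Int.le_ceil _⟩
  refine ((Set.finite_Icc (-M) M).image (fun z : ℤ => ((z : ℚ) - α) / b)).subset ?_
  rintro t ⟨⟨h0, h1⟩, z, hz⟩
  refine ⟨z, ?_, ?_⟩
  · have h2 : |(z : ℚ)| ≤ M := by
      rw [← hz]
      calc |α + t * b| ≤ |α| + |t * b| := abs_add_le _ _
        _ = |α| + t * |b| := by rw [abs_mul, abs_of_pos h0]
        _ ≤ |α| + |b| := by nlinarith [abs_nonneg b]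
        _ ≤ M := hM
    have h3 := abs_le.1 h2
    constructor
    · exact_mod_cast h3.1
    · exact_mod_cast h3.2
  · show ((z : ℚ) - α) / b = t
    rw [← hz, add_sub_cancel_left, mul_div_assoc, div_self hb, mul_one]

private theorem GCH_int (x x' : ℚ) (z : ℤ) (h1 : |x' - x| < Int.fract x)
    (h2 : |x' - x| < 1 - Int.fract x) : 0 ≤ (z : ℚ) + x' ↔ 0 ≤ (z : ℚ) + x := by
  have h3 := Int.floor_add_fract x
  have h4 := abs_lt.1 h1
  have h5 := abs_lt.1 h2
  have h6 := Int.fract_nonneg x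
  have h7 := Int.fract_lt_one x
  constructor
  · intro h
    by_contra hlt
    push Not at hlt
    have h8 : (z : ℚ) + ⌊x⌋ < 0 := by linarith
    have h9 : z + ⌊x⌋ < 0 := by exact_mod_cast h8
    have h10 : z + ⌊x⌋ ≤ -1 := by omega
    have h11 : (z : ℚ) + ⌊x⌋ ≤ -1 := by exact_mod_cast h10
    linarith
  · intro h
    have h8 : (-1 : ℚ) < (z : ℚ) + ⌊x⌋ := by linarith
    have h9 : -1 < z + ⌊x⌋ := by exact_mod_cast h8
    have h10 : 0 ≤ z + ⌊x⌋ := by omega
    have h11 : (0 : ℚ) ≤ (z : ℚ) + ⌊x⌋ := by exact_mod_cast h10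
    linarith

/-- CHAMBER -/
theorem chamber {s : ℕ} {κ : Type} [Fintype κ] (α : κ → ℚ) (β : κ → Fin s → ℚ) (ε : ℚ)
    (hε : 0 < ε) :
    ∃ τ1 : Fin s → ℚ, (∀ i, |τ1 i| < ε) ∧ ∃ ε1 : ℚ, 0 < ε1 ∧
      ∀ τ : Fin s → ℚ, (∀ i, |τ i - τ1 i| < ε1) → ∀ (v : κ) (z : ℤ),
        (0 ≤ (z : ℚ) + (α v + ∑ i, β v i * τ i) ↔ 0 ≤ (z : ℚ) + (α v + ∑ i, β v i * τ1 i)) := by
  classical
  obtain ⟨ρ, hρ⟩ := GCH_rho β
  obtain ⟨R, hR⟩ : ∃ R : ℚ, R = 1 + ∑ i, |ρ i| := ⟨_, rfl⟩
  have hR0 : 0 < R := by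
    have : 0 ≤ ∑ i, |ρ i| := Finset.sum_nonneg fun i _ => abs_nonneg _
    linarith
  have hRi : ∀ i, |ρ i| ≤ R := by
    intro i
    have : |ρ i| ≤ ∑ i, |ρ i| :=
      Finset.single_le_sum (f := fun i => |ρ i|) (fun i _ => abs_nonneg _) (Finset.mem_univ i)
    linarith
  -- a good parameter
  obtain ⟨t, ht0, ht1, htε, htv⟩ : ∃ t : ℚ, 0 < t ∧ t < 1 ∧ t < ε / R ∧
      ∀ v, β v ≠ 0 → ∀ z : ℤ, α v + t * (∑ i, β v i * ρ i) ≠ z := by
    have hinf : (Set.Ioo (0 : ℚ) (min 1 (ε / R))).Infinite :=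
      Set.Ioo_infinite (lt_min one_pos (div_pos hε hR0))
    have hfin : (⋃ v ∈ {v | β v ≠ 0}, {t : ℚ | (0 < t ∧ t < 1) ∧
        ∃ z : ℤ, α v + t * (∑ i, β v i * ρ i) = z}).Finite :=
      Set.Finite.biUnion (Set.toFinite _) fun v hv => GCH_bad (α v) _ (hρ v hv)
    obtain ⟨t, ht, htn⟩ := (hinf.sdiff hfin).nonempty
    refine ⟨t, ht.1, ht.2.trans_le (min_le_left _ _), ht.2.trans_le (min_le_right _ _), ?_⟩
    intro v hv z hz
    exact htn (Set.mem_iUnion₂.2 ⟨v, hv, ⟨ht.1, ht.2.trans_le (min_le_left _ _)⟩, z, hz⟩)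
  refine ⟨fun i => t * ρ i, fun i => ?_, ?_⟩
  · rw [abs_mul, abs_of_pos ht0]
    calc t * |ρ i| ≤ t * R := mul_le_mul_of_nonneg_left (hRi i) ht0.le
      _ < ε / R * R := mul_lt_mul_of_pos_right htε hR0
      _ = ε := div_mul_cancel₀ ε hR0.ne'
  obtain ⟨x, hx⟩ : ∃ x : κ → ℚ, x = fun v => α v + ∑ i, β v i * (t * ρ i) := ⟨_, rfl⟩
  have hxv : ∀ v, x v = α v + t * (∑ i, β v i * ρ i) := by
    intro v
    rw [hx, Finset.mul_sum]
    show α v + ∑ i, β v i * (t * ρ i) = α v + ∑ i, t * (β v i * ρ i)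
    have e : ∀ i, β v i * (t * ρ i) = t * (β v i * ρ i) := fun i => by ring
    simp only [e]
  have hfr : ∀ v, β v ≠ 0 → 0 < min (Int.fract (x v)) (1 - Int.fract (x v)) := by
    intro v hv
    refine lt_min (Int.fract_pos.2 ?_) (by have := Int.fract_lt_one (x v); linarith)
    rw [hxv]
    exact htv v hv _
  obtain ⟨ε1, hε1, hε1v⟩ : ∃ ε1 : ℚ, 0 < ε1 ∧ ∀ v, β v ≠ 0 →
      ε1 < min (Int.fract (x v)) (1 - Int.fract (x v)) / (1 + ∑ i, |β v i|) := by
    have e1 : ∀ᶠ y in nhdsWithin (0 : ℚ) (Set.Ioi 0), 0 < y := self_mem_nhdsWithin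
    have e2 : ∀ᶠ y in nhdsWithin (0 : ℚ) (Set.Ioi 0), ∀ v, β v ≠ 0 →
        y < min (Int.fract (x v)) (1 - Int.fract (x v)) / (1 + ∑ i, |β v i|) := by
      rw [Filter.eventually_all]
      intro v
      by_cases hv : β v = 0
      · exact Filter.Eventually.of_forall fun y h => absurd hv h
      · have hpos : 0 < min (Int.fract (x v)) (1 - Int.fract (x v)) / (1 + ∑ i, |β v i|) := by
          apply div_pos (hfr v hv)
          have : 0 ≤ ∑ i, |β v i| := Finset.sum_nonneg fun i _ => abs_nonneg _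
          linarith
        have h3 : ∀ᶠ y in nhdsWithin (0 : ℚ) (Set.Ioi 0),
            y < min (Int.fract (x v)) (1 - Int.fract (x v)) / (1 + ∑ i, |β v i|) :=
          mem_nhdsWithin_of_mem_nhds (Iio_mem_nhds hpos)
        filter_upwards [h3] with y hy _
        exact hy
    obtain ⟨y, h3, h4⟩ := (e1.and e2).exists
    exact ⟨y, h3, h4⟩
  refine ⟨ε1, hε1, fun τ hτ v z => ?_⟩
  by_cases hv : β v = 0
  · rw [hv]
    simp
  · have hB : 0 ≤ ∑ i, |β v i| := Finset.sum_nonneg fun i _ => abs_nonneg _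
    have h1 := hε1v v hv
    rw [lt_div_iff₀ (by linarith)] at h1
    have h2 : |(α v + ∑ i, β v i * τ i) - x v| <
        min (Int.fract (x v)) (1 - Int.fract (x v)) := by
      have h3 : (α v + ∑ i, β v i * τ i) - x v = ∑ i, β v i * (τ i - t * ρ i) := by
        rw [hx]
        simp only [mul_sub, Finset.sum_sub_distrib]
        ring
      rw [h3]
      calc |∑ i, β v i * (τ i - t * ρ i)| ≤ ∑ i, |β v i * (τ i - t * ρ i)| :=
            Finset.abs_sum_le_sum_abs _ _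
        _ ≤ ∑ i, |β v i| * ε1 := by
            refine Finset.sum_le_sum fun i _ => ?_
            rw [abs_mul]
            exact mul_le_mul_of_nonneg_left (hτ i).le (abs_nonneg _)
        _ = ε1 * ∑ i, |β v i| := by rw [← Finset.sum_mul, mul_comm]
        _ < _ := by linarith
    have h4 := GCH_int (x v) (α v + ∑ i, β v i * τ i) z (h2.trans_le (min_le_left _ _))
      (h2.trans_le (min_le_right _ _))
    rw [hx] at h4
    exact h4

end Pool.Agent.H22.T6
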