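import Pool.Agent.H22.T6.GDefs

/-!
# GCP: the parameter `p` is a complex combination of the exponents of the face

Proof.  From `hcrit` (a point of the span of two sets: `Submodule.span_union`, `Submodule.mem_sup`, `mem_span_set`/`Finsupp.mem_span_range_iff_exists_finsupp`): there are real `x i`, `i ∈ FF a w`, and
`y j`, `w j = 0`, with `p0R a w = ∑ i ∈ FF a w, x i • H22.rowR a i + ∑ j with w j = 0, y j • eR j`.  (First coordinate: `∑ x i = |w|/N`; coordinate `j`: `∑ x i (a i j) + y j [w j = 0] = 1`.)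
Define `π (inl i) = x i` for `i ∈ FF a w`, `0` otherwise; `π (inr (inl (some j))) = y j / M` if `w j = 0`, `0` otherwise; `π (inr (inl none)) = -Complex.I - ∑_j (y j / M)`.
Off the face: `dt (h5 a w) (A5 a M (inl i)) = -N + ∑ w_j (a i j)`, zero iff `i ∈ FF a w`; `dt (h5 a w) (A5 a M (inr (inl none))) = 0`; `dt (h5 a w) (A5 a M (inr (inl (some j)))) = M (w j)` (`dt_vec`; see
`SLF_h5_inl`, `SLF_h5_some` in `Pool/Agent/H56/T5/SLF.lean`).
Coordinates: `k = 0`: `∑ x i = |w|/N = -s0` (`pp s0 I 0 = -s0`, `s0 = -|w|/N`); `k = 1`: `π none + ∑ π (some j) = -I`; `k = j.succ.succ`: `∑ x i (a i j) + M * (y j/M) [w j = 0] = 1`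
(`A5_inl`, `A5_none`, `A5_some`).
-/

set_option autoImplicit false

namespace Pool.Agent.H22.T6

open Finset AddMonoidAlgebra
open Pool.Agent.H56.SMC Pool.Agent.H37.T5 Pool.Agent.H56.T5

theorem GCP_span {ι : Type} [Fintype ι] {V : Type} [AddCommGroup V] [Module ℝ V]
    (p : ι → Prop) (v : ι → V) (x : V)
    (hx : x ∈ Submodule.span ℝ {y | ∃ i, p i ∧ y = v i}) :
    ∃ c : ι → ℝ, (∀ i, ¬ p i → c i = 0) ∧ x = ∑ i, c i • v i := by
  classical
  induction hx using Submodule.span_induction with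
  | mem y hy =>
    obtain ⟨i, hi, rfl⟩ := hy
    refine ⟨Pi.single i 1, fun j hj => ?_, ?_⟩
    · rw [Pi.single_apply, if_neg]
      rintro rfl
      exact hj hi
    · simp [Pi.single_apply, ite_smul]
  | zero => exact ⟨0, fun _ _ => rfl, by simp⟩
  | add y z _ _ hy hz =>
    obtain ⟨c, hc, rfl⟩ := hy
    obtain ⟨d, hd, rfl⟩ := hz
    refine ⟨c + d, fun i hi => ?_, ?_⟩
    · rw [Pi.add_apply, hc i hi, hd i hi, add_zero]
    · simp only [Pi.add_apply, add_smul, Finset.sum_add_distrib]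
  | smul t y _ hy =>
    obtain ⟨c, hc, rfl⟩ := hy
    refine ⟨t • c, fun i hi => ?_, ?_⟩
    · rw [Pi.smul_apply, hc i hi, smul_zero]
    · rw [Finset.smul_sum]
      exact Finset.sum_congr rfl fun i _ => by rw [Pi.smul_apply, smul_eq_mul, mul_smul]

/-- The coefficients. -/
noncomputable def GCP_pi {n r : ℕ} (M : ℤ) (x : Fin r → ℝ) (y : Fin n → ℝ) : IX n r → ℂ
  | Sum.inl i => (x i : ℂ)
  | Sum.inr (Sum.inl none) => -Complex.I - ∑ j, (y j : ℂ) / (M : ℂ)
  | Sum.inr (Sum.inl (some j)) => (y j : ℂ) / (M : ℂ)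
  | Sum.inr (Sum.inr k) => k.elim0

theorem GCP_sum {n r : ℕ} (F : IX n r → ℂ) :
    ∑ g, F g = ∑ i, F (Sum.inl i) + (F (Sum.inr (Sum.inl none)) +
      ∑ j, F (Sum.inr (Sum.inl (some j)))) := by
  rw [Fintype.sum_sum_type, Fintype.sum_sum_type, Fintype.sum_option]
  simp

/-- CRIT_PI -/
theorem crit_pi {n r : ℕ} (a : Fin r → (Fin n →₀ ℕ)) (w : Fin n → ℕ) (hcrit : CritP a w)
    (M : ℤ) (hM : 0 < M) :
    ∃ π : IX n r → ℂ, (∀ g, dt (h5 a w) (A5 a M g) ≠ 0 → π g = 0) ∧
      ∀ k, pp (-(H22.wsum w : ℂ) / (H22.wmin a w : ℂ)) Complex.I k =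
        ∑ g, π g * (A5 a M g k : ℂ) := by
  have hMC : (M : ℂ) ≠ 0 := by exact_mod_cast hM.ne'
  rw [CritP, Submodule.span_union, Submodule.mem_sup] at hcrit
  obtain ⟨u, hu, v, hv, huv⟩ := hcrit
  obtain ⟨x, hx, rfl⟩ := GCP_span (fun i => i ∈ FF a w) (fun i => H22.rowR a i) u hu
  obtain ⟨y, hy, rfl⟩ := GCP_span (fun j : Fin n => w j = 0)
    (fun j => (eR j : Unit ⊕ Fin n → ℝ)) v hv
  have e0 : ∑ i, x i = (H22.wsum w : ℝ) / (H22.wmin a w : ℝ) := by
    have h := congrFun huv (Sum.inl ())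
    simpa [H22.rowR, eR, p0R] using h
  have e1 : ∀ j, ∑ i, x i * (a i j : ℝ) + y j = 1 := by
    intro j
    have h := congrFun huv (Sum.inr j)
    simpa [H22.rowR, eR, p0R, Pi.single_apply] using h
  refine ⟨GCP_pi M x y, ?_, ?_⟩
  · intro g hg
    rcases g with i | (o | k)
    · show ((x i : ℝ) : ℂ) = 0
      rw [hx i, Complex.ofReal_zero]
      intro hi
      apply hg
      rw [FF, Finset.mem_filter] at hi
      rw [A5_inl, h5, dt_vec]
      have h2 : ((∑ j, a i j * w j : ℕ) : ℤ) = (H22.wmin a w : ℤ) := by exact_mod_cast hi.2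
      push_cast at h2
      have h3 : ∑ j, (w j : ℤ) * (a i j : ℤ) = ∑ j, (a i j : ℤ) * (w j : ℤ) :=
        sum_congr rfl fun j _ => mul_comm _ _
      rw [h3, h2]
      ring
    · rcases o with _ | j
      · exfalso
        apply hg
        rw [A5_none, h5, dt_vec]
        simp
      · show ((y j : ℝ) : ℂ) / (M : ℂ) = 0
        rw [hy j, Complex.ofReal_zero, zero_div]
        intro hj
        apply hg
        rw [A5_some, h5, dt_vec]
        simp [ev, Pi.single_apply, hj]
    · exact k.elim0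
  · intro k
    rw [GCP_sum]
    simp only [GCP_pi, A5_inl, A5_none, A5_some]
    refine Fin.cases ?_ (fun k => Fin.cases ?_ (fun j => ?_) k) k
    · simp only [pp, vec, Fin.cons_zero]
      have h := congrArg (fun z : ℝ => (z : ℂ)) e0
      push_cast at h
      simp only [Int.cast_one, Int.cast_zero, mul_one, mul_zero, Finset.sum_const_zero, add_zero]
      rw [h, neg_div, neg_neg]
    · simp only [pp, vec, Fin.cons_succ, Fin.cons_zero, Int.cast_one, Int.cast_zero, mul_one,
        mul_zero, Finset.sum_const_zero]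
      ring
    · simp only [pp, vec, Fin.cons_succ, Pi.zero_apply, Int.cast_zero, mul_zero, Pi.smul_apply,
        ev, Pi.single_apply, smul_eq_mul, mul_ite, mul_one, Int.cast_ite, zero_add]
      have h := congrArg (fun z : ℝ => (z : ℂ)) (e1 j)
      push_cast at h
      rw [Finset.sum_ite_eq Finset.univ j, if_pos (Finset.mem_univ _), div_mul_cancel₀ _ hMC]
      rw [← h]
      push_cast
      rfl

end Pool.Agent.H22.T6
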