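import Mathlib

/-!
# GDE: rational points are Zariski dense in every open box

Proof.  `S_i = {x : ℂ | ∃ t : ℚ, |t - τ1 i| < ε ∧ x = t}` is infinite.  If `eval τ Δ = 0` for all points of the product of the `S_i` then `Δ = 0` (`MvPolynomial.funext_set` or
`MvPolynomial.eq_zero_of_eval_zero_at_prod...`; otherwise induction on `s`), so `eval τ0 Δ = 0`.
-/

set_option autoImplicit false

namespace Pool.Agent.H22.T6

open Finset

/-- DENS -/
theorem dens {s : ℕ} (Δ : MvPolynomial (Fin s) ℂ) (τ0 : Fin s → ℂ)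
    (h : MvPolynomial.eval τ0 Δ ≠ 0) (τ1 : Fin s → ℚ) (ε : ℚ) (hε : 0 < ε) :
    ∃ τ : Fin s → ℚ, (∀ i, |τ i - τ1 i| < ε) ∧
      MvPolynomial.eval (fun i => (τ i : ℂ)) Δ ≠ 0 := by
  by_contra hc
  push Not at hc
  have hinf : ∀ i : Fin s, {x : ℂ | ∃ t : ℚ, |t - τ1 i| < ε ∧ x = (t : ℂ)}.Infinite := by
    intro i
    have h1 : (Set.Ioo (τ1 i - ε) (τ1 i + ε)).Infinite := Set.Ioo_infinite (by linarith)
    have h2 : ((fun t : ℚ => (t : ℂ)) '' Set.Ioo (τ1 i - ε) (τ1 i + ε)).Infinite :=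
      h1.image (Rat.cast_injective.injOn)
    refine h2.mono ?_
    rintro _ ⟨t, ht, rfl⟩
    exact ⟨t, abs_lt.2 ⟨by linarith [ht.1], by linarith [ht.2]⟩, rfl⟩
  have h0 : Δ = 0 := by
    refine MvPolynomial.funext_set (fun i => {x : ℂ | ∃ t : ℚ, |t - τ1 i| < ε ∧ x = (t : ℂ)})
      hinf ?_
    intro x hx
    have h1 : ∀ i, ∃ t : ℚ, |t - τ1 i| < ε ∧ x i = (t : ℂ) := fun i => hx i (Set.mem_univ i)
    choose t ht1 ht2 using h1
    have h3 : x = fun i => (t i : ℂ) := funext ht2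
    rw [h3, hc t ht1, map_zero]
  rw [h0, map_zero] at h
  exact h rfl

end Pool.Agent.H22.T6
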