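import Pool.Agent.H22.T6.SDefs

/-!
# T6, geometry block: definitions

`yq a M θ = ∑ θ_g A_g`, a combination of the exponents `A_g = A5 a M g`; `TH` = the conditions on
the coefficients `θ` needed for the level `y = yq a M θ`.
-/

set_option autoImplicit false

namespace Pool.Agent.H22.T6

open Finset AddMonoidAlgebra
open Pool.Agent.H56.SMC Pool.Agent.H37.T5 Pool.Agent.H56.T5

/-- The index type of the exponents. -/
abbrev IX (n r : ℕ) : Type := Fin r ⊕ (Option (Fin n) ⊕ Fin 0)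

/-- `∑ θ_g A_g` over `ℚ`. -/
def yq {n r : ℕ} (a : Fin r → (Fin n →₀ ℕ)) (M : ℤ) (θ : IX n r → ℚ) (k : Fin (n + 2)) : ℚ :=
  ∑ g, θ g * (A5 a M g k : ℚ)

/-- The conditions on the coefficients of the level: supported on the face of `w`, nonnegative,
`y_k = 1` on `P`, `y_j ≥ 1` if `x_j ∤ f`, `l2(y) < 1`, `D l(y) - ∑ cZ_j y_j < 1`. -/
structure TH {n r : ℕ} (a : Fin r → (Fin n →₀ ℕ)) (w : Fin n → ℕ) (M : ℤ) (P : Finset (Fin n))
    (D : ℤ) (cZ : Fin n → ℤ) (θ : IX n r → ℚ) : Prop where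
  off : ∀ g, dt (h5 a w) (A5 a M g) ≠ 0 → θ g = 0
  nn : ∀ g, 0 ≤ θ g
  P1 : ∀ k ∈ sh P, yq a M θ k = 1
  J1 : ∀ j, (∃ i, a i j = 0) → 1 ≤ yq a M θ j.succ.succ
  l2 : yq a M θ (Fin.succ 0) < 1
  sm : (D : ℚ) * yq a M θ 0 - ∑ j, (cZ j : ℚ) * yq a M θ j.succ.succ < 1

end Pool.Agent.H22.T6
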