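import Pool.Agent.H22.T6.GDefs

/-!
# GEV: evaluation of the relation at a point of the torus

Proof.  Let `t` be such that all sums vanish.  Evaluate Laurent polynomials in `LP ℂ (n+2)` at `χ = (1, 1, t) : Fin (n+2) → ℂˣ`, `E z = ∑ u ∈ z.coeff.support, z.coeff u * tz χ u`; it is a ring homomorphism
(`AddMonoidAlgebra.lift`, or `tz χ (u + v) = tz χ u * tz χ v`: `zpow_add`).  `E (single 0 1) = 1`.  By `ht` only `k = j.succ.succ` with `j ∈ P`, `c j = 1` contribute to the sum; so it suffices that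
`E (gs (A5 a M) (cF …) (ev k)) = 0` for such `k`.  `gs = ∑ g, single (A_g) (cF g * (A_g)_k)`.  Terms: `g = inl i`: `cF = 0` unless `i ∈ FF a w` (`dt (h5 a w) (A_g) = -N + w·a_i`), the value is
`κ i * (a i j) * tz χ (vec 1 0 a_i) = κ i (a i j) tz t (aZ a i)`.  For `i ∈ FF a w`: `c_j a_ij ≤ ∑ c a_i ≤ 1` (`hL.c1`, all terms `≥ 0`) and `c_j = 1`, so `a i j ∈ {0, 1}`: these terms sum to
`∑ i ∈ PF a w j, κ i * tz t (aZ a i) = 0`.  `g = inr (inl none)`: `(A_g)_k = 0`.  `g = inr (inl (some j'))`: `(A_g)_k = M` if `j' = j`, else `0`; for `j' = j`: `dt (h5 a w) (A_g) = M w_j ≠ 0`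
(`j ∈ P ⊆ CC0 a w`), so `cF = 0`.  Hence `1 = 0`, a contradiction.
-/

set_option autoImplicit false

namespace Pool.Agent.H22.T6

open Finset AddMonoidAlgebra
open Pool.Agent.H56.SMC Pool.Agent.H37.T5 Pool.Agent.H56.T5

/-- the character of the torus -/
noncomputable def GEV_ch {n : ℕ} (t : Fin n → ℂˣ) : Multiplicative (Lat (n + 2)) →* ℂ where
  toFun v := tz t (fun j => (Multiplicative.toAdd v) j.succ.succ)
  map_one' := by simp [tz]
  map_mul' v v' := by
    simp only [tz, toAdd_mul, Pi.add_apply]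
    rw [← Units.val_mul, ← Finset.prod_mul_distrib]
    congr 1
    exact Finset.prod_congr rfl fun j _ => zpow_add _ _ _

/-- the evaluation -/
noncomputable def GEV_E {n : ℕ} (t : Fin n → ℂˣ) : LP ℂ (n + 2) →ₐ[ℂ] ℂ :=
  AddMonoidAlgebra.lift ℂ ℂ (Lat (n + 2)) (GEV_ch t)

theorem GEV_single {n : ℕ} (t : Fin n → ℂˣ) (v : Lat (n + 2)) (b : ℂ) :
    GEV_E t (single v b) = b * tz t (fun j => v j.succ.succ) := by
  unfold GEV_E
  rw [AddMonoidAlgebra.lift_single]
  rfl

theorem GEV_vec {n : ℕ} (l l2 : ℤ) (q : Fin n → ℤ) (j : Fin n) : vec l l2 q j.succ.succ = q j := by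
  simp [vec]

theorem GEV_gs {n r : ℕ} (a : Fin r → (Fin n →₀ ℕ)) (κ : Fin r → ℂ) (w : Fin n → ℕ) (M : ℤ)
    (hM : 0 < M) (lm : Option (Fin n) ⊕ Fin 0 → ℂ) (P : Finset (Fin n)) (c : Fin n → ℚ)
    (lam : Fin r → ℚ) (hL : LPD (fun i j => a i j) (FF a w) (CC0 a w) P c lam)
    (t : Fin n → ℂˣ) (j : Fin n) (hj : j ∈ P) (hc : c j = 1) :
    GEV_E t (gs (A5 a M) (cF (A5 a M) (cC κ lm) (h5 a w)) (ev j.succ.succ)) =
      ∑ i ∈ PF a w j, κ i * tz t (aZ a i) := by
  classical
  have hw : w j ≠ 0 := by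
    have := hL.PC hj
    unfold CC0 at this
    exact (Finset.mem_filter.1 this).2.1
  simp only [gs, map_sum, GEV_single, dt_ev]
  rw [Fintype.sum_sum_type, Fintype.sum_sum_type, Fintype.sum_option]
  have h2 : ∑ x : Fin n, cF (A5 a M) (cC κ lm) (h5 a w) (Sum.inr (Sum.inl (some x))) *
      (A5 a M (Sum.inr (Sum.inl (some x))) j.succ.succ : ℂ) *
      tz t (fun k => A5 a M (Sum.inr (Sum.inl (some x))) k.succ.succ) = 0 := by
    refine Finset.sum_eq_zero fun x _ => ?_
    by_cases hx : x = j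
    · subst hx
      have hd : dt (h5 a w) (A5 a M (Sum.inr (Sum.inl (some x)))) ≠ 0 := by
        rw [A5_some, h5, dt_vec]
        have : ∑ k, (w k : ℤ) * (M • ev x : Lat n) k = (w x : ℤ) * M := by
          rw [Finset.sum_eq_single x]
          · simp [ev]
          · intro k _ hk
            simp [ev, hk]
          · intro h; exact absurd (Finset.mem_univ x) h
        rw [this]
        have h3 : (0 : ℤ) < (w x : ℤ) * M :=
          mul_pos (by exact_mod_cast Nat.pos_of_ne_zero hw) hM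
        simp only [mul_zero, zero_mul, zero_add]
        exact h3.ne'
      rw [cF, if_neg hd, zero_mul, zero_mul]
    · have : A5 a M (Sum.inr (Sum.inl (some x))) j.succ.succ = 0 := by
        rw [A5_some, GEV_vec]
        have : j ≠ x := fun h => hx h.symm
        simp [ev, this]
      rw [this]
      simp
  have h3 : cF (A5 a M) (cC κ lm) (h5 a w) (Sum.inr (Sum.inl none)) *
      (A5 a M (Sum.inr (Sum.inl none)) j.succ.succ : ℂ) *
      tz t (fun k => A5 a M (Sum.inr (Sum.inl none)) k.succ.succ) = 0 := by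
    have : A5 a M (Sum.inr (Sum.inl none)) j.succ.succ = 0 := by
      rw [A5_none, GEV_vec]
      rfl
    rw [this]
    simp
  rw [h2, h3]
  simp only [Finset.univ_eq_empty, Finset.sum_empty, add_zero]
  have h4 : ∀ i, i ∈ FF a w ↔ dt (h5 a w) (A5 a M (Sum.inl i)) = 0 := by
    intro i
    rw [A5_inl, h5, dt_vec]
    unfold FF
    simp only [Finset.mem_filter, Finset.mem_univ, true_and]
    have : ∑ k, (w k : ℤ) * ((a i k : ℕ) : ℤ) = ((∑ k, a i k * w k : ℕ) : ℤ) := by
      push_cast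
      exact Finset.sum_congr rfl fun k _ => mul_comm _ _
    rw [this]
    constructor
    · intro h
      rw [h]
      ring
    · intro h
      have : ((∑ k, a i k * w k : ℕ) : ℤ) = (H22.wmin a w : ℤ) := by linarith
      exact_mod_cast this
  have h5' : PF a w j = Finset.univ.filter (fun i => i ∈ FF a w ∧ a i j = 1) := by
    unfold PF
    ext i
    simp
  rw [h5', Finset.sum_filter]
  refine Finset.sum_congr rfl fun i _ => ?_
  by_cases hi : i ∈ FF a w
  · have hd := (h4 i).1 hi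
    rw [cF, if_pos hd, A5_inl]
    simp only [GEV_vec, cC, Int.cast_natCast]
    have hle : (a i j : ℚ) ≤ 1 := by
      have h6 := hL.c1 i hi
      have h7 : c j * (a i j : ℚ) ≤ ∑ k, c k * (a i k : ℚ) :=
        Finset.single_le_sum (f := fun k => c k * (a i k : ℚ))
          (fun k _ => mul_nonneg (hL.c0 k) (Nat.cast_nonneg _)) (Finset.mem_univ j)
      rw [hc, one_mul] at h7
      exact h7.trans h6
    have hle' : a i j ≤ 1 := by exact_mod_cast hle
    rcases Nat.le_one_iff_eq_zero_or_eq_one.1 hle' with h | h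
    · rw [h, if_neg (by simp)]
      simp
    · rw [h, if_pos ⟨hi, rfl⟩]
      simp only [Nat.cast_one, mul_one]
      rfl
  · have hd := fun h => hi ((h4 i).2 h)
    rw [cF, if_neg hd, if_neg (fun h => hi h.1), zero_mul, zero_mul]

/-- EVAL -/
theorem evalx {n r : ℕ} (a : Fin r → (Fin n →₀ ℕ)) (κ : Fin r → ℂ) (w : Fin n → ℕ) (M : ℤ)
    (hM : 0 < M) (lm : Option (Fin n) ⊕ Fin 0 → ℂ) (P : Finset (Fin n)) (c : Fin n → ℚ)
    (lam : Fin r → ℚ) (hL : LPD (fun i j => a i j) (FF a w) (CC0 a w) P c lam)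
    (tt : Fin (n + 2) → LP ℂ (n + 2))
    (ht : ∀ k, tt k ≠ 0 → ∃ j ∈ P, c j = 1 ∧ k = j.succ.succ)
    (h1 : (single 0 1 : LP ℂ (n + 2)) =
      ∑ k, gs (A5 a M) (cF (A5 a M) (cC κ lm) (h5 a w)) (ev k) * tt k) (t : Fin n → ℂˣ) :
    ∃ j ∈ P, c j = 1 ∧ ∑ i ∈ PF a w j, κ i * tz t (aZ a i) ≠ 0 := by
  by_contra hcon
  push Not at hcon
  have h2 := congrArg (GEV_E t) h1
  rw [GEV_single, map_sum] at h2
  have h3 : ∀ k, GEV_E t (gs (A5 a M) (cF (A5 a M) (cC κ lm) (h5 a w)) (ev k) * tt k) = 0 := by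
    intro k
    by_cases hk : tt k = 0
    · rw [hk, mul_zero, map_zero]
    · obtain ⟨j, hj, hc, rfl⟩ := ht k hk
      rw [map_mul, GEV_gs a κ w M hM lm P c lam hL t j hj hc, hcon j hj hc, zero_mul]
  rw [Finset.sum_eq_zero (fun k _ => h3 k)] at h2
  simp [tz] at h2

end Pool.Agent.H22.T6
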