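import Mathlib

/-!
# GRB: the complex solutions of an integral linear system are combinations of rational solutions

Proof.  `K` = the submodule of `G → ℚ` of all rational solutions, `ρ` = `Module.finBasis ℚ K`.  Let `π` be a complex solution.  `U` = the `ℚ`-span of the `π g` in `ℂ` (finite dimensional),
`b : Fin m → U` a basis, `π g = ∑ k, (w g k : ℚ) • b k`.  For every equation `e`: `0 = ∑ g, eqs e g * π g = ∑ k, (∑ g, eqs e g * w g k) • b k`, so `∑ g, eqs e g * w g k = 0` for all `k`
(see the proof of `exists_nat_solution` in `Pool/Agent/H60/Gordan.lean`).  So `(g ↦ w g k) ∈ K`, `w · k = ∑ i, t k i • ρ i`, and `τ i = ∑ k, t k i * b k`.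
-/

set_option autoImplicit false

namespace Pool.Agent.H22.T6

open Finset

/-- RBASIS -/
theorem rbasis {G E : Type} [Fintype G] (eqs : E → G → ℤ) :
    ∃ (s : ℕ) (ρ : Fin s → G → ℚ), (∀ i e, ∑ g, (eqs e g : ℚ) * ρ i g = 0) ∧
      ∀ π : G → ℂ, (∀ e, ∑ g, (eqs e g : ℂ) * π g = 0) →
        ∃ τ : Fin s → ℂ, ∀ g, π g = ∑ i, τ i * (ρ i g : ℂ) := by
  classical
  let K : Submodule ℚ (G → ℚ) :=
    { carrier := {ρ | ∀ e, ∑ g, (eqs e g : ℚ) * ρ g = 0}
      add_mem' := by
        intro a b ha hb e
        simp only [Pi.add_apply, mul_add, Finset.sum_add_distrib]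
        rw [ha e, hb e, add_zero]
      zero_mem' := by
        intro e
        simp
      smul_mem' := by
        intro c a ha e
        have h := ha e
        simp only [Pi.smul_apply, smul_eq_mul]
        have h2 : ∀ g, (eqs e g : ℚ) * (c * a g) = c * ((eqs e g : ℚ) * a g) := fun g => by ring
        simp only [h2]
        rw [← Finset.mul_sum, h, mul_zero] }
  let B := Module.finBasis ℚ K
  refine ⟨Module.finrank ℚ K, fun i => (B i : G → ℚ), fun i e => (B i).2 e, ?_⟩
  intro π hπ
  let U : Submodule ℚ ℂ := Submodule.span ℚ (Set.range π)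
  haveI : FiniteDimensional ℚ U := FiniteDimensional.span_of_finite ℚ (Set.finite_range π)
  let b := Module.finBasis ℚ U
  have hmem : ∀ g, π g ∈ U := fun g => Submodule.subset_span (Set.mem_range_self g)
  let v : G → U := fun g => ⟨π g, hmem g⟩
  let w : Fin (Module.finrank ℚ U) → G → ℚ := fun k g => b.repr (v g) k
  have hw : ∀ g, π g = ∑ k, (w k g : ℂ) * ((b k : U) : ℂ) := by
    intro g
    have h1 : v g = ∑ k, b.repr (v g) k • b k := (b.sum_repr (v g)).symm
    have h2 : ((v g : U) : ℂ) = ((∑ k, b.repr (v g) k • b k : U) : ℂ) := congrArg _ h1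
    rw [Submodule.coe_sum] at h2
    have h3 : π g = ((v g : U) : ℂ) := rfl
    rw [h3, h2]
    refine Finset.sum_congr rfl fun k _ => ?_
    rw [Submodule.coe_smul, Rat.smul_def]
  have hK : ∀ k, w k ∈ K := by
    intro k e
    have h1 : ∑ g, (eqs e g : ℚ) • v g = 0 := by
      apply Subtype.ext
      rw [Submodule.coe_sum]
      have h2 := hπ e
      simp only [Submodule.coe_smul, Rat.smul_def]
      push_cast
      exact h2
    have h3 := congrArg (fun x => b.repr x k) h1
    simp only [map_sum, map_smul, map_zero] at h3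
    rw [Finsupp.finsetSum_apply] at h3
    simpa using h3
  let t : Fin (Module.finrank ℚ U) → Fin (Module.finrank ℚ K) → ℚ := fun k i =>
    B.repr ⟨w k, hK k⟩ i
  have ht : ∀ k g, w k g = ∑ i, t k i * (B i : G → ℚ) g := by
    intro k g
    have h1 : (⟨w k, hK k⟩ : K) = ∑ i, B.repr ⟨w k, hK k⟩ i • B i := (B.sum_repr _).symm
    have h2 : w k = ((∑ i, B.repr ⟨w k, hK k⟩ i • B i : K) : G → ℚ) := congrArg Subtype.val h1
    rw [Submodule.coe_sum] at h2
    have h3 := congrFun h2 g
    rw [Finset.sum_apply] at h3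
    exact h3
  refine ⟨fun i => ∑ k, (t k i : ℂ) * ((b k : U) : ℂ), fun g => ?_⟩
  rw [hw g]
  simp only [ht]
  push_cast
  simp only [Finset.sum_mul]
  rw [Finset.sum_comm]
  refine Finset.sum_congr rfl fun i _ => Finset.sum_congr rfl fun k _ => ?_
  ring

end Pool.Agent.H22.T6
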