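import Pool.Agent.H22.T6.GDefs

/-!
# GTB: clearing denominators of the level

Proof.  `m` = the product of the denominators of the `θ g`; `T g = m θ g` integral; `Y = ∑ T g • A_g`, so `(Y k : ℚ) = m * yq a M θ k`.  `InC`: for `h` with `0 ≤ dt h (A_g)` for all `g`:
`dt h Y = ∑ T g dt h (A_g) ≥ 0`.  `dt (h5 a w) Y = ∑ T g dt (h5 a w) (A_g) = 0` (`hT.off`).  The rest: multiply the conditions of `TH` by `m`.
-/

set_option autoImplicit false

namespace Pool.Agent.H22.T6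

open Finset AddMonoidAlgebra
open Pool.Agent.H56.SMC Pool.Agent.H37.T5 Pool.Agent.H56.T5

/-- YCLEAR -/
theorem yclear {n r : ℕ} (a : Fin r → (Fin n →₀ ℕ)) (w : Fin n → ℕ) (M : ℤ)
    (P : Finset (Fin n)) (D : ℤ) (cZ : Fin n → ℤ) (θ : IX n r → ℚ) (hT : TH a w M P D cZ θ) :
    ∃ (m : ℤ) (Y : Lat (n + 2)), 0 < m ∧ (∀ k, (Y k : ℚ) = m * yq a M θ k) ∧
      InC (A5 a M) Y ∧ dt (h5 a w) Y = 0 ∧ (∀ k ∈ sh P, Y k = m) ∧
      (∀ j, (∃ i, a i j = 0) → m ≤ Y j.succ.succ) ∧ Y (Fin.succ 0) < m ∧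
      D * Y 0 - ∑ j, cZ j * Y j.succ.succ < m := by
  classical
  obtain ⟨m, hm⟩ : ∃ m : ℕ, m = ∏ g : IX n r, (θ g).den := ⟨_, rfl⟩
  have hm0 : 0 < m := by
    rw [hm]
    exact Finset.prod_pos fun g _ => (θ g).den_pos
  have hTex : ∀ g, ∃ T : ℤ, (T : ℚ) = (m : ℚ) * θ g := by
    intro g
    have hd : (θ g).den ∣ m := by
      rw [hm]
      exact Finset.dvd_prod_of_mem _ (Finset.mem_univ g)
    obtain ⟨k, hk⟩ := hd
    refine ⟨(k : ℤ) * (θ g).num, ?_⟩
    have h1 : ((θ g).den : ℚ) * θ g = (θ g).num := Rat.den_mul_eq_num (θ g)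
    rw [hk]
    push_cast
    rw [← h1]
    ring
  choose T hTT using hTex
  have hmQ : (0 : ℚ) < (m : ℚ) := by exact_mod_cast hm0
  have hYk : ∀ k, (((∑ g, T g • A5 a M g : Lat (n + 2)) k : ℤ) : ℚ) = (m : ℚ) * yq a M θ k := by
    intro k
    rw [Finset.sum_apply]
    unfold yq
    push_cast
    rw [Finset.mul_sum]
    refine Finset.sum_congr rfl fun g _ => ?_
    rw [Pi.smul_apply, smul_eq_mul]
    push_cast
    rw [hTT g]
    ring
  have hT0 : ∀ g, 0 ≤ T g := by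
    intro g
    have h1 : (0 : ℚ) ≤ (T g : ℚ) := by
      rw [hTT g]
      exact mul_nonneg hmQ.le (hT.nn g)
    exact_mod_cast h1
  refine ⟨(m : ℤ), ∑ g, T g • A5 a M g, by exact_mod_cast hm0, ?_, ?_, ?_, ?_, ?_, ?_, ?_⟩
  · intro k
    rw [hYk k]
    push_cast
    rfl
  · intro h hh
    rw [dt_sum]
    refine Finset.sum_nonneg fun g _ => ?_
    rw [dt_zsmul]
    exact mul_nonneg (hT0 g) (hh g)
  · rw [dt_sum]
    refine Finset.sum_eq_zero fun g _ => ?_
    rw [dt_zsmul]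
    by_cases hg : dt (h5 a w) (A5 a M g) = 0
    · rw [hg, mul_zero]
    · have h1 : (T g : ℚ) = 0 := by
        rw [hTT g, hT.off g hg, mul_zero]
      have h2 : T g = 0 := by exact_mod_cast h1
      rw [h2, zero_mul]
  · intro k hk
    have h1 := hYk k
    rw [hT.P1 k hk, mul_one] at h1
    exact_mod_cast h1
  · intro j hj
    have h1 := hYk j.succ.succ
    have h2 := hT.J1 j hj
    have h3 : (m : ℚ) ≤ (((∑ g, T g • A5 a M g : Lat (n + 2)) j.succ.succ : ℤ) : ℚ) := by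
      rw [h1]
      nlinarith
    exact_mod_cast h3
  · have h1 := hYk (Fin.succ 0)
    have h2 := hT.l2
    have h3 : (((∑ g, T g • A5 a M g : Lat (n + 2)) (Fin.succ 0) : ℤ) : ℚ) < (m : ℚ) := by
      rw [h1]
      nlinarith
    exact_mod_cast h3
  · have h2 := hT.sm
    have h3 : ((D * (∑ g, T g • A5 a M g : Lat (n + 2)) 0 -
        ∑ j, cZ j * (∑ g, T g • A5 a M g : Lat (n + 2)) j.succ.succ : ℤ) : ℚ) < (m : ℚ) := by
      push_cast
      have h4 : ∀ j : Fin n, (cZ j : ℚ) *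
          (((∑ g, T g • A5 a M g : Lat (n + 2)) j.succ.succ : ℤ) : ℚ) =
          (m : ℚ) * ((cZ j : ℚ) * yq a M θ j.succ.succ) := by
        intro j
        rw [hYk]
        ring
      have h5' := hYk 0
      rw [h5']
      simp only [h4]
      rw [← Finset.mul_sum]
      nlinarith
    exact_mod_cast h3

end Pool.Agent.H22.T6
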