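import Pool.Agent.H22.T6.GTA
import Pool.Agent.H22.T6.GTB
import Pool.Agent.H22.T6.GCP
import Pool.Agent.H22.T6.GCH
import Pool.Agent.H22.T6.GDE
import Pool.Agent.H22.T6.GRB

/-!
# GGD: the level and the density of the good levels

Proof.  `theta` gives `θ0`, `ε`.  `rbasis` with the equations (index type `E = IX n r ⊕ Fin (n+2)`): `inl g`: the unit vector at `g` if `dt (h5 a w) (A5 a M g) ≠ 0`, zero otherwise; `inr k`: `g ↦ A5 a M g k` if
`k ∈ sh P`, zero otherwise; gives `s`, `ρ : Fin s → IX n r → ℚ`.  For `τ : Fin s → ℚ`: `θ τ g = θ0 g + ∑ i, τ i * ρ i g`; if `|τ i| < ε'` for all `i` (`ε' > 0` with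
`ε' * ∑ i |ρ i g| < ε` for all `g`) then `TH … (θ τ)`.
`chamber` with `κ`, `α v = ∑ g, θ0 g * dt (h v) (A_g)`, `β v i = ∑ g, ρ i g * dt (h v) (A_g)` and `ε'/2` gives `τ1`, `ε1`; `ε2 = min ε1 (ε'/2)`.
For every rational `τ` with `|τ i - τ1 i| < ε2`: `TH (θ τ)`, `yclear` gives `(m_τ, Y_τ)` with `Y_τ = m_τ yq (θ τ)`.  `Lay h (h5 a w) m_τ Y_τ` is the same set for all these `τ`: `u` is in it iff
`dt (h5 a w) u = 0` (`dt (h5 a w) Y_τ = 0`, `m_τ ≠ 0`) and for all `v`: `0 ≤ m_τ dt (h v) u + dt (h v) Y_τ = m_τ (dt (h v) u + α v + ∑ i β v i τ i)`; use the conclusion of `chamber` with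
`z = dt (h v) u`, for `τ` and for `τ1`.  Take `(m0, Y0)` for `τ1`.
Density: let `eval p Δ ≠ 0`.  `crit_pi` gives `π`; `π - θ0` satisfies the equations (`π`, `θ0` vanish off the face; for `k ∈ sh P`: `∑ π g A_g k = p_k = 1` (`pp _ _ j.succ.succ = 1`) and
`∑ θ0 g A_g k = yq θ0 k = 1` by `TH … (θ 0)`, i.e. `theta` with `ρ = 0`), so `π - θ0 = ∑ τ0 i ρ i` for some complex `τ0`.  Let `Δ'` be the polynomial in `Fin s` variables obtained from `Δ` by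
substituting `X_k ↦ C (yq θ0 k) + ∑ i, C (∑ g, ρ i g A_g k) * X i` (`MvPolynomial.bind₁` / `aeval`): `eval τ Δ' = eval (fun k => ∑ g (θ0 g + ∑ τ i ρ i g) A_g k) Δ` for all complex `τ`.  So
`eval τ0 Δ' = eval p Δ ≠ 0`, and `dens` gives a rational `τ` with `|τ i - τ1 i| < ε2` and `eval τ Δ' ≠ 0`; `(m_τ, Y_τ)` is the required pair (`(Y k : ℂ)/m = yq (θ τ) k`).
-/

set_option autoImplicit false

namespace Pool.Agent.H22.T6

open Finset AddMonoidAlgebra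
open Pool.Agent.H56.SMC Pool.Agent.H37.T5 Pool.Agent.H56.T5

theorem GGD_yq {n r s : ℕ} (a : Fin r → (Fin n →₀ ℕ)) (M : ℤ) (θ0 : IX n r → ℚ)
    (ρ : Fin s → IX n r → ℚ) (τ : Fin s → ℚ) (k : Fin (n + 2)) :
    yq a M (fun g => θ0 g + ∑ i, τ i * ρ i g) k = yq a M θ0 k + ∑ i, yq a M (ρ i) k * τ i := by
  unfold yq
  have h1 : ∑ g, (θ0 g + ∑ i, τ i * ρ i g) * (A5 a M g k : ℚ) =
      ∑ g, θ0 g * (A5 a M g k : ℚ) + ∑ g, ∑ i, τ i * ρ i g * (A5 a M g k : ℚ) := by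
    rw [← Finset.sum_add_distrib]
    refine Finset.sum_congr rfl fun g _ => ?_
    rw [add_mul, Finset.sum_mul]
  rw [h1, Finset.sum_comm]
  congr 1
  refine Finset.sum_congr rfl fun i _ => ?_
  rw [Finset.sum_mul]
  refine Finset.sum_congr rfl fun g _ => ?_
  ring

theorem GGD_dtY {n r : ℕ} (a : Fin r → (Fin n →₀ ℕ)) (M : ℤ) (θ : IX n r → ℚ) (m : ℤ)
    (Y h : Lat (n + 2)) (hY : ∀ k, (Y k : ℚ) = m * yq a M θ k) :
    (dt h Y : ℚ) = m * ∑ g, θ g * (dt h (A5 a M g) : ℚ) := by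
  unfold dt
  push_cast
  simp only [hY]
  unfold yq
  simp only [Finset.mul_sum]
  rw [Finset.sum_comm]
  refine Finset.sum_congr rfl fun g _ => Finset.sum_congr rfl fun k _ => ?_
  ring

theorem GGD_dtsmul {d : ℕ} (h u : Lat d) (m : ℤ) : dt h (m • u) = m * dt h u := by
  unfold dt
  rw [Finset.mul_sum]
  refine Finset.sum_congr rfl fun j _ => ?_
  rw [Pi.smul_apply, smul_eq_mul]
  ring

theorem GGD_lay {n r s : ℕ} (a : Fin r → (Fin n →₀ ℕ)) (w : Fin n → ℕ) (M : ℤ) {κ : Type}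
    (h : κ → Lat (n + 2)) (θ0 : IX n r → ℚ) (ρ : Fin s → IX n r → ℚ) (τ : Fin s → ℚ) (m : ℤ)
    (Y : Lat (n + 2)) (hm : 0 < m)
    (hY : ∀ k, (Y k : ℚ) = m * yq a M (fun g => θ0 g + ∑ i, τ i * ρ i g) k)
    (hY0 : dt (h5 a w) Y = 0) (u : Lat (n + 2)) :
    u ∈ Lay h (h5 a w) m Y ↔ dt (h5 a w) u = 0 ∧ ∀ v, 0 ≤ ((dt (h v) u : ℤ) : ℚ) +
      ((∑ g, θ0 g * (dt (h v) (A5 a M g) : ℚ)) +
        ∑ i, (∑ g, ρ i g * (dt (h v) (A5 a M g) : ℚ)) * τ i) := by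
  have hmq : (0 : ℚ) < m := by exact_mod_cast hm
  have key : ∀ v, ((dt (h v) (m • u + Y) : ℤ) : ℚ) = m * (((dt (h v) u : ℤ) : ℚ) +
      ((∑ g, θ0 g * (dt (h v) (A5 a M g) : ℚ)) +
        ∑ i, (∑ g, ρ i g * (dt (h v) (A5 a M g) : ℚ)) * τ i)) := by
    intro v
    rw [dt_add, GGD_dtsmul]
    push_cast
    rw [GGD_dtY a M _ m Y (h v) hY, mul_add]
    congr 2
    have h1 : ∑ g, (θ0 g + ∑ i, τ i * ρ i g) * (dt (h v) (A5 a M g) : ℚ) =
        ∑ g, θ0 g * (dt (h v) (A5 a M g) : ℚ) +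
          ∑ g, ∑ i, τ i * ρ i g * (dt (h v) (A5 a M g) : ℚ) := by
      rw [← Finset.sum_add_distrib]
      refine Finset.sum_congr rfl fun g _ => ?_
      rw [add_mul, Finset.sum_mul]
    rw [h1, Finset.sum_comm]
    congr 1
    refine Finset.sum_congr rfl fun i _ => ?_
    rw [Finset.sum_mul]
    refine Finset.sum_congr rfl fun g _ => ?_
    ring
  have hz : dt (h5 a w) (m • u + Y) = 0 ↔ dt (h5 a w) u = 0 := by
    rw [dt_add, GGD_dtsmul, hY0, add_zero, mul_eq_zero]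
    constructor
    · rintro (h1 | h1)
      · exact absurd h1 hm.ne'
      · exact h1
    · exact fun h1 => Or.inr h1
  constructor
  · rintro ⟨h1, h2⟩
    refine ⟨hz.mp h2, fun v => ?_⟩
    have h3 : (0 : ℚ) ≤ ((dt (h v) (m • u + Y) : ℤ) : ℚ) := by exact_mod_cast h1 v
    rw [key v] at h3
    exact nonneg_of_mul_nonneg_right h3 hmq
  · rintro ⟨h1, h2⟩
    refine ⟨fun v => ?_, hz.mpr h1⟩
    have h3 : (0 : ℚ) ≤ ((dt (h v) (m • u + Y) : ℤ) : ℚ) := by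
      rw [key v]
      exact mul_nonneg hmq.le (h2 v)
    exact_mod_cast h3

/-- GOOD -/
theorem good {n r : ℕ} (a : Fin r → (Fin n →₀ ℕ)) (w : Fin n → ℕ) (hcrit : CritP a w) (M : ℤ)
    (hM : (n : ℤ) + 2 ≤ M) {κ : Type} [Fintype κ] (h : κ → Lat (n + 2))
    (P : Finset (Fin n)) (c : Fin n → ℚ) (lam : Fin r → ℚ)
    (hL : LPD (fun i j => a i j) (FF a w) (CC0 a w) P c lam) (D : ℤ) (hD : 0 < D)
    (cZ : Fin n → ℤ) (hcZ : ∀ j, (cZ j : ℚ) = D * c j)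
    (hsm : ∑ i ∈ FF a w, lam i * (1 - ∑ j, c j * (a i j : ℚ)) < 1 / (2 * D)) :
    ∃ (m0 : ℤ) (Y0 : Lat (n + 2)), 0 < m0 ∧ InC (A5 a M) Y0 ∧ dt (h5 a w) Y0 = 0 ∧
      (∀ j, (∃ i, a i j = 0) → m0 ≤ Y0 j.succ.succ) ∧ (∀ j ∈ P, Y0 j.succ.succ = m0) ∧
      Y0 (Fin.succ 0) < m0 ∧ D * Y0 0 - ∑ j, cZ j * Y0 j.succ.succ < m0 ∧
      ∀ Δ : MvPolynomial (Fin (n + 2)) ℂ,
        MvPolynomial.eval (pp (-(H22.wsum w : ℂ) / (H22.wmin a w : ℂ)) Complex.I) Δ ≠ 0 →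
        ∃ (m : ℤ) (Y : Lat (n + 2)), 0 < m ∧
          Lay h (h5 a w) m Y = Lay h (h5 a w) m0 Y0 ∧ (∀ k ∈ sh P, Y k = m) ∧
          MvPolynomial.eval (fun j => (Y j : ℂ) / (m : ℂ)) Δ ≠ 0 := by
  classical
  obtain ⟨θ0, ε, hε, hθ⟩ := theta a w M hM P c lam hL D hD cZ hcZ hsm
  obtain ⟨eqs, heqs⟩ : ∃ eqs : IX n r ⊕ Fin (n + 2) → IX n r → ℤ, eqs = fun e g' => match e with
    | Sum.inl g => if g' = g then (if dt (h5 a w) (A5 a M g) ≠ 0 then 1 else 0) else 0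
    | Sum.inr k => if k ∈ sh P then A5 a M g' k else 0 := ⟨_, rfl⟩
  have el : ∀ g g', eqs (Sum.inl g) g' =
      if g' = g then (if dt (h5 a w) (A5 a M g) ≠ 0 then 1 else 0) else 0 := by
    intro g g'
    rw [heqs]
  have er : ∀ k g', eqs (Sum.inr k) g' = if k ∈ sh P then A5 a M g' k else 0 := by
    intro k g'
    rw [heqs]
  obtain ⟨s, ρ, hρ, hspan⟩ := rbasis eqs
  have hρ1 : ∀ i g, dt (h5 a w) (A5 a M g) ≠ 0 → ρ i g = 0 := by
    intro i g hg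
    have h1 := hρ i (Sum.inl g)
    rw [Finset.sum_eq_single g] at h1
    · rw [el, if_pos rfl, if_pos hg] at h1
      simpa using h1
    · intro g' _ hne
      rw [el, if_neg hne]
      simp
    · intro hc
      exact absurd (Finset.mem_univ _) hc
  have hρ2 : ∀ i, ∀ k ∈ sh P, yq a M (ρ i) k = 0 := by
    intro i k hk
    have h1 := hρ i (Sum.inr k)
    unfold yq
    rw [← h1]
    refine Finset.sum_congr rfl fun g _ => ?_
    rw [er, if_pos hk]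
    ring
  obtain ⟨S, hS⟩ : ∃ S : ℚ, S = ∑ g, ∑ i, |ρ i g| := ⟨_, rfl⟩
  have hS0 : 0 ≤ S := by
    rw [hS]
    exact Finset.sum_nonneg fun g _ => Finset.sum_nonneg fun i _ => abs_nonneg _
  obtain ⟨ε', hε'⟩ : ∃ ε' : ℚ, ε' = ε / (1 + S) := ⟨_, rfl⟩
  have hε'0 : 0 < ε' := by
    rw [hε']
    positivity
  have hε'1 : ε' * S < ε := by
    rw [hε', div_mul_eq_mul_div, div_lt_iff₀ (by linarith)]
    nlinarith
  have hTH : ∀ τ : Fin s → ℚ, (∀ i, |τ i| < ε') →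
      TH a w M P D cZ (fun g => θ0 g + ∑ i, τ i * ρ i g) := by
    intro τ hτ
    refine hθ (fun g => ∑ i, τ i * ρ i g) ?_ ?_ ?_
    · intro g
      have h1 : |∑ i, τ i * ρ i g| ≤ ∑ i, ε' * |ρ i g| := by
        refine (Finset.abs_sum_le_sum_abs _ _).trans (Finset.sum_le_sum fun i _ => ?_)
        rw [abs_mul]
        exact mul_le_mul_of_nonneg_right (hτ i).le (abs_nonneg _)
      rw [← Finset.mul_sum] at h1
      have h2 : ∑ i, |ρ i g| ≤ S := by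
        rw [hS]
        exact Finset.single_le_sum (f := fun g => ∑ i, |ρ i g|)
          (fun g _ => Finset.sum_nonneg fun i _ => abs_nonneg _) (Finset.mem_univ g)
      have h3 := mul_le_mul_of_nonneg_left h2 hε'0.le
      linarith
    · intro g hg
      exact Finset.sum_eq_zero fun i _ => by rw [hρ1 i g hg, mul_zero]
    · intro k hk
      have h1 := GGD_yq a M (fun _ => 0) ρ τ k
      have h2 : yq a M (fun _ : IX n r => (0 : ℚ)) k = 0 := by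
        unfold yq
        simp
      rw [h2, zero_add] at h1
      have h3 : (fun g => (0 : ℚ) + ∑ i, τ i * ρ i g) = fun g => ∑ i, τ i * ρ i g := by
        funext g
        rw [zero_add]
      rw [h3] at h1
      rw [h1]
      exact Finset.sum_eq_zero fun i _ => by rw [hρ2 i k hk, zero_mul]
  obtain ⟨τ1, hτ1, ε1, hε1, hch⟩ := chamber
    (fun v => ∑ g, θ0 g * (dt (h v) (A5 a M g) : ℚ))
    (fun v i => ∑ g, ρ i g * (dt (h v) (A5 a M g) : ℚ)) (ε' / 2) (by linarith)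
  have hτb : ∀ τ : Fin s → ℚ, (∀ i, |τ i - τ1 i| < min ε1 (ε' / 2)) → ∀ i, |τ i| < ε' := by
    intro τ hτ i
    have h1 := hτ i
    have h2 := hτ1 i
    have h3 := lt_of_lt_of_le h1 (min_le_right _ _)
    have h4 : |τ i| ≤ |τ i - τ1 i| + |τ1 i| := by
      have := abs_add_le (τ i - τ1 i) (τ1 i)
      simpa using this
    linarith
  have hself : ∀ i, |τ1 i - τ1 i| < min ε1 (ε' / 2) := by
    intro i
    rw [sub_self, abs_zero]
    exact lt_min hε1 (by linarith)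
  obtain ⟨m0, Y0, hm0, hY0, hInC, hdt0, hP0, hJ0, hl0, hs0⟩ :=
    yclear a w M P D cZ _ (hTH τ1 (hτb τ1 hself))
  refine ⟨m0, Y0, hm0, hInC, hdt0, hJ0, fun j hj => hP0 _ (mem_sh.mpr ⟨j, hj, rfl⟩), hl0, hs0, ?_⟩
  intro Δ hΔ
  obtain ⟨π, hπ0, hπ⟩ := crit_pi a w hcrit M (by omega)
  have hTH0 : TH a w M P D cZ (fun g => θ0 g + 0) := by
    refine hθ (fun _ => 0) (fun g => by simpa using hε) (fun g _ => rfl) (fun k _ => ?_)
    unfold yq
    simp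
  have hθ00 : (fun g => θ0 g + 0) = θ0 := by
    funext g
    rw [add_zero]
  rw [hθ00] at hTH0
  have hsol : ∀ e, ∑ g, (eqs e g : ℂ) * (π g - (θ0 g : ℂ)) = 0 := by
    intro e
    rcases e with g | k
    · rw [Finset.sum_eq_single g]
      · rw [el, if_pos rfl]
        by_cases hg : dt (h5 a w) (A5 a M g) ≠ 0
        · rw [hπ0 g hg, hTH0.off g hg]
          simp
        · rw [if_neg hg]
          simp
      · intro g' _ hne
        rw [el, if_neg hne]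
        simp
      · intro hc
        exact absurd (Finset.mem_univ _) hc
    · by_cases hk : k ∈ sh P
      · have h1 : ∑ g, (eqs (Sum.inr k) g : ℂ) * (π g - (θ0 g : ℂ)) =
            ∑ g, π g * (A5 a M g k : ℂ) - ((yq a M θ0 k : ℚ) : ℂ) := by
          unfold yq
          push_cast
          rw [← Finset.sum_sub_distrib]
          refine Finset.sum_congr rfl fun g _ => ?_
          rw [er, if_pos hk]
          ring
        rw [h1, ← hπ k, hTH0.P1 k hk]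
        obtain ⟨j, hj, rfl⟩ := mem_sh.mp hk
        have h2 : (pp (-(H22.wsum w : ℂ) / (H22.wmin a w : ℂ)) Complex.I : Fin (n + 2) → ℂ)
            j.succ.succ = 1 := rfl
        rw [h2]
        simp
      · refine Finset.sum_eq_zero fun g _ => ?_
        rw [er, if_neg hk]
        simp
  obtain ⟨τ0, hτ0⟩ := hspan (fun g => π g - (θ0 g : ℂ)) hsol
  obtain ⟨Δ', hΔ'⟩ : ∃ Δ' : MvPolynomial (Fin s) ℂ, Δ' = MvPolynomial.bind₁
    (fun k => MvPolynomial.C ((yq a M θ0 k : ℚ) : ℂ) +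
      ∑ i, MvPolynomial.C ((yq a M (ρ i) k : ℚ) : ℂ) * MvPolynomial.X i) Δ := ⟨_, rfl⟩
  have hev : ∀ τ : Fin s → ℂ, MvPolynomial.eval τ Δ' = MvPolynomial.eval
      (fun k => ((yq a M θ0 k : ℚ) : ℂ) + ∑ i, ((yq a M (ρ i) k : ℚ) : ℂ) * τ i) Δ := by
    intro τ
    rw [hΔ']
    have h1 := MvPolynomial.eval₂Hom_bind₁ (RingHom.id ℂ) τ
      (fun k => MvPolynomial.C ((yq a M θ0 k : ℚ) : ℂ) +
        ∑ i, MvPolynomial.C ((yq a M (ρ i) k : ℚ) : ℂ) * MvPolynomial.X i) Δ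
    refine h1.trans ?_
    have h2 : (fun k => (MvPolynomial.eval₂Hom (RingHom.id ℂ) τ)
        (MvPolynomial.C ((yq a M θ0 k : ℚ) : ℂ) +
          ∑ i, MvPolynomial.C ((yq a M (ρ i) k : ℚ) : ℂ) * MvPolynomial.X i)) =
        fun k => ((yq a M θ0 k : ℚ) : ℂ) + ∑ i, ((yq a M (ρ i) k : ℚ) : ℂ) * τ i := by
      funext k
      rw [map_add, map_sum]
      simp
    rw [h2]
    rfl
  have hp : (fun k => ((yq a M θ0 k : ℚ) : ℂ) + ∑ i, ((yq a M (ρ i) k : ℚ) : ℂ) * τ0 i) =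
      pp (-(H22.wsum w : ℂ) / (H22.wmin a w : ℂ)) Complex.I := by
    funext k
    rw [hπ k]
    have h1 : ∀ g, π g = (θ0 g : ℂ) + ∑ i, τ0 i * (ρ i g : ℂ) := by
      intro g
      rw [← hτ0 g]
      ring
    simp only [h1]
    unfold yq
    push_cast
    have h2 : ∑ g, ((θ0 g : ℂ) + ∑ i, τ0 i * (ρ i g : ℂ)) * (A5 a M g k : ℂ) =
        ∑ g, (θ0 g : ℂ) * (A5 a M g k : ℂ) +
          ∑ g, ∑ i, τ0 i * (ρ i g : ℂ) * (A5 a M g k : ℂ) := by
      rw [← Finset.sum_add_distrib]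
      refine Finset.sum_congr rfl fun g _ => ?_
      rw [add_mul, Finset.sum_mul]
    rw [h2, Finset.sum_comm (f := fun g i => τ0 i * (ρ i g : ℂ) * (A5 a M g k : ℂ))]
    congr 1
    refine Finset.sum_congr rfl fun i _ => ?_
    rw [Finset.sum_mul]
    refine Finset.sum_congr rfl fun g _ => ?_
    ring
  have hne : MvPolynomial.eval τ0 Δ' ≠ 0 := by
    rw [hev, hp]
    exact hΔ
  obtain ⟨τ, hτ, hτe⟩ := dens Δ' τ0 hne τ1 (min ε1 (ε' / 2)) (lt_min hε1 (by linarith))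
  obtain ⟨m, Y, hm, hY, -, hdt, hP, -, -, -⟩ := yclear a w M P D cZ _ (hTH τ (hτb τ hτ))
  refine ⟨m, Y, hm, ?_, hP, ?_⟩
  · ext u
    rw [GGD_lay a w M h θ0 ρ τ m Y hm hY hdt u, GGD_lay a w M h θ0 ρ τ1 m0 Y0 hm0 hY0 hdt0 u]
    refine and_congr_right fun _ => forall_congr' fun v => ?_
    exact hch τ (fun i => lt_of_lt_of_le (hτ i) (min_le_left _ _)) v (dt (h v) u)
  · rw [hev] at hτe
    have hmc : (m : ℂ) ≠ 0 := by exact_mod_cast hm.ne'
    have h1 : (fun j => (Y j : ℂ) / (m : ℂ)) =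
        fun k => ((yq a M θ0 k : ℚ) : ℂ) + ∑ i, ((yq a M (ρ i) k : ℚ) : ℂ) * ((τ i : ℚ) : ℂ) := by
      funext k
      have h2 := hY k
      rw [GGD_yq] at h2
      have h3 : (Y k : ℂ) = (m : ℂ) * (((yq a M θ0 k : ℚ) : ℂ) +
          ∑ i, ((yq a M (ρ i) k : ℚ) : ℂ) * ((τ i : ℚ) : ℂ)) := by
        exact_mod_cast congrArg (fun x : ℚ => (x : ℂ)) h2
      rw [h3, mul_div_cancel_left₀ _ hmc]
    rw [h1]
    exact hτe

end Pool.Agent.H22.T6
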