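import Pool.Agent.H22.T6.GDefs
import Pool.Agent.H56.T5.GKX

/-!
# GSU: the supports of degree `-1`

Proof.  `v = m0 • u + Y0` is in `InC (A5 a M)`, `dt (h5 a w) v = m0 dt (h5 a w) u + dt (h5 a w) Y0 = 0`.  (1) The functional `vec 0 1 0` is nonnegative on all exponents (`A5_inl`, `A5_none`, `A5_some`, `dt_vec`), so
`0 ≤ m0 u_1 + (Y0)_1 < m0 (u_1 + 1)`, so `u_1 ≥ 0` (`u_1 = u (Fin.succ 0)`).  `dt (vec 1 1 0) u = u_0 + u_1 = -1`, so `u_0 ≤ -1`.
(2) `facI` (`Pool/Agent/H56/T5/GKX.lean`): `N • v = ∑ k_g • A_g`, `N > 0`, `k_g : ℕ`; `dt (h5 a w)` is nonnegative on all `A_g` (`appg_h0` or: `-N(w) + w·a_i ≥ 0`, `0`, `M w_j`), so `k_g = 0` off the face.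
The functional `φ(u) = D u_0 - ∑_j cZ_j u_{j+2}` is nonnegative on the exponents of the face: `inl i`, `i ∈ FF a w`: `D - ∑ cZ_j a_ij = D (1 - ∑ c_j a_ij) ≥ 0` (`hL.c1`); `none`: `0`; `some j`,
`w j = 0`: `-M cZ_j = 0` (`j ∉ P`, since `P ⊆ CC0`, so `c_j = 0`).  So `0 ≤ φ(v) = m0 φ(u) + φ(Y0) < m0 (φ(u) + 1)`, so `φ(u) ≥ 0`: `∑ cZ_j u_{j+2} ≤ D u_0 ≤ -D`.
(3) `cZ_j ≥ 0`, `cZ_j = 0` for `j ∉ P`.  For `j ∈ P` with `j.succ.succ ≠ k`: `u_{j+2} ≥ 0`, and `u_{j+2} ≥ -1` for `j ∈ P` in any case (`hu : u ∈ LL ev (sh P) {k}`, `dt_ev`, `mem_sh`).  If `k` is not `j.succ.succ` with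
`j ∈ P`: the sum is `≥ 0`, contradiction to `≤ -D < 0`.  So `k = j.succ.succ`, `j ∈ P`, and `-D ≥ ∑ ≥ cZ_j u_{j+2} ≥ -cZ_j`, so `cZ_j ≥ D`, `c_j ≥ 1`.  `c_j ≤ 1`: by `hL.lP j` some `i ∈ FF a w` has `a i j ≥ 1`
(otherwise the sum would be `0`), and `c_j ≤ c_j a_ij ≤ ∑ c_j' a_ij' ≤ 1`.  So `c_j = 1`.
-/

set_option autoImplicit false

namespace Pool.Agent.H22.T6

open Finset AddMonoidAlgebra
open Pool.Agent.H56.SMC Pool.Agent.H37.T5 Pool.Agent.H56.T5

theorem GSU_cone {n r : ℕ} (hr : 0 < r) (a : Fin r → (Fin n →₀ ℕ)) (w : Fin n → ℕ) (M : ℤ)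
    (hM : 0 < M) (v : Lat (n + 2)) (hv : InC (A5 a M) v) (hv0 : dt (h5 a w) v = 0)
    (h : Lat (n + 2))
    (hh : ∀ g, dt (h5 a w) (A5 a M g) = 0 → 0 ≤ dt h (A5 a M g)) : 0 ≤ dt h v := by
  obtain ⟨N, hN, kk, hkk⟩ := facI hr a M hM v hv
  have hnn : ∀ g, 0 ≤ dt (h5 a w) (A5 a M g) := by
    intro g
    exact appg_h0 a (noW n) M hM w (fun k => k.elim0) g
  have h1 : ∑ g, (kk g : ℤ) * dt (h5 a w) (A5 a M g) = 0 := by
    have := congrArg (dt (h5 a w)) hkk
    rw [dt_nsmul, hv0, mul_zero, dt_sum] at this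
    rw [this]
    exact sum_congr rfl fun g _ => (dt_nsmul _ _ _).symm
  have h2 : ∀ g, (kk g : ℤ) * dt (h5 a w) (A5 a M g) = 0 := fun g =>
    (sum_eq_zero_iff_of_nonneg (fun g _ => mul_nonneg (by positivity) (hnn g))).1 h1 g (mem_univ g)
  have h3 : (N : ℤ) * dt h v = ∑ g, (kk g : ℤ) * dt h (A5 a M g) := by
    have := congrArg (dt h) hkk
    rw [dt_nsmul, dt_sum] at this
    rw [this]
    exact sum_congr rfl fun g _ => dt_nsmul _ _ _
  have h4 : 0 ≤ (N : ℤ) * dt h v := by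
    rw [h3]
    refine sum_nonneg fun g _ => ?_
    rcases mul_eq_zero.1 (h2 g) with h5 | h5
    · rw [h5, zero_mul]
    · exact mul_nonneg (by positivity) (hh g h5)
  have hN' : (0 : ℤ) < N := by exact_mod_cast hN
  by_contra hcon
  push Not at hcon
  have := mul_neg_of_pos_of_neg hN' hcon
  omega

/-- If `m0 x + y ≥ 0` and `y < m0` then `x ≥ 0`. -/
theorem GSU_int (m0 x y : ℤ) (h1 : 0 ≤ m0 * x + y) (h2 : y < m0) (hm : 0 < m0) : 0 ≤ x := by
  by_contra hcon
  push Not at hcon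
  nlinarith

/-- SUPP -/
theorem supp_t {n r : ℕ} (hr : 0 < r) (a : Fin r → (Fin n →₀ ℕ)) (w : Fin n → ℕ) (M : ℤ)
    (hM : 0 < M) (P : Finset (Fin n)) (c : Fin n → ℚ) (lam : Fin r → ℚ)
    (hL : LPD (fun i j => a i j) (FF a w) (CC0 a w) P c lam) (D : ℤ) (hD : 0 < D)
    (cZ : Fin n → ℤ) (hcZ : ∀ j, (cZ j : ℚ) = D * c j) (m0 : ℤ) (hm0 : 0 < m0)
    (Y0 : Lat (n + 2)) (hY0 : dt (h5 a w) Y0 = 0) (hl2 : Y0 (Fin.succ 0) < m0)
    (hsm : D * Y0 0 - ∑ j, cZ j * Y0 j.succ.succ < m0) (u : Lat (n + 2))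
    (hu1 : InC (A5 a M) (m0 • u + Y0)) (hu2 : dt (h5 a w) u = 0) (k : Fin (n + 2))
    (hu3 : u ∈ LL ev (sh P) {k}) (hu4 : dt (vec 1 1 0) u = -1) :
    ∃ j ∈ P, c j = 1 ∧ k = j.succ.succ := by
  have hv0 : dt (h5 a w) (m0 • u + Y0) = 0 := by
    rw [dt_add, dt_zsmul, hu2, hY0]; ring
  have hcone := GSU_cone hr a w M hM (m0 • u + Y0) hu1 hv0
  -- (1)
  have h1 : 0 ≤ u (Fin.succ 0) := by
    have h := hcone (ev (Fin.succ 0)) (by
      intro g _
      rw [dt_ev]
      rcases g with i | (o | k)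
      · rw [A5_inl]; simp [vec]
      · rcases o with _ | j
        · rw [A5_none]; simp [vec]
        · rw [A5_some]; simp [vec]
      · exact k.elim0)
    rw [dt_ev] at h
    simp only [Pi.add_apply, Pi.smul_apply, smul_eq_mul] at h
    exact GSU_int m0 _ _ h hl2 hm0
  have h01 : u 0 + u (Fin.succ 0) = -1 := by
    rw [vec_surj u, dt_vec] at hu4
    simpa using hu4
  -- cZ
  have hDq : (0 : ℚ) < D := by exact_mod_cast hD
  have hcZ0 : ∀ j, 0 ≤ cZ j := by
    intro j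
    have : (0 : ℚ) ≤ cZ j := by rw [hcZ]; exact mul_nonneg hDq.le (hL.c0 j)
    exact_mod_cast this
  have hcZP : ∀ j, j ∉ P → cZ j = 0 := by
    intro j hj
    have hc : c j = 0 := by
      by_contra h
      exact hj ((hL.cP j).1 h)
    have : (cZ j : ℚ) = 0 := by rw [hcZ, hc, mul_zero]
    exact_mod_cast this
  -- (2)
  have hφ : ∀ v : Lat (n + 2), dt (vec D 0 (fun j => -cZ j)) v =
      D * v 0 - ∑ j, cZ j * v j.succ.succ := by
    intro v
    conv_lhs => rw [vec_surj v]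
    rw [dt_vec]
    simp only [neg_mul, sum_neg_distrib, zero_mul, add_zero]
    ring
  have h2 : 0 ≤ D * u 0 - ∑ j, cZ j * u j.succ.succ := by
    have h := hcone (vec D 0 (fun j => -cZ j)) (by
      intro g hg
      rcases g with i | (o | k)
      · rw [A5_inl, dt_vec]
        rw [A5_inl] at hg
        unfold h5 at hg
        rw [dt_vec] at hg
        have hi : i ∈ FF a w := by
          unfold FF
          rw [mem_filter]
          refine ⟨mem_univ _, ?_⟩
          have h3 : ((∑ j, a i j * w j : ℕ) : ℤ) = (H22.wmin a w : ℤ) := by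
            push_cast
            have h4 : ∑ j, (a i j : ℤ) * (w j : ℤ) = ∑ j, (w j : ℤ) * (a i j : ℤ) :=
              sum_congr rfl fun j _ => mul_comm _ _
            rw [h4]
            linarith
          exact_mod_cast h3
        have h5 := hL.c1 i hi
        have h6 : ((∑ j, cZ j * (a i j : ℤ) : ℤ) : ℚ) ≤ D := by
          push_cast
          have h7 : ∑ j, (cZ j : ℚ) * ((a i j : ℕ) : ℚ) = D * ∑ j, c j * (a i j : ℚ) := by
            rw [mul_sum]
            exact sum_congr rfl fun j _ => by rw [hcZ]; ring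
          rw [h7]
          nlinarith
        have h8 : ∑ j, cZ j * (a i j : ℤ) ≤ D := by exact_mod_cast h6
        simp only [neg_mul, sum_neg_distrib]
        linarith
      · rcases o with _ | j
        · rw [A5_none, dt_vec]; simp
        · rw [A5_some, dt_vec]
          rw [A5_some] at hg
          unfold h5 at hg
          rw [dt_vec] at hg
          simp only [ev, Pi.smul_apply, smul_eq_mul, Pi.single_apply, mul_ite, mul_one, mul_zero,
            sum_ite_eq', mem_univ, if_true, zero_add] at hg ⊢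
          rcases mul_eq_zero.1 hg with h3 | h3
          · have hwj : w j = 0 := by exact_mod_cast h3
            have hjP : j ∉ P := by
              intro hj
              have h4 := hL.PC hj
              unfold CC0 at h4
              rw [mem_filter] at h4
              exact h4.2.1 hwj
            rw [hcZP j hjP]
            simp
          · exact absurd h3 hM.ne'
      · exact k.elim0)
    rw [hφ] at h
    have h3 : D * (m0 • u + Y0) 0 - ∑ j : Fin n, cZ j * (m0 • u + Y0) j.succ.succ =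
        m0 * (D * u 0 - ∑ j, cZ j * u j.succ.succ) +
          (D * Y0 0 - ∑ j, cZ j * Y0 j.succ.succ) := by
      simp only [Pi.add_apply, Pi.smul_apply, smul_eq_mul, mul_add, sum_add_distrib, mul_sub,
        mul_sum]
      have h4 : ∑ j : Fin n, cZ j * (m0 * u j.succ.succ) =
          ∑ j : Fin n, m0 * (cZ j * u j.succ.succ) := sum_congr rfl fun j _ => by ring
      rw [h4]
      ring
    rw [h3] at h
    exact GSU_int m0 _ _ h hsm hm0
  have hsum : ∑ j, cZ j * u j.succ.succ ≤ -D := by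
    have : D * u 0 ≤ D * (-1) := mul_le_mul_of_nonneg_left (by omega) hD.le
    linarith
  -- (3)
  have hge : ∀ j, j.succ.succ ≠ k → 0 ≤ cZ j * u j.succ.succ := by
    intro j hjk
    by_cases hj : j ∈ P
    · have h3 := (hu3 j.succ.succ (mem_sh.2 ⟨j, hj, rfl⟩)).2 (by simpa using hjk)
      rw [dt_ev] at h3
      exact mul_nonneg (hcZ0 j) h3
    · rw [hcZP j hj, zero_mul]
  have hex : ∃ j ∈ P, k = j.succ.succ := by
    by_contra hcon
    push Not at hcon
    have h3 : 0 ≤ ∑ j, cZ j * u j.succ.succ := by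
      refine sum_nonneg fun j _ => ?_
      by_cases hj : j ∈ P
      · exact hge j (fun h => hcon j hj h.symm)
      · rw [hcZP j hj, zero_mul]
    omega
  obtain ⟨j, hj, hk⟩ := hex
  refine ⟨j, hj, le_antisymm ?_ ?_, hk⟩
  · have h3 : ∃ i ∈ FF a w, a i j ≠ 0 := by
      by_contra hcon
      push Not at hcon
      have h4 := hL.lP j hj
      rw [sum_eq_zero (fun i hi => by rw [hcon i hi]; simp)] at h4
      exact zero_ne_one h4
    obtain ⟨i, hi, hij⟩ := h3
    have h4 : (1 : ℚ) ≤ (a i j : ℚ) := by exact_mod_cast Nat.one_le_iff_ne_zero.2 hij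
    have h5 : c j * (a i j : ℚ) ≤ ∑ j', c j' * (a i j' : ℚ) :=
      single_le_sum (f := fun j' => c j' * (a i j' : ℚ))
        (fun j' _ => mul_nonneg (hL.c0 j') (by positivity)) (mem_univ j)
    have h6 := hL.c1 i hi
    have h7 := hL.c0 j
    nlinarith
  · have h3 : cZ j * u j.succ.succ ≤ ∑ j, cZ j * u j.succ.succ := by
      rw [← add_sum_erase univ (fun j => cZ j * u j.succ.succ) (mem_univ j)]
      have h4 : 0 ≤ ∑ x ∈ univ.erase j, cZ x * u x.succ.succ := by
        refine sum_nonneg fun x hx => hge x ?_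
        rw [hk]
        intro h
        exact (mem_erase.1 hx).1 (Fin.succ_injective _ (Fin.succ_injective _ h))
      linarith
    have h5 := (hu3 j.succ.succ (mem_sh.2 ⟨j, hj, rfl⟩)).1
    rw [dt_ev] at h5
    have h6 : -cZ j ≤ cZ j * u j.succ.succ := by nlinarith [hcZ0 j]
    have h7 : D ≤ cZ j := by linarith
    have h8 : (D : ℚ) ≤ D * c j := by rw [← hcZ]; exact_mod_cast h7
    by_contra hcon
    push Not at hcon
    nlinarith

end Pool.Agent.H22.T6
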