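import Pool.Agent.H22.T6.SFN
import Pool.Agent.H22.T6.GGD
import Pool.Agent.H22.T6.GSU
import Pool.Agent.H22.T6.GEV
import Pool.Agent.H56.T5.APPL
import Pool.Agent.H56.SMC.LAM
import Pool.Agent.H56.SMC.NDG

/-!
# GLU: the functional equation gives a system without solutions
-/

set_option autoImplicit false

namespace Pool.Agent.H22.T6

open Finset AddMonoidAlgebra
open Pool.Agent.H56.SMC Pool.Agent.H37.T5 Pool.Agent.H56.T5

/-- A common denominator. -/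
theorem GLU_den {n : ℕ} (c : Fin n → ℚ) :
    ∃ (D : ℤ) (cZ : Fin n → ℤ), 0 < D ∧ ∀ j, (cZ j : ℚ) = D * c j := by
  classical
  refine ⟨∏ j, ((c j).den : ℤ), fun j => (c j).num * ∏ i ∈ univ.erase j, ((c i).den : ℤ), ?_, ?_⟩
  · exact prod_pos fun j _ => by exact_mod_cast (c j).den_pos
  · intro j
    rw [← mul_prod_erase univ (fun j => ((c j).den : ℤ)) (mem_univ j)]
    push_cast
    have h1 : ((c j).num : ℚ) = c j * (c j).den := (Rat.mul_den_eq_num (c j)).symm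
    rw [h1]
    ring

/-- GEX -/
theorem geX {n r : ℕ} (a : Fin r → (Fin n →₀ ℕ)) (κ : Fin r → ℂ) (hnd : Nondeg a κ)
    (b : Polynomial ℂ) (PW : H22.WeylS n)
    (hfe : H22.FunctionalEquation (fpoly a κ) b PW) (w : Fin n → ℕ)
    (hN : 0 < H22.wmin a w) (hcrit : CritP a w) (P : Finset (Fin n)) (c : Fin n → ℚ)
    (hLP : ∀ η : ℚ, 0 < η → ∃ lam : Fin r → ℚ,
      LPD (fun i j => a i j) (FF a w) (CC0 a w) P c lam ∧
        ∑ i ∈ FF a w, lam i * (1 - ∑ j, c j * (a i j : ℚ)) < η)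
    (hb : b.eval (-(H22.wsum w : ℂ) / (H22.wmin a w : ℂ)) ≠ 0) (t : Fin n → ℂˣ) :
    ∃ j ∈ P, c j = 1 ∧ ∑ i ∈ PF a w j, κ i * tz t (aZ a i) ≠ 0 := by
  classical
  obtain ⟨D, cZ, hD, hcZ⟩ := GLU_den c
  have hDQ : (0 : ℚ) < D := by exact_mod_cast hD
  obtain ⟨lam, hL, hsm⟩ := hLP (1 / (2 * D)) (by positivity)
  have hr := appg_pos a w hN
  obtain ⟨M, hMn, hM⟩ : ∃ M : ℤ, (n : ℤ) + 2 ≤ M ∧ 0 < M := ⟨(n : ℤ) + 2, le_rfl, by positivity⟩
  have hδ := appg_delta a (noW n) M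
  obtain ⟨e, he⟩ := fspan hr a (noW n) M hM
  obtain ⟨mf, h, hh, -, -, hfac⟩ := fac (cA a (bbM (noW n) M)) (vec 1 1 0) hδ ⟨e, he⟩
  have hS := appg_sset (cA a (bbM (noW n) M)) h hh hfac
  have hH : ∀ i, 0 ≤ dt (h5 a w) (A5 a M i) := appg_h0 a (noW n) M hM w (fun k => k.elim0)
  obtain ⟨lm, hlm⟩ := lam_exists (Finset.univ.image κ) (Option (Fin n) ⊕ Fin 0)
  have hlm' : AlgebraicIndependent (Algebra.adjoin ℚ (Set.range κ)) lm := by
    have h1 : ((Finset.univ.image κ : Finset ℂ) : Set ℂ) = Set.range κ := by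
      simp
    rwa [h1] at hlm
  have hT : TorusND (A5 a M) (cC κ lm) := ndg a κ hnd (bbM (noW n) M) lm hlm'
  obtain ⟨m0, Y0, hm0, hY0C, hY0h, hY0j, hY0P, hl2, hsmY, hgood⟩ :=
    good a w hcrit M hMn h P c lam hL D hD cZ hcZ hsm
  have hK := gkx hr a κ M hM lm hT P m0 hm0 Y0 hY0P
  have hex := appL a κ b PW hfe w hN P M hM m0 hm0 Y0 hY0C hY0h hY0j lm hK
  have hset : RG (A5 a M) m0 Y0 ∩ {u | dt (h5 a w) u = 0} = Lay h (h5 a w) m0 Y0 := by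
    ext u
    constructor
    · rintro ⟨h1, h2⟩
      refine ⟨(hS _).2 h1, ?_⟩
      have h2' : dt (h5 a w) u = 0 := h2
      rw [dt_add, dt_zsmul, h2', hY0h]
      ring
    · rintro ⟨h1, h2⟩
      refine ⟨(hS _).1 h1, ?_⟩
      rw [dt_add, dt_zsmul, hY0h, add_zero] at h2
      exact (mul_eq_zero.1 h2).resolve_left hm0.ne'
  rw [hset] at hex
  have hPa : ∀ k ∈ sh P, ∀ i, 0 ≤ A5 a M i k := by
    intro k hk i
    obtain ⟨j, -, rfl⟩ := mem_sh.1 hk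
    rcases i with i | (o | k)
    · simp [A5, cA, vec]
    · simp only [A5, cA, vec, Fin.cons_succ]
      exact appg_bbM_nonneg (noW n) M hM o j
    · exact k.elim0
  obtain ⟨tt, htt, h1⟩ := strict (A5 a M) (cC κ lm) h (vec 1 1 0) hδ hh hfac hT (h5 a w) hH
    (sh P) hPa _ _ hgood _ hb hex
  refine evalx a κ w M hM lm P c lam hL tt ?_ h1 t
  intro k hk
  obtain ⟨u, hu⟩ : ∃ u, (tt k).coeff u ≠ 0 := by
    by_contra hcon
    push Not at hcon
    exact hk (lp_ext fun u => by rw [hcon u]; rfl)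
  obtain ⟨⟨⟨h2, h3⟩, h4⟩, h5'⟩ := htt k u hu
  have h3' : dt (h5 a w) u = 0 := by
    rw [dt_add, dt_zsmul, hY0h, add_zero] at h3
    exact (mul_eq_zero.1 h3).resolve_left hm0.ne'
  exact supp_t hr a w M hM P c lam hL D hD cZ hcZ m0 hm0 Y0 hY0h hl2 hsmY u ((hS _).1 h2) h3' k
    h4 h5'

end Pool.Agent.H22.T6
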