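import Pool.Agent.H22.T6.Defs

/-!
# GLX: lexicographic faces

Proof.  Let `g_i = ∑ g_j a_ij`, `g'_i` integers.  `B = 1 + ∑_i |g'_i|`, `L = 2 B` (then `L > |g'_i - g'_i'|` for all `i, i'`).  (→) if `i` minimises `L g + g'`: for `i'`: `L (g_i - g_i') ≤ g'_i' - g'_i < L`, so `g_i ≤ g_i'` (integers); if
`i'` also minimises `g` then `g_i = g_i'`, so `g'_i ≤ g'_i'`.  (←) if `i` minimises `g` and `g'` among the minimisers: for `i'` with `g_i' = g_i`: `i'` minimises `g`, fine; if `g_i' ≥ g_i + 1`: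
`L g_i' + g'_i' ≥ L g_i + L + g'_i' > L g_i + g'_i`.
-/

set_option autoImplicit false

namespace Pool.Agent.H22.T6

open Finset AddMonoidAlgebra
open Pool.Agent.H56.SMC Pool.Agent.H37.T5 Pool.Agent.H56.T5

/-- The abstract form. -/
theorem GLX_abs {r : ℕ} (G G' : Fin r → ℤ) (B : ℤ) (hB : ∀ i, |G' i| ≤ B) (L : ℤ)
    (hL : 2 * B < L) (i : Fin r) :
    (∀ i', L * G i + G' i ≤ L * G i' + G' i') ↔
      ((∀ i', G i ≤ G i') ∧ ∀ i', (∀ i'', G i' ≤ G i'') → G' i ≤ G' i') := by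
  have hb : ∀ i, -B ≤ G' i ∧ G' i ≤ B := fun i => abs_le.1 (hB i)
  have hB0 : 0 ≤ B := le_trans (abs_nonneg _) (hB i)
  constructor
  · intro h
    have h1 : ∀ i', G i ≤ G i' := by
      intro i'
      by_contra hlt
      have h2 : G i' + 1 ≤ G i := by omega
      have h3 := h i'
      have h4 := hb i
      have h5 := hb i'
      nlinarith
    refine ⟨h1, fun i' hi' => ?_⟩
    have h2 : G i = G i' := le_antisymm (h1 i') (hi' i)
    have h3 := h i'
    rw [h2] at h3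
    linarith
  · rintro ⟨h1, h2⟩ i'
    rcases eq_or_lt_of_le (h1 i') with h3 | h3
    · have h4 := h2 i' (fun i'' => h3 ▸ h1 i'')
      rw [h3]
      linarith
    · have h4 : G i + 1 ≤ G i' := by omega
      have h5 := hb i
      have h6 := hb i'
      nlinarith

/-- LEXF -/
theorem lexF {n r : ℕ} (a : Fin r → Fin n → ℤ) (g g' : Fin n → ℤ) :
    ∃ L : ℤ, 0 < L ∧ ∀ i, (∀ i', ∑ j, (L * g j + g' j) * a i j ≤
        ∑ j, (L * g j + g' j) * a i' j) ↔
      ((∀ i', ∑ j, g j * a i j ≤ ∑ j, g j * a i' j) ∧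
        ∀ i', (∀ i'', ∑ j, g j * a i' j ≤ ∑ j, g j * a i'' j) →
          ∑ j, g' j * a i j ≤ ∑ j, g' j * a i' j) := by
  have hB : ∀ i, |∑ j, g' j * a i j| ≤ ∑ i, |∑ j, g' j * a i j| := fun i =>
    single_le_sum (f := fun i => |∑ j, g' j * a i j|) (fun _ _ => abs_nonneg _) (mem_univ i)
  have h0 : 0 ≤ ∑ i, |∑ j, g' j * a i j| := sum_nonneg fun _ _ => abs_nonneg _
  refine ⟨2 * (∑ i, |∑ j, g' j * a i j|) + 1, by linarith, fun i => ?_⟩
  have h := GLX_abs (fun i => ∑ j, g j * a i j) (fun i => ∑ j, g' j * a i j) _ hB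
    (2 * (∑ i, |∑ j, g' j * a i j|) + 1) (by linarith) i
  rw [← h]
  have e : ∀ (L : ℤ) i, ∑ j, (L * g j + g' j) * a i j =
      L * ∑ j, g j * a i j + ∑ j, g' j * a i j := by
    intro L i
    rw [mul_sum, ← sum_add_distrib]
    exact sum_congr rfl fun j _ => by ring
  simp only [e]

end Pool.Agent.H22.T6
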