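import Pool.Agent.H22.T6.GLX

/-!
# GND: the nondegeneracy of the system `h_k`

Proof.  Suppose `∑_k μ_k d_k = 0` (`k ∈ K`, `d_k` the vector of the conclusion) with `μ` not all zero (`linearIndependent_iff'`); `K' = {k ∈ K : μ_k ≠ 0}`, nonempty.  `Γ = ⋃_{k ∈ K'} mn ν (aZ a) (PF a w k)`
(disjoint union: `∑ k ∈ K, a i k ≤ 1` on `FF a w`).  There is an integral weight vector `w'` such that the exponents with `w'·a_i` minimal are exactly those of `Γ`: apply `lexF` three times, starting with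
`g = w` (minimisers: `FF a w`, see `H22.wmin`), then `g' = -∑_{k ∈ K} e_k` (minimisers: `i ∈ FF` with `∑_K a_ik = 1`, i.e. `⋃_{k ∈ K} PF a w k`; nonempty by `hKne`), then `g' = ∑_{k ∈ K \ K'} e_k`
(minimisers `⋃_{k ∈ K'} PF a w k`), then `g' = ν - ∑_{k ∈ K'} ψ_k e_k`, `ψ_k = min of ν·a_i over PF a w k` (on `PF a w k`, `k ∈ K'`, the value is `ν·a_i - ψ_k ≥ 0`, zero iff `i ∈ mn ν (aZ a) (PF a w k)`; these sets are
nonempty).
Now let `x_j = t_j` for `j ∉ K'` and `x_k = t_k μ_k` for `k ∈ K'` (all nonzero).  For `i ∈ PF a w k`, `k ∈ K'`: `∏ x_j^{a_ij} = tz t (aZ a i) * μ_k` (`a_ik = 1` and `a_ik' = 0` for the other `k' ∈ K`).  So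
`∑_{i ∈ Γ} κ_i x^{a_i} = ∑_{k ∈ K'} μ_k ∑_{i ∈ mn} κ_i tz t (a_i) = 0` and `∑_{i ∈ Γ} κ_i a_ij x^{a_i} = ∑_{k ∈ K'} μ_k (d_k)_j = 0` for all `j`, contradicting `hnd w' x`.
-/

set_option autoImplicit false

namespace Pool.Agent.H22.T6

open Finset AddMonoidAlgebra
open Pool.Agent.H56.SMC Pool.Agent.H37.T5 Pool.Agent.H56.T5

theorem GND_FF {n r : ℕ} (a : Fin r → (Fin n →₀ ℕ)) (w : Fin n → ℕ) (i : Fin r) :
    i ∈ FF a w ↔ ∀ i', ∑ j, (w j : ℤ) * aZ a i j ≤ ∑ j, (w j : ℤ) * aZ a i' j := by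
  classical
  have hc : ∀ i, ∑ j, (w j : ℤ) * aZ a i j = ((∑ j, a i j * w j : ℕ) : ℤ) := by
    intro i
    push_cast
    exact Finset.sum_congr rfl fun j _ => by rw [mul_comm]; rfl
  have hb : BddBelow (Set.range fun i => ∑ j, a i j * w j) := OrderBot.bddBelow _
  simp only [hc, Nat.cast_le]
  unfold FF
  simp only [mem_filter, mem_univ, true_and]
  constructor
  · intro h i'
    rw [h]
    exact ciInf_le hb i'
  · intro h
    have : Nonempty (Fin r) := ⟨i⟩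
    exact le_antisymm (le_ciInf h) (ciInf_le hb i)

theorem GND_one {n : ℕ} (f : Fin n → ℕ) (K : Finset (Fin n)) (h : ∑ k ∈ K, f k = 1) :
    ∃ k ∈ K, f k = 1 ∧ ∀ k' ∈ K, k' ≠ k → f k' = 0 := by
  classical
  have h1 : ∃ k ∈ K, f k ≠ 0 := by
    by_contra hcon
    push Not at hcon
    rw [Finset.sum_eq_zero hcon] at h
    exact zero_ne_one h
  obtain ⟨k, hk, hfk⟩ := h1
  have h2 := Finset.add_sum_erase K f hk
  have h3 : ∑ x ∈ K.erase k, f x = 0 := by omega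
  refine ⟨k, hk, by omega, ?_⟩
  intro k' hk' hne
  exact (Finset.sum_eq_zero_iff.1 h3) k' (Finset.mem_erase.2 ⟨hne, hk'⟩)

theorem GND_w {n r : ℕ} (a : Fin r → (Fin n →₀ ℕ)) (w : Fin n → ℕ) (K : Finset (Fin n))
    (hK : K.Nonempty) (hKne : ∀ k ∈ K, (PF a w k).Nonempty)
    (hK1 : ∀ i ∈ FF a w, ∑ k ∈ K, a i k ≤ 1) (ν : Fin n → ℤ) :
    ∃ w' : Fin n → ℤ, ∀ i, (∀ i', ∑ j, w' j * aZ a i j ≤ ∑ j, w' j * aZ a i' j) ↔
      ∃ k ∈ K, i ∈ mn ν (aZ a) (PF a w k) := by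
  classical
  -- stage 1
  obtain ⟨L1, hL1, h1⟩ := lexF (aZ a) (fun j => (w j : ℤ)) (fun j => if j ∈ K then -1 else 0)
  have e1 : ∀ i, ∑ j, (if j ∈ K then (-1 : ℤ) else 0) * aZ a i j = -((∑ k ∈ K, a i k : ℕ) : ℤ) := by
    intro i
    simp only [ite_mul, neg_mul, one_mul, zero_mul]
    rw [Finset.sum_ite_mem, Finset.univ_inter, Finset.sum_neg_distrib]
    push_cast
    rfl
  obtain ⟨k0, hk0⟩ := hK
  have hpf : ∀ {i k}, i ∈ PF a w k ↔ i ∈ FF a w ∧ a i k = 1 := by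
    intro i k
    unfold PF
    rw [mem_filter]
  have hsum1 : ∀ {i k}, k ∈ K → i ∈ PF a w k → ∑ k ∈ K, a i k = 1 := by
    intro i k hk hi
    obtain ⟨hF, hik⟩ := hpf.1 hi
    have h2 := hK1 i hF
    have h3 : a i k ≤ ∑ k ∈ K, a i k := Finset.single_le_sum (f := fun k => a i k) (fun _ _ => Nat.zero_le _) hk
    omega
  have hmin1 : ∀ i, (∀ i', ∑ j, (L1 * (w j : ℤ) + (if j ∈ K then -1 else 0)) * aZ a i j ≤
      ∑ j, (L1 * (w j : ℤ) + (if j ∈ K then -1 else 0)) * aZ a i' j) ↔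
      (i ∈ FF a w ∧ ∑ k ∈ K, a i k = 1) := by
    intro i
    rw [h1 i, ← GND_FF]
    constructor
    · rintro ⟨hF, hm⟩
      refine ⟨hF, ?_⟩
      obtain ⟨i0, hi0⟩ := hKne k0 hk0
      have h2 := hm i0 ((GND_FF a w i0).1 (hpf.1 hi0).1)
      rw [e1, e1, hsum1 hk0 hi0] at h2
      have h3 := hK1 i hF
      push_cast at h2
      have h4 : (1 : ℤ) ≤ ((∑ k ∈ K, a i k : ℕ) : ℤ) := by push_cast; linarith
      have h5 : 1 ≤ ∑ k ∈ K, a i k := by exact_mod_cast h4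
      omega
    · rintro ⟨hF, hs⟩
      refine ⟨hF, fun i' hi' => ?_⟩
      rw [e1 i, e1 i', hs]
      have h3 := hK1 i' ((GND_FF a w i').2 hi')
      have h4 : ((∑ k ∈ K, a i' k : ℕ) : ℤ) ≤ ((1 : ℕ) : ℤ) := Int.ofNat_le.2 h3
      exact neg_le_neg h4
  -- the minima
  have hψ : ∀ k ∈ K, ∃ ψ : ℤ, (∃ i ∈ PF a w k, ∑ j, ν j * aZ a i j = ψ) ∧
      ∀ i ∈ PF a w k, ψ ≤ ∑ j, ν j * aZ a i j := by
    intro k hk
    obtain ⟨i, hi, hm⟩ := Finset.exists_min_image (PF a w k) (fun i => ∑ j, ν j * aZ a i j) (hKne k hk)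
    exact ⟨_, ⟨i, hi, rfl⟩, hm⟩
  choose! ψ hψ1 hψ2 using hψ
  have hmn : ∀ {k i}, k ∈ K → (i ∈ mn ν (aZ a) (PF a w k) ↔
      i ∈ PF a w k ∧ ∑ j, ν j * aZ a i j = ψ k) := by
    intro k i hk
    unfold mn
    rw [mem_filter]
    constructor
    · rintro ⟨hi, hm⟩
      obtain ⟨i0, hi0, h2⟩ := hψ1 k hk
      refine ⟨hi, le_antisymm ?_ (hψ2 k hk i hi)⟩
      rw [← h2]
      exact hm i0 hi0
    · rintro ⟨hi, hm⟩
      exact ⟨hi, fun i' hi' => by rw [hm]; exact hψ2 k hk i' hi'⟩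
  -- stage 2
  obtain ⟨L2, hL2, h2⟩ := lexF (aZ a) (fun j => L1 * (w j : ℤ) + (if j ∈ K then -1 else 0))
    (fun j => ν j - (if j ∈ K then ψ j else 0))
  have e2 : ∀ i, ∑ j, (ν j - (if j ∈ K then ψ j else 0)) * aZ a i j =
      ∑ j, ν j * aZ a i j - ∑ k ∈ K, ψ k * (a i k : ℤ) := by
    intro i
    simp only [sub_mul, ite_mul, zero_mul, Finset.sum_sub_distrib]
    rw [Finset.sum_ite_mem, Finset.univ_inter]
    rfl
  have e3 : ∀ {i k}, k ∈ K → i ∈ PF a w k → ∑ k ∈ K, ψ k * (a i k : ℤ) = ψ k := by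
    intro i k hk hi
    obtain ⟨k1, hk1, h3, h4⟩ := GND_one (fun k => a i k) K (hsum1 hk hi)
    have h5 : k = k1 := by
      by_contra hne
      have h7 : a i k = 0 := h4 k hk hne
      have h6 := (hpf.1 hi).2
      omega
    rw [Finset.sum_eq_single k]
    · rw [(hpf.1 hi).2]; simp
    · intro b hb hbk
      have : a i b = 0 := h4 b hb (by rw [← h5]; exact hbk)
      rw [this]; simp
    · intro h; exact absurd hk h
  refine ⟨fun j => L2 * (L1 * (w j : ℤ) + (if j ∈ K then -1 else 0)) +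
    (ν j - (if j ∈ K then ψ j else 0)), ?_⟩
  intro i
  rw [h2 i, hmin1 i]
  constructor
  · rintro ⟨⟨hF, hs⟩, hm⟩
    obtain ⟨k, hk, hik, -⟩ := GND_one (fun k => a i k) K hs
    have hi : i ∈ PF a w k := hpf.2 ⟨hF, hik⟩
    refine ⟨k, hk, (hmn hk).2 ⟨hi, ?_⟩⟩
    obtain ⟨i0, hi0, h3⟩ := hψ1 k hk
    have h4 := hm i0 ((hmin1 i0).2 ⟨(hpf.1 hi0).1, hsum1 hk hi0⟩)
    rw [e2, e2, e3 hk hi, e3 hk hi0, h3] at h4
    exact le_antisymm (by linarith) (hψ2 k hk i hi)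
  · rintro ⟨k, hk, hi⟩
    obtain ⟨hiP, hiψ⟩ := (hmn hk).1 hi
    refine ⟨⟨(hpf.1 hiP).1, hsum1 hk hiP⟩, ?_⟩
    intro i' hi'
    obtain ⟨hF', hs'⟩ := (hmin1 i').1 hi'
    obtain ⟨k', hk', hik', -⟩ := GND_one (fun k => a i' k) K hs'
    have hi'P : i' ∈ PF a w k' := hpf.2 ⟨hF', hik'⟩
    rw [e2, e2, e3 hk hiP, e3 hk' hi'P, hiψ]
    have := hψ2 k' hk' i' hi'P
    linarith

theorem GND_tz {n r : ℕ} (a : Fin r → (Fin n →₀ ℕ)) (t : Fin n → ℂˣ) (i : Fin r) :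
    tz t (aZ a i) = ∏ j, (t j : ℂ) ^ (a i j) := by
  unfold tz aZ
  rw [Units.coe_prod]
  exact Finset.prod_congr rfl fun j _ => by rw [zpow_natCast, Units.val_pow_eq_pow_val]

/-- NDX -/
theorem ndx {n r : ℕ} (a : Fin r → (Fin n →₀ ℕ)) (κ : Fin r → ℂ) (hnd : Nondeg a κ)
    (w : Fin n → ℕ) (K : Finset (Fin n)) (hKne : ∀ k ∈ K, (PF a w k).Nonempty)
    (hK1 : ∀ i ∈ FF a w, ∑ k ∈ K, a i k ≤ 1) (ν : Fin n → ℤ) (t : Fin n → ℂˣ)
    (h0 : ∀ k : {k // k ∈ K}, ∑ i ∈ mn ν (aZ a) (PF a w k.1), κ i * tz t (aZ a i) = 0) :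
    LinearIndependent ℂ (fun (k : {k // k ∈ K}) (j : Fin n) =>
      ∑ i ∈ mn ν (aZ a) (PF a w k.1), κ i * tz t (aZ a i) * (aZ a i j : ℂ)) := by
  classical
  rw [Fintype.linearIndependent_iff]
  intro μ hμ
  by_contra hcon
  push Not at hcon
  obtain ⟨k0, hk0⟩ := hcon
  obtain ⟨m, hm⟩ : ∃ m : Fin n → ℂ, m = fun k => if h : k ∈ K then μ ⟨k, h⟩ else 0 := ⟨_, rfl⟩
  have hmk : ∀ k : {k // k ∈ K}, m k.1 = μ k := fun k => by
    rw [hm]
    simp only [k.2, dite_true]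
  obtain ⟨K', hK'⟩ : ∃ K' : Finset (Fin n), K' = K.filter (fun k => m k ≠ 0) := ⟨_, rfl⟩
  have hsub : K' ⊆ K := by rw [hK']; exact filter_subset _ _
  have hK'ne : K'.Nonempty := ⟨k0.1, by rw [hK', mem_filter]; exact ⟨k0.2, by rw [hmk]; exact hk0⟩⟩
  have hm0 : ∀ k ∈ K', m k ≠ 0 := fun k hk => by
    rw [hK', mem_filter] at hk
    exact hk.2
  have hm1 : ∀ k ∈ K, k ∉ K' → m k = 0 := fun k hk hk' => by
    by_contra h
    apply hk'
    rw [hK', mem_filter]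
    exact ⟨hk, h⟩
  have hK1' : ∀ i ∈ FF a w, ∑ k ∈ K', a i k ≤ 1 := fun i hi =>
    (Finset.sum_le_sum_of_subset hsub).trans (hK1 i hi)
  obtain ⟨w', hw'⟩ := GND_w a w K' hK'ne (fun k hk => hKne k (hsub hk)) hK1' ν
  obtain ⟨x, hx⟩ : ∃ x : Fin n → ℂ, x = fun j => (t j : ℂ) * (if j ∈ K' then m j else 1) := ⟨_, rfl⟩
  have hx0 : ∀ j, x j ≠ 0 := by
    intro j
    rw [hx]
    simp only
    apply mul_ne_zero (t j).ne_zero
    split_ifs with h
    · exact hm0 j h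
    · exact one_ne_zero
  have hpf : ∀ {i k}, i ∈ PF a w k ↔ i ∈ FF a w ∧ a i k = 1 := by
    intro i k
    unfold PF
    rw [mem_filter]
  have hmnP : ∀ {i k}, i ∈ mn ν (aZ a) (PF a w k) → i ∈ PF a w k := by
    intro i k hi
    unfold mn at hi
    exact (mem_filter.1 hi).1
  have huniq : ∀ {i k}, k ∈ K' → i ∈ PF a w k → ∀ k' ∈ K', k' ≠ k → a i k' = 0 := by
    intro i k hk hi k' hk' hne
    obtain ⟨hF, hik⟩ := hpf.1 hi
    have h1 := hK1' i hF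
    have h2 : a i k + ∑ x ∈ K'.erase k, a i x = ∑ x ∈ K', a i x :=
      Finset.add_sum_erase K' (fun k => a i k) hk
    have h3 : ∑ x ∈ K'.erase k, a i x = 0 := by omega
    exact (Finset.sum_eq_zero_iff.1 h3) k' (Finset.mem_erase.2 ⟨hne, hk'⟩)
  have hprod : ∀ {i k}, k ∈ K' → i ∈ PF a w k → ∏ j, x j ^ (a i j) = tz t (aZ a i) * m k := by
    intro i k hk hi
    rw [GND_tz, hx]
    simp only [mul_pow, Finset.prod_mul_distrib]
    congr 1
    rw [Finset.prod_eq_single k]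
    · rw [(hpf.1 hi).2, if_pos hk, pow_one]
    · intro j _ hjk
      by_cases hj : j ∈ K'
      · rw [huniq hk hi j hj hjk, pow_zero]
      · rw [if_neg hj, one_pow]
    · intro h; exact absurd (mem_univ k) h
  have hS : ∀ G : Fin r → ℂ, (∑ i with ∀ i', ∑ j, w' j * a i j ≤ ∑ j, w' j * a i' j, G i) =
      ∑ k ∈ K', ∑ i ∈ mn ν (aZ a) (PF a w k), G i := by
    intro G
    rw [← Finset.sum_biUnion]
    · apply Finset.sum_congr _ fun _ _ => rfl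
      ext i
      simp only [mem_filter, mem_univ, true_and, mem_biUnion]
      exact hw' i
    · intro k hk k' hk' hne
      rw [Function.onFun, Finset.disjoint_left]
      intro i hi hi'
      have h1 := huniq hk (hmnP hi) k' hk' hne.symm
      have h2 := (hpf.1 (hmnP hi')).2
      omega
  apply hnd w' x hx0
  constructor
  · rw [hS]
    apply Finset.sum_eq_zero
    intro k hk
    have h1 : ∑ i ∈ mn ν (aZ a) (PF a w k), κ i * ∏ j, x j ^ (a i j) =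
        (∑ i ∈ mn ν (aZ a) (PF a w k), κ i * tz t (aZ a i)) * m k := by
      rw [Finset.sum_mul]
      exact Finset.sum_congr rfl fun i hi => by rw [hprod hk (hmnP hi)]; ring
    rw [h1, h0 ⟨k, hsub hk⟩, zero_mul]
  · intro j
    rw [hS]
    have h1 : ∀ k ∈ K', ∑ i ∈ mn ν (aZ a) (PF a w k), κ i * (a i j : ℂ) * ∏ j, x j ^ (a i j) =
        m k * ∑ i ∈ mn ν (aZ a) (PF a w k), κ i * tz t (aZ a i) * (aZ a i j : ℂ) := by
      intro k hk
      rw [Finset.mul_sum]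
      refine Finset.sum_congr rfl fun i hi => ?_
      rw [hprod hk (hmnP hi)]
      have : ((aZ a i j : ℤ) : ℂ) = (a i j : ℂ) := by
        unfold aZ
        push_cast
        rfl
      rw [this]
      ring
    rw [Finset.sum_congr rfl h1]
    have h2 : ∑ k ∈ K', m k * ∑ i ∈ mn ν (aZ a) (PF a w k), κ i * tz t (aZ a i) * (aZ a i j : ℂ) =
        ∑ k ∈ K, m k * ∑ i ∈ mn ν (aZ a) (PF a w k), κ i * tz t (aZ a i) * (aZ a i j : ℂ) := by
      apply Finset.sum_subset hsub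
      intro k hk hk'
      rw [hm1 k hk hk', zero_mul]
    rw [h2, ← Finset.sum_coe_sort K]
    have h3 := congrFun hμ j
    simp only [Finset.sum_apply, Pi.smul_apply, smul_eq_mul, Pi.zero_apply] at h3
    rw [← h3]
    exact Finset.sum_congr rfl fun k _ => by rw [hmk]

end Pool.Agent.H22.T6
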