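import Pool.Agent.H22.T6.GDefs

/-!
# GTA: the coefficients of the level and their small perturbations

Proof.  `θ0 (inl i) = lam i` for `i ∈ FF a w`, `0` otherwise; `θ0 (inr (inl none)) = 1/(2(n+1))`; `θ0 (inr (inl (some j))) = 1/(n+1)` if `w j = 0`, `0` otherwise.  The indices `g` on the face
(`dt (h5 a w) (A5 a M g) = 0`) are: `inl i`, `i ∈ FF a w`; `inr (inl none)`; `inr (inl (some j))`, `w j = 0`; so `θ0 g > 0` exactly on the face.
Coordinates (`A5_inl`, `A5_none`, `A5_some`): `yq θ0 0 = ∑ i ∈ F, lam i`; `yq θ0 1 = 1/(2(n+1)) + #{w_j = 0}/(n+1) ≤ (2n+1)/(2n+2) < 1`; `yq θ0 j.succ.succ = ∑ i ∈ F, lam i (a i j) + (if w j = 0 then M/(n+1) else 0)`.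
For `j ∈ P`: `w j ≠ 0` (`hL.PC`, `CC0`), so the value is `1` (`hL.lP`).  For `j ∉ P` with `∃ i, a i j = 0`: if `w j = 0`: `≥ M/(n+1) > 1`; if `w j ≠ 0`: `j ∈ CC0 a w \ P`, `> 1` (`hL.lC`).
`D (yq θ0 0) - ∑ cZ_j yq θ0 (j+2) = D ∑ lam i (1 - ∑ c_j a_ij) < 1/2` (`cZ_j = D c_j`; `c_j = 0` if `w j = 0`, because `j ∉ P`).
`θ = θ0 + ρ`: `off`: both vanish off the face.  `nn`: `θ0 g + ρ g ≥ 0` if `ε ≤ θ0 g` for all `g` on the face.  `P1`: `yq (θ0 + ρ) k = yq θ0 k + yq ρ k`, `yq ρ k = 0` for `k ∈ sh P`.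
`J1`, `l2`, `sm`: the strict inequalities have a positive margin and `|yq ρ k| ≤ ε * ∑ g |A_g k|`; for `j ∈ P` use `P1`.  Choose `ε` as the minimum of finitely many positive numbers.
-/

set_option autoImplicit false

namespace Pool.Agent.H22.T6

open Finset AddMonoidAlgebra
open Pool.Agent.H56.SMC Pool.Agent.H37.T5 Pool.Agent.H56.T5

theorem GTA_yq {n r : ℕ} (a : Fin r → (Fin n →₀ ℕ)) (M : ℤ) (θ : IX n r → ℚ) (k : Fin (n + 2)) :
    yq a M θ k = ∑ i, θ (Sum.inl i) * (A5 a M (Sum.inl i) k : ℚ) +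
      (θ (Sum.inr (Sum.inl none)) * (A5 a M (Sum.inr (Sum.inl none)) k : ℚ) +
        ∑ j, θ (Sum.inr (Sum.inl (some j))) * (A5 a M (Sum.inr (Sum.inl (some j))) k : ℚ)) := by
  unfold yq
  rw [Fintype.sum_sum_type, Fintype.sum_sum_type, Fintype.sum_option, Finset.univ_eq_empty (α := Fin 0),
    Finset.sum_empty, add_zero]

theorem GTA_yq0 {n r : ℕ} (a : Fin r → (Fin n →₀ ℕ)) (M : ℤ) (θ : IX n r → ℚ) :
    yq a M θ 0 = ∑ i, θ (Sum.inl i) := by
  rw [GTA_yq]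
  have h1 : ∀ i, (A5 a M (Sum.inl i) 0 : ℚ) = 1 := fun i => by
    have : A5 a M (Sum.inl i) 0 = 1 := rfl
    rw [this, Int.cast_one]
  have h2 : (A5 a M (Sum.inr (Sum.inl none)) 0 : ℚ) = 0 := by
    have : A5 a M (Sum.inr (Sum.inl none)) 0 = 0 := rfl
    rw [this, Int.cast_zero]
  have h3 : ∀ j, (A5 a M (Sum.inr (Sum.inl (some j))) 0 : ℚ) = 0 := fun j => by
    have : A5 a M (Sum.inr (Sum.inl (some j))) 0 = 0 := rfl
    rw [this, Int.cast_zero]
  simp only [h1, h2, h3, mul_one, mul_zero, Finset.sum_const_zero, add_zero]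

theorem GTA_yq1 {n r : ℕ} (a : Fin r → (Fin n →₀ ℕ)) (M : ℤ) (θ : IX n r → ℚ) :
    yq a M θ (Fin.succ 0) =
      θ (Sum.inr (Sum.inl none)) + ∑ j, θ (Sum.inr (Sum.inl (some j))) := by
  rw [GTA_yq]
  have h1 : ∀ i, (A5 a M (Sum.inl i) (Fin.succ 0) : ℚ) = 0 := fun i => by
    have : A5 a M (Sum.inl i) (Fin.succ 0) = 0 := rfl
    rw [this, Int.cast_zero]
  have h2 : (A5 a M (Sum.inr (Sum.inl none)) (Fin.succ 0) : ℚ) = 1 := by
    have : A5 a M (Sum.inr (Sum.inl none)) (Fin.succ 0) = 1 := rfl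
    rw [this, Int.cast_one]
  have h3 : ∀ j, (A5 a M (Sum.inr (Sum.inl (some j))) (Fin.succ 0) : ℚ) = 1 := fun j => by
    have : A5 a M (Sum.inr (Sum.inl (some j))) (Fin.succ 0) = 1 := rfl
    rw [this, Int.cast_one]
  simp only [h1, h2, h3, mul_one, mul_zero, Finset.sum_const_zero, zero_add]

theorem GTA_yqs {n r : ℕ} (a : Fin r → (Fin n →₀ ℕ)) (M : ℤ) (θ : IX n r → ℚ) (j : Fin n) :
    yq a M θ j.succ.succ =
      ∑ i, θ (Sum.inl i) * (a i j : ℚ) + θ (Sum.inr (Sum.inl (some j))) * (M : ℚ) := by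
  rw [GTA_yq]
  have h1 : ∀ i, (A5 a M (Sum.inl i) j.succ.succ : ℚ) = (a i j : ℚ) := fun i => by
    have : A5 a M (Sum.inl i) j.succ.succ = (a i j : ℤ) := rfl
    rw [this, Int.cast_natCast]
  have h2 : (A5 a M (Sum.inr (Sum.inl none)) j.succ.succ : ℚ) = 0 := by
    have : A5 a M (Sum.inr (Sum.inl none)) j.succ.succ = 0 := rfl
    rw [this, Int.cast_zero]
  have h3 : ∀ j', (A5 a M (Sum.inr (Sum.inl (some j'))) j.succ.succ : ℚ) =
      if j' = j then (M : ℚ) else 0 := fun j' => by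
    have h4 : A5 a M (Sum.inr (Sum.inl (some j'))) j.succ.succ = (M • ev j' : Lat n) j := rfl
    rw [h4, Pi.smul_apply, smul_eq_mul]
    unfold ev
    by_cases h : j' = j
    · subst h
      rw [Pi.single_eq_same, if_pos rfl, mul_one]
    · rw [Pi.single_eq_of_ne (fun h5 => h h5.symm), if_neg h, mul_zero, Int.cast_zero]
  simp only [h1, h2, h3, mul_zero, zero_add, mul_ite]
  rw [Finset.sum_ite_eq' Finset.univ j, if_pos (Finset.mem_univ j)]

theorem GTA_add {n r : ℕ} (a : Fin r → (Fin n →₀ ℕ)) (M : ℤ) (θ ρ : IX n r → ℚ)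
    (k : Fin (n + 2)) : yq a M (fun g => θ g + ρ g) k = yq a M θ k + yq a M ρ k := by
  unfold yq
  rw [← Finset.sum_add_distrib]
  exact Finset.sum_congr rfl fun g _ => by ring

theorem GTA_abs {n r : ℕ} (a : Fin r → (Fin n →₀ ℕ)) (M : ℤ) {ρ : IX n r → ℚ} {ε : ℚ}
    (h : ∀ g, |ρ g| < ε) (k : Fin (n + 2)) :
    |yq a M ρ k| ≤ ε * ∑ g : IX n r, ∑ k, |(A5 a M g k : ℚ)| := by
  unfold yq
  refine (Finset.abs_sum_le_sum_abs _ _).trans ?_
  rw [Finset.mul_sum]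
  refine Finset.sum_le_sum fun g _ => ?_
  rw [abs_mul]
  have h1 : |(A5 a M g k : ℚ)| ≤ ∑ k, |(A5 a M g k : ℚ)| :=
    Finset.single_le_sum (f := fun k => |(A5 a M g k : ℚ)|) (fun k _ => abs_nonneg _)
      (Finset.mem_univ k)
  exact mul_le_mul (h g).le h1 (abs_nonneg _) ((abs_nonneg _).trans (h g).le)

theorem GTA_inl {n r : ℕ} (a : Fin r → (Fin n →₀ ℕ)) (w : Fin n → ℕ) (M : ℤ) (i : Fin r) :
    dt (h5 a w) (A5 a M (Sum.inl i)) = 0 ↔ i ∈ FF a w := by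
  have h1 : dt (h5 a w) (A5 a M (Sum.inl i)) =
      -(H22.wmin a w : ℤ) * 1 + 0 * 0 + ∑ j, (w j : ℤ) * (a i j : ℤ) := dt_vec _ _ _ _ _ _
  rw [h1]
  unfold FF
  rw [Finset.mem_filter]
  have h2 : ((∑ j, a i j * w j : ℕ) : ℤ) = ∑ j, (w j : ℤ) * (a i j : ℤ) := by
    push_cast
    exact Finset.sum_congr rfl fun j _ => mul_comm _ _
  rw [← h2]
  constructor
  · intro h
    refine ⟨Finset.mem_univ i, ?_⟩
    have h3 : ((∑ j, a i j * w j : ℕ) : ℤ) = (H22.wmin a w : ℤ) := by linarith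
    exact_mod_cast h3
  · rintro ⟨-, h⟩
    rw [h]
    ring

theorem GTA_none {n r : ℕ} (a : Fin r → (Fin n →₀ ℕ)) (w : Fin n → ℕ) (M : ℤ) :
    dt (h5 a w) (A5 a M (Sum.inr (Sum.inl none))) = 0 := by
  have h1 : dt (h5 a w) (A5 a M (Sum.inr (Sum.inl none))) =
      -(H22.wmin a w : ℤ) * 0 + 0 * 1 + ∑ j, (w j : ℤ) * (0 : Fin n → ℤ) j := dt_vec _ _ _ _ _ _
  rw [h1]
  simp

theorem GTA_some {n r : ℕ} (a : Fin r → (Fin n →₀ ℕ)) (w : Fin n → ℕ) {M : ℤ} (hM : 0 < M)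
    (j : Fin n) : dt (h5 a w) (A5 a M (Sum.inr (Sum.inl (some j)))) = 0 ↔ w j = 0 := by
  have h1 : dt (h5 a w) (A5 a M (Sum.inr (Sum.inl (some j)))) =
      -(H22.wmin a w : ℤ) * 0 + 0 * 1 + ∑ j', (w j' : ℤ) * (M • ev j : Fin n → ℤ) j' :=
    dt_vec _ _ _ _ _ _
  have h2 : ∑ j', (w j' : ℤ) * (M • ev j : Fin n → ℤ) j' = (w j : ℤ) * M := by
    rw [Finset.sum_eq_single j]
    · rw [Pi.smul_apply, smul_eq_mul]
      unfold ev
      rw [Pi.single_eq_same, mul_one]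
    · intro j' _ hne
      rw [Pi.smul_apply, smul_eq_mul]
      unfold ev
      rw [Pi.single_eq_of_ne hne, mul_zero, mul_zero]
    · intro h
      exact absurd (Finset.mem_univ j) h
  rw [h1, h2, mul_zero, zero_mul, zero_add, zero_add, mul_eq_zero]
  constructor
  · rintro (h | h)
    · exact_mod_cast h
    · omega
  · intro h
    left
    exact_mod_cast h

open Classical in
/-- the coefficients `θ0` -/
noncomputable def GTA_t {n r : ℕ} (a : Fin r → (Fin n →₀ ℕ)) (w : Fin n → ℕ) (lam : Fin r → ℚ) :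
    IX n r → ℚ
  | Sum.inl i => if i ∈ FF a w then lam i else 0
  | Sum.inr (Sum.inl none) => 1 / (2 * ((n : ℚ) + 1))
  | Sum.inr (Sum.inl (some j)) => if w j = 0 then 1 / ((n : ℚ) + 1) else 0
  | Sum.inr (Sum.inr _) => 0

theorem GTA_t_off {n r : ℕ} (a : Fin r → (Fin n →₀ ℕ)) (w : Fin n → ℕ) (lam : Fin r → ℚ) {M : ℤ}
    (hM : 0 < M) (g : IX n r) (hg : dt (h5 a w) (A5 a M g) ≠ 0) : GTA_t a w lam g = 0 := by
  rcases g with i | (_ | j) | x
  · have h1 : i ∉ FF a w := fun h => hg ((GTA_inl a w M i).2 h)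
    exact if_neg h1
  · exact absurd (GTA_none a w M) hg
  · have h1 : w j ≠ 0 := fun h => hg ((GTA_some a w hM j).2 h)
    exact if_neg h1
  · exact x.elim0

theorem GTA_t_pos {n r : ℕ} (a : Fin r → (Fin n →₀ ℕ)) (w : Fin n → ℕ) (lam : Fin r → ℚ) {M : ℤ}
    (hM : 0 < M) (hl : ∀ i ∈ FF a w, 0 < lam i) (g : IX n r)
    (hg : dt (h5 a w) (A5 a M g) = 0) : 0 < GTA_t a w lam g := by
  rcases g with i | (_ | j) | x
  · have h1 : i ∈ FF a w := (GTA_inl a w M i).1 hg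
    have h2 : GTA_t a w lam (Sum.inl i) = lam i := if_pos h1
    rw [h2]
    exact hl i h1
  · show 0 < 1 / (2 * ((n : ℚ) + 1))
    positivity
  · have h1 : w j = 0 := (GTA_some a w hM j).1 hg
    have h2 : GTA_t a w lam (Sum.inr (Sum.inl (some j))) = 1 / ((n : ℚ) + 1) := if_pos h1
    rw [h2]
    positivity
  · exact x.elim0

open Topology in
theorem GTA_ev {B m : ℚ} (hm : 0 < m) : ∀ᶠ ε in 𝓝[>] (0 : ℚ), ε * B < m := by
  have h1 : Filter.Tendsto (fun ε : ℚ => ε * B) (𝓝 0) (𝓝 (0 * B)) :=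
    (continuous_id.mul continuous_const).tendsto 0
  rw [zero_mul] at h1
  exact (h1.mono_left nhdsWithin_le_nhds).eventually_lt_const hm

open Topology in
/-- THETA -/
theorem theta {n r : ℕ} (a : Fin r → (Fin n →₀ ℕ)) (w : Fin n → ℕ) (M : ℤ)
    (hM : (n : ℤ) + 2 ≤ M) (P : Finset (Fin n)) (c : Fin n → ℚ) (lam : Fin r → ℚ)
    (hL : LPD (fun i j => a i j) (FF a w) (CC0 a w) P c lam) (D : ℤ) (hD : 0 < D)
    (cZ : Fin n → ℤ) (hcZ : ∀ j, (cZ j : ℚ) = D * c j)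
    (hsm : ∑ i ∈ FF a w, lam i * (1 - ∑ j, c j * (a i j : ℚ)) < 1 / (2 * D)) :
    ∃ (θ0 : IX n r → ℚ) (ε : ℚ), 0 < ε ∧ ∀ ρ : IX n r → ℚ, (∀ g, |ρ g| < ε) →
      (∀ g, dt (h5 a w) (A5 a M g) ≠ 0 → ρ g = 0) → (∀ k ∈ sh P, yq a M ρ k = 0) →
      TH a w M P D cZ (fun g => θ0 g + ρ g) := by
  classical
  have hM0 : 0 < M := by omega
  have hMq : (n : ℚ) + 2 ≤ (M : ℚ) := by exact_mod_cast hM
  have hn : (0 : ℚ) < (n : ℚ) + 1 := by positivity
  have hDq : (0 : ℚ) < (D : ℚ) := by exact_mod_cast hD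
  obtain ⟨t, ht⟩ : ∃ t : IX n r → ℚ, t = GTA_t a w lam := ⟨_, rfl⟩
  have ti : ∀ i, t (Sum.inl i) = if i ∈ FF a w then lam i else 0 := fun i => by rw [ht]; rfl
  have tn : t (Sum.inr (Sum.inl none)) = 1 / (2 * ((n : ℚ) + 1)) := by rw [ht]; rfl
  have ts : ∀ j, t (Sum.inr (Sum.inl (some j))) = if w j = 0 then 1 / ((n : ℚ) + 1) else 0 :=
    fun j => by rw [ht]; rfl
  have hPw : ∀ j ∈ P, w j ≠ 0 := by
    intro j hj
    have h1 := hL.PC hj
    unfold CC0 at h1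
    exact (Finset.mem_filter.1 h1).2.1
  -- coordinates
  have y0 : yq a M t 0 = ∑ i ∈ FF a w, lam i := by
    rw [GTA_yq0]
    simp only [ti]
    rw [Finset.sum_ite_mem, Finset.univ_inter]
  have y1 : yq a M t (Fin.succ 0) < 1 := by
    rw [GTA_yq1, tn]
    have h1 : ∑ j, t (Sum.inr (Sum.inl (some j))) ≤ ∑ _j : Fin n, 1 / ((n : ℚ) + 1) := by
      refine Finset.sum_le_sum fun j _ => ?_
      rw [ts]
      split_ifs
      · exact le_rfl
      · positivity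
    have h2 : ∑ _j : Fin n, 1 / ((n : ℚ) + 1) = (n : ℚ) / ((n : ℚ) + 1) := by
      rw [Finset.sum_const, Finset.card_univ, Fintype.card_fin, nsmul_eq_mul]
      ring
    rw [h2] at h1
    have h3 : 1 / (2 * ((n : ℚ) + 1)) + (n : ℚ) / ((n : ℚ) + 1) < 1 := by
      have h4 : 1 / (2 * ((n : ℚ) + 1)) + (n : ℚ) / ((n : ℚ) + 1) =
          1 - 1 / (2 * ((n : ℚ) + 1)) := by
        field_simp
        ring
      have h5 : 0 < 1 / (2 * ((n : ℚ) + 1)) := by positivity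
      linarith
    linarith
  have ys : ∀ j, yq a M t j.succ.succ =
      ∑ i ∈ FF a w, lam i * (a i j : ℚ) + (if w j = 0 then 1 / ((n : ℚ) + 1) else 0) * (M : ℚ) := by
    intro j
    rw [GTA_yqs, ts]
    congr 1
    simp only [ti, ite_mul, zero_mul]
    rw [Finset.sum_ite_mem, Finset.univ_inter]
  have yP : ∀ j ∈ P, yq a M t j.succ.succ = 1 := by
    intro j hj
    rw [ys, if_neg (hPw j hj), zero_mul, add_zero]
    exact hL.lP j hj
  have yJ : ∀ j, (∃ i, a i j = 0) → j ∉ P → 1 < yq a M t j.succ.succ := by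
    intro j hj hjP
    rw [ys]
    by_cases hw : w j = 0
    · rw [if_pos hw]
      have h1 : 0 ≤ ∑ i ∈ FF a w, lam i * (a i j : ℚ) :=
        Finset.sum_nonneg fun i hi => mul_nonneg (hL.l0 i hi).le (Nat.cast_nonneg _)
      have h2 : 1 < 1 / ((n : ℚ) + 1) * (M : ℚ) := by
        rw [div_mul_eq_mul_div, one_mul, one_lt_div hn]
        linarith
      linarith
    · rw [if_neg hw, zero_mul, add_zero]
      refine hL.lC j ?_ hjP
      unfold CC0
      exact Finset.mem_filter.2 ⟨Finset.mem_univ j, hw, hj⟩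
  have ysm : (D : ℚ) * yq a M t 0 - ∑ j, (cZ j : ℚ) * yq a M t j.succ.succ < 1 := by
    have h1 : ∀ j, (cZ j : ℚ) * yq a M t j.succ.succ =
        D * (c j * ∑ i ∈ FF a w, lam i * (a i j : ℚ)) := by
      intro j
      rw [hcZ, ys]
      by_cases hw : w j = 0
      · have h2 : c j = 0 := by
          by_contra h3
          exact hPw j ((hL.cP j).1 h3) hw
        rw [h2]
        ring
      · rw [if_neg hw]
        ring
    have h2 : ∑ j, (cZ j : ℚ) * yq a M t j.succ.succ =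
        D * ∑ i ∈ FF a w, lam i * ∑ j, c j * (a i j : ℚ) := by
      rw [Finset.sum_congr rfl fun j _ => h1 j, ← Finset.mul_sum]
      congr 1
      have h3 : ∀ j, c j * ∑ i ∈ FF a w, lam i * (a i j : ℚ) =
          ∑ i ∈ FF a w, lam i * (c j * (a i j : ℚ)) := by
        intro j
        rw [Finset.mul_sum]
        exact Finset.sum_congr rfl fun i _ => by ring
      rw [Finset.sum_congr rfl fun j _ => h3 j, Finset.sum_comm]
      exact Finset.sum_congr rfl fun i _ => by rw [Finset.mul_sum]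
    have h3 : (D : ℚ) * yq a M t 0 - ∑ j, (cZ j : ℚ) * yq a M t j.succ.succ =
        D * ∑ i ∈ FF a w, lam i * (1 - ∑ j, c j * (a i j : ℚ)) := by
      rw [h2, y0, ← mul_sub, ← Finset.sum_sub_distrib]
      congr 1
      exact Finset.sum_congr rfl fun i _ => by ring
    rw [h3]
    have h4 := mul_lt_mul_of_pos_left hsm hDq
    have h5 : (D : ℚ) * (1 / (2 * D)) = 1 / 2 := by
      field_simp
    rw [h5] at h4
    linarith
  -- choice of ε
  obtain ⟨B, hB⟩ : ∃ B : ℚ, B = ∑ g : IX n r, ∑ k, |(A5 a M g k : ℚ)| := ⟨_, rfl⟩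
  obtain ⟨B', hB'⟩ : ∃ B' : ℚ, B' = ((D : ℚ) + ∑ j, |(cZ j : ℚ)|) * B := ⟨_, rfl⟩
  have e1 : ∀ᶠ ε in 𝓝[>] (0 : ℚ), ∀ g : IX n r, dt (h5 a w) (A5 a M g) = 0 → ε * 1 < t g := by
    rw [Filter.eventually_all]
    intro g
    by_cases hg : dt (h5 a w) (A5 a M g) = 0
    · have h1 : 0 < t g := by
        rw [ht]
        exact GTA_t_pos a w lam hM0 hL.l0 g hg
      exact (GTA_ev (B := 1) h1).mono fun ε hε _ => hε
    · exact Filter.Eventually.of_forall fun ε h => absurd h hg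
  have e2 : ∀ᶠ ε in 𝓝[>] (0 : ℚ), ∀ j : Fin n, (∃ i, a i j = 0) → j ∉ P →
      ε * B < yq a M t j.succ.succ - 1 := by
    rw [Filter.eventually_all]
    intro j
    by_cases hj : (∃ i, a i j = 0) ∧ j ∉ P
    · have h1 : 0 < yq a M t j.succ.succ - 1 := by
        have := yJ j hj.1 hj.2
        linarith
      exact (GTA_ev (B := B) h1).mono fun ε hε _ _ => hε
    · exact Filter.Eventually.of_forall fun ε h h' => absurd ⟨h, h'⟩ hj
  have e3 : ∀ᶠ ε in 𝓝[>] (0 : ℚ), ε * B < 1 - yq a M t (Fin.succ 0) :=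
    GTA_ev (by linarith)
  have e4 : ∀ᶠ ε in 𝓝[>] (0 : ℚ), ε * B' <
      1 - ((D : ℚ) * yq a M t 0 - ∑ j, (cZ j : ℚ) * yq a M t j.succ.succ) :=
    GTA_ev (by linarith)
  have e5 : ∀ᶠ ε in 𝓝[>] (0 : ℚ), 0 < ε := self_mem_nhdsWithin
  obtain ⟨ε, f1, f2, f3, f4, f5⟩ := (e1.and (e2.and (e3.and (e4.and e5)))).exists
  refine ⟨t, ε, f5, fun ρ hρ hoff hP0 => ?_⟩
  have hab : ∀ k, |yq a M ρ k| ≤ ε * B := fun k => by
    rw [hB]
    exact GTA_abs a M hρ k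
  have hP1 : ∀ k ∈ sh P, yq a M (fun g => t g + ρ g) k = 1 := by
    intro k hk
    obtain ⟨j, hj, rfl⟩ := mem_sh.1 hk
    rw [GTA_add, hP0 _ hk, add_zero]
    exact yP j hj
  refine ⟨?_, ?_, hP1, ?_, ?_, ?_⟩
  · intro g hg
    rw [hoff g hg, ht, GTA_t_off a w lam hM0 g hg, add_zero]
  · intro g
    by_cases hg : dt (h5 a w) (A5 a M g) = 0
    · have h1 := f1 g hg
      have h2 := (abs_lt.1 (hρ g)).1
      linarith
    · rw [hoff g hg, ht, GTA_t_off a w lam hM0 g hg, add_zero]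
  · intro j hj
    by_cases hjP : j ∈ P
    · exact (hP1 _ (mem_sh.2 ⟨j, hjP, rfl⟩)).ge
    · rw [GTA_add]
      have h1 := f2 j hj hjP
      have h2 := (abs_le.1 (hab j.succ.succ)).1
      linarith
  · rw [GTA_add]
    have h2 := (abs_le.1 (hab (Fin.succ 0))).2
    linarith
  · simp only [GTA_add]
    have h1 : ∑ j, (cZ j : ℚ) * (yq a M t j.succ.succ + yq a M ρ j.succ.succ) =
        ∑ j, (cZ j : ℚ) * yq a M t j.succ.succ + ∑ j, (cZ j : ℚ) * yq a M ρ j.succ.succ := by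
      rw [← Finset.sum_add_distrib]
      exact Finset.sum_congr rfl fun j _ => by ring
    have h2 : |∑ j, (cZ j : ℚ) * yq a M ρ j.succ.succ| ≤ (∑ j, |(cZ j : ℚ)|) * (ε * B) := by
      refine (Finset.abs_sum_le_sum_abs _ _).trans ?_
      rw [Finset.sum_mul]
      refine Finset.sum_le_sum fun j _ => ?_
      rw [abs_mul]
      exact mul_le_mul_of_nonneg_left (hab _) (abs_nonneg _)
    have h3 : (D : ℚ) * yq a M ρ 0 ≤ D * (ε * B) :=
      mul_le_mul_of_nonneg_left (abs_le.1 (hab 0)).2 hDq.le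
    have h4 := (abs_le.1 h2).1
    have h5 : ε * B' = D * (ε * B) + (∑ j, |(cZ j : ℚ)|) * (ε * B) := by
      rw [hB']
      ring
    rw [h1]
    linarith

end Pool.Agent.H22.T6
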