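import Pool.Agent.H22.T6.Defs

/-!
# GUP: the property (U')

Proof.  Suppose the identity holds on `FF a w`.  For `i ∈ FF a w`: `∑ k ∈ K2, a i k = ∑ k ∈ K2, c k * a i k ≤ ∑ j, c j * a i j ≤ 1`.
CASE A: some `j k0`, `k0 ∈ K2`, is not in `CC0 a w`; since `w (j k0) ≠ 0`, `a i (j k0) ≠ 0` for all `i`.  For `i ∈ FF a w`: `1 ≤ a i (j k0) ≤ ∑ k ∈ K2, a i (j k) ≤ 1`, so `a i (j k0) = 1`.  The linear functional
`y ↦ y (inr (j k0)) - y (inl ())` vanishes on `H22.rowR a i`, `i ∈ FF a w`, and on `eR j'`, `w j' = 0` (`j' ≠ j k0`), so on `p0R a w` (`hcrit`, `Submodule.span_induction` or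
`Submodule.span_le` into the kernel): `1 - |w|/N = 0`, so `wsum w = wmin a w`, contradicting `hs`.
CASE B: all `j k ∈ CC0 a w`.  `y_j = ∑ i ∈ FF, lam i * a i j` is `1` on `P`, `> 1` on `CC0 \ P`.  Summing the identity with the weights `lam i`: `∑ k ∈ K2, y_{j k} = ∑ k ∈ K2, y_k = |K2|`
(`K2 ⊆ P`), and all `y_{j k} ≥ 1`, so all are `1` and `j k ∈ P`, `c (j k) > 0`.  Let `τ > 0` with `τ ≤ c (j k)` for all `k ∈ K2` (minimum over the nonempty finite set), `c' = c + τ 1_{K2} - τ 1_{j(K2)}` (image of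
`K2`; disjoint from `K2`; `j` injective on `K2`).  `c' ≥ 0`, and for `i ∈ FF a w`: `∑ c'_j a_ij = ∑ c_j a_ij + τ ∑_{K2} a_ik - τ ∑_{K2} a_{i,jk} = ∑ c_j a_ij ≤ 1`.  Take `k ∈ K2`; `y_k = 1` so some
`i ∈ FF a w` has `a i k ≥ 1`; `1 ≥ c'_k a_ik ≥ 1 + τ`, a contradiction.
-/

set_option autoImplicit false

namespace Pool.Agent.H22.T6

open Finset AddMonoidAlgebra
open Pool.Agent.H56.SMC Pool.Agent.H37.T5 Pool.Agent.H56.T5

/-- UPRIME -/
theorem uprime {n r : ℕ} (a : Fin r → (Fin n →₀ ℕ)) (w : Fin n → ℕ) (hN : 0 < H22.wmin a w)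
    (hs : H22.wsum w ≠ H22.wmin a w) (hcrit : CritP a w) (P : Finset (Fin n)) (c : Fin n → ℚ)
    (lam : Fin r → ℚ) (hL : LPD (fun i j => a i j) (FF a w) (CC0 a w) P c lam)
    (K2 : Finset (Fin n)) (hK2 : ∀ k ∈ K2, k ∈ P ∧ c k = 1) (hne : K2.Nonempty)
    (j : Fin n → Fin n) (hinj : Set.InjOn j (K2 : Set (Fin n)))
    (hj : ∀ k ∈ K2, j k ∉ K2 ∧ w (j k) ≠ 0) :
    ¬ ∀ i ∈ FF a w, ∑ k ∈ K2, a i k = ∑ k ∈ K2, a i (j k) := by
  classical
  intro hid
  have hck : ∀ i, ∑ k ∈ K2, (a i k : ℚ) = ∑ k ∈ K2, c k * (a i k : ℚ) := fun i =>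
    sum_congr rfl fun k hk => by rw [(hK2 k hk).2, one_mul]
  have hle : ∀ i ∈ FF a w, ∑ k ∈ K2, (a i k : ℚ) ≤ 1 := by
    intro i hi
    rw [hck i]
    refine le_trans ?_ (hL.c1 i hi)
    exact sum_le_univ_sum_of_nonneg (fun j => mul_nonneg (hL.c0 j) (Nat.cast_nonneg _))
  have hidQ : ∀ i ∈ FF a w, ∑ k ∈ K2, (a i k : ℚ) = ∑ k ∈ K2, (a i (j k) : ℚ) := by
    intro i hi
    exact_mod_cast hid i hi
  by_cases hA : ∃ k0 ∈ K2, j k0 ∉ CC0 a w
  · obtain ⟨k0, hk0, hnot⟩ := hA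
    have hne0 : ∀ i, a i (j k0) ≠ 0 := by
      intro i h0
      apply hnot
      simp only [CC0, mem_filter, mem_univ, true_and]
      exact ⟨(hj k0 hk0).2, i, h0⟩
    have hone : ∀ i ∈ FF a w, (a i (j k0) : ℝ) = 1 := by
      intro i hi
      have h1 := hle i hi
      rw [hidQ i hi] at h1
      have h2 : (a i (j k0) : ℚ) ≤ ∑ k ∈ K2, (a i (j k) : ℚ) :=
        single_le_sum (f := fun k => (a i (j k) : ℚ)) (fun k _ => Nat.cast_nonneg _) hk0
      have h3 : (a i (j k0) : ℚ) ≤ 1 := h2.trans h1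
      have h4 : a i (j k0) ≤ 1 := by exact_mod_cast h3
      have h5 : a i (j k0) = 1 := by
        have := Nat.pos_of_ne_zero (hne0 i)
        omega
      rw [h5, Nat.cast_one]
    have hker : Submodule.span ℝ
        ({y | ∃ i ∈ FF a w, y = H22.rowR a i} ∪
          {y | ∃ j, w j = 0 ∧ y = (eR j : Unit ⊕ Fin n → ℝ)}) ≤
        LinearMap.ker ((LinearMap.proj (Sum.inr (j k0)) : (Unit ⊕ Fin n → ℝ) →ₗ[ℝ] ℝ) -
          LinearMap.proj (Sum.inl ())) := by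
      rw [Submodule.span_le]
      rintro y (⟨i, hi, rfl⟩ | ⟨j', hj', rfl⟩)
      · simp only [SetLike.mem_coe, LinearMap.mem_ker, LinearMap.sub_apply, LinearMap.proj_apply,
          H22.rowR, Sum.elim_inr, Sum.elim_inl]
        rw [hone i hi, sub_self]
      · have hjj : j k0 ≠ j' := by
          rintro rfl
          exact (hj k0 hk0).2 hj'
        simp only [SetLike.mem_coe, LinearMap.mem_ker, LinearMap.sub_apply, LinearMap.proj_apply,
          eR, Sum.elim_inr, Sum.elim_inl]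
        rw [Pi.single_eq_of_ne hjj, sub_zero]
    have h1 := hker hcrit
    simp only [LinearMap.mem_ker, LinearMap.sub_apply, LinearMap.proj_apply, p0R, Sum.elim_inr,
      Sum.elim_inl] at h1
    have hN' : (H22.wmin a w : ℝ) ≠ 0 := by
      exact_mod_cast hN.ne'
    have h2 : (H22.wsum w : ℝ) / (H22.wmin a w : ℝ) = 1 := by linarith
    rw [div_eq_one_iff_eq hN'] at h2
    exact hs (by exact_mod_cast h2)
  · push Not at hA
    have hy1 : ∀ k ∈ K2, ∑ i ∈ FF a w, lam i * (a i k : ℚ) = 1 := fun k hk =>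
      hL.lP k (hK2 k hk).1
    have hy2 : ∀ k ∈ K2, 1 ≤ ∑ i ∈ FF a w, lam i * (a i (j k) : ℚ) := by
      intro k hk
      by_cases hP : j k ∈ P
      · exact (hL.lP _ hP).ge
      · exact (hL.lC _ (hA k hk) hP).le
    have hsum : ∑ k ∈ K2, ∑ i ∈ FF a w, lam i * (a i (j k) : ℚ) =
        ∑ k ∈ K2, ∑ i ∈ FF a w, lam i * (a i k : ℚ) := by
      rw [sum_comm, sum_comm (s := K2)]
      refine sum_congr rfl fun i hi => ?_
      rw [← mul_sum, ← mul_sum, hidQ i hi]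
    have hz : ∑ k ∈ K2, (∑ i ∈ FF a w, lam i * (a i (j k) : ℚ) - 1) = 0 := by
      rw [sum_sub_distrib, hsum, ← sum_sub_distrib]
      exact sum_eq_zero fun k hk => by rw [hy1 k hk, sub_self]
    have hz2 := (sum_eq_zero_iff_of_nonneg (fun k hk => sub_nonneg.2 (hy2 k hk))).1 hz
    have hjP : ∀ k ∈ K2, j k ∈ P := by
      intro k hk
      by_contra hP
      have h1 := hL.lC _ (hA k hk) hP
      have h2 := hz2 k hk
      linarith
    obtain ⟨k2, hk2⟩ := hne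
    have hex : ∃ i ∈ FF a w, a i k2 ≠ 0 := by
      by_contra hno
      push Not at hno
      have h1 := hy1 k2 hk2
      rw [sum_eq_zero fun i hi => by rw [hno i hi, Nat.cast_zero, mul_zero]] at h1
      exact zero_ne_one h1
    obtain ⟨i, hi, hik⟩ := hex
    have hge : (1 : ℚ) ≤ ∑ k ∈ K2, (a i k : ℚ) := by
      have h1 : (a i k2 : ℚ) ≤ ∑ k ∈ K2, (a i k : ℚ) :=
        single_le_sum (f := fun k => (a i k : ℚ)) (fun k _ => Nat.cast_nonneg _) hk2
      have h2 : (1 : ℚ) ≤ (a i k2 : ℚ) := by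
        exact_mod_cast Nat.one_le_iff_ne_zero.2 hik
      exact h2.trans h1
    have hex3 : ∃ k3 ∈ K2, a i (j k3) ≠ 0 := by
      by_contra hno
      push Not at hno
      rw [hidQ i hi, sum_eq_zero fun k hk => by rw [hno k hk, Nat.cast_zero]] at hge
      linarith
    obtain ⟨k3, hk3, hik3⟩ := hex3
    have h1 := hL.c1 i hi
    have h2 : ∑ l ∈ insert (j k3) K2, c l * (a i l : ℚ) ≤ ∑ l, c l * (a i l : ℚ) :=
      sum_le_univ_sum_of_nonneg (fun j => mul_nonneg (hL.c0 j) (Nat.cast_nonneg _))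
    rw [sum_insert (hj k3 hk3).1, ← hck i] at h2
    have h3 : 0 < c (j k3) := lt_of_le_of_ne (hL.c0 _) (Ne.symm ((hL.cP _).2 (hjP k3 hk3)))
    have h4 : 0 < c (j k3) * (a i (j k3) : ℚ) := by
      apply mul_pos h3
      exact_mod_cast Nat.pos_of_ne_zero hik3
    linarith

end Pool.Agent.H22.T6
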