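import Pool.Agent.H22.T6.Defs
import Pool.Agent.H46.T6.Lpf

/-!
# LP: the interface of the linear programming lemma (block of helper46)

`F` a nonempty finite set of vectors `A_i ∈ ℕ^n`, `C` a set of coordinates such that every
`j ∈ C` is nonzero on some `A_i`, `i ∈ F`.
-/

set_option autoImplicit false

namespace Pool.Agent.H22.T6

open Finset AddMonoidAlgebra
open Pool.Agent.H56.SMC Pool.Agent.H37.T5 Pool.Agent.H56.T5

/-- LP -/
theorem lp {n r : ℕ} (A : Fin r → Fin n → ℕ) (F : Finset (Fin r)) (hF : F.Nonempty)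
    (C : Finset (Fin n)) (hC : ∀ j ∈ C, ∃ i ∈ F, A i j ≠ 0) :
    ∃ (P : Finset (Fin n)) (c : Fin n → ℚ), ∀ η : ℚ, 0 < η → ∃ lam : Fin r → ℚ,
      LPD A F C P c lam ∧ ∑ i ∈ F, lam i * (1 - ∑ j, c j * (A i j : ℚ)) < η := by
  classical
  obtain ⟨P0, c0, hc0, hcP, hc1, hη⟩ := Pool.Agent.H46.T6.lpf
    (I := {i // i ∈ F}) (J := {j // j ∈ C}) (fun i j => (A i.1 j.1 : ℚ))
    (fun i j => Nat.cast_nonneg _) (by
      rintro ⟨j, hj⟩
      obtain ⟨i, hi, h⟩ := hC j hj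
      exact ⟨⟨i, hi⟩, by exact_mod_cast h⟩)
  let c : Fin n → ℚ := fun j => if h : j ∈ C then c0 ⟨j, h⟩ else 0
  have hcC : ∀ j : {j // j ∈ C}, c j.1 = c0 j := fun j => by
    simp only [c]; rw [dif_pos j.2]
  have hcn : ∀ j, j ∉ C → c j = 0 := fun j hj => by simp only [c]; rw [dif_neg hj]
  have hsum : ∀ i : Fin r, ∑ j, c j * (A i j : ℚ) = ∑ j : {j // j ∈ C}, (A i j.1 : ℚ) * c0 j := by
    intro i
    rw [← Finset.sum_subset (Finset.subset_univ C) (fun j _ hj => by rw [hcn j hj, zero_mul]),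
      ← Finset.sum_coe_sort C]
    exact Finset.sum_congr rfl fun j _ => by rw [hcC j, mul_comm]
  refine ⟨P0.map (Function.Embedding.subtype _), c, ?_⟩
  have hmemP : ∀ j (hj : j ∈ C), j ∈ P0.map (Function.Embedding.subtype (· ∈ C)) ↔
      (⟨j, hj⟩ : {j // j ∈ C}) ∈ P0 := by
    intro j hj
    constructor
    · intro h
      obtain ⟨x, hx, hxj⟩ := Finset.mem_map.1 h
      have : x = ⟨j, hj⟩ := Subtype.ext hxj
      rwa [← this]
    · intro h
      exact Finset.mem_map.2 ⟨⟨j, hj⟩, h, rfl⟩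
  have hPC : P0.map (Function.Embedding.subtype (· ∈ C)) ⊆ C := by
    intro j h
    obtain ⟨x, hx, hxj⟩ := Finset.mem_map.1 h
    rw [← hxj]; exact x.2
  intro η hηpos
  obtain ⟨lam0, hl0, hlP, hlC, hl⟩ := hη η hηpos
  let lam : Fin r → ℚ := fun i => if h : i ∈ F then lam0 ⟨i, h⟩ else 0
  have hlF : ∀ i : {i // i ∈ F}, lam i.1 = lam0 i := fun i => by
    simp only [lam]; rw [dif_pos i.2]
  have hsumF : ∀ g : Fin r → ℚ, ∑ i ∈ F, lam i * g i = ∑ i : {i // i ∈ F}, lam0 i * g i.1 := by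
    intro g
    rw [← Finset.sum_coe_sort F]
    exact Finset.sum_congr rfl fun i _ => by rw [hlF i]
  refine ⟨lam, ⟨hPC, ?_, ?_, ?_, ?_, ?_, ?_⟩, ?_⟩
  · intro j
    by_cases hj : j ∈ C
    · have := hc0 ⟨j, hj⟩
      rw [← hcC ⟨j, hj⟩] at this
      exact this
    · rw [hcn j hj]
  · intro j
    by_cases hj : j ∈ C
    · rw [hmemP j hj, ← hcP, ← hcC ⟨j, hj⟩]
    · rw [hcn j hj]
      exact ⟨fun h => absurd rfl h, fun h => absurd (hPC h) hj⟩
  · intro i hi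
    rw [hsum]
    exact hc1 ⟨i, hi⟩
  · intro i hi
    have := hl0 ⟨i, hi⟩
    rw [← hlF ⟨i, hi⟩] at this
    exact this
  · intro j hj
    rw [hsumF (fun i => (A i j : ℚ))]
    exact hlP ⟨j, hPC hj⟩ ((hmemP j (hPC hj)).1 hj)
  · intro j hj hjP
    rw [hsumF (fun i => (A i j : ℚ))]
    exact hlC ⟨j, hj⟩ (fun h => hjP ((hmemP j hj).2 h))
  · rw [hsumF (fun i => 1 - ∑ j, c j * (A i j : ℚ))]
    simp only [hsum]
    exact hl

end Pool.Agent.H22.T6
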