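import Pool.Agent.H22.T6.GLU
import Pool.Agent.H22.T6.GUP
import Pool.Agent.H22.T6.GND
import Pool.Agent.H22.T6.BN
import Pool.Agent.H22.T6.LP
import Pool.Agent.H22.T6.VV
import Pool.Agent.H56.SMC.H11Aux

/-!
# RT: the root side of the theorem
-/

set_option autoImplicit false

namespace Pool.Agent.H22.T6

open Finset AddMonoidAlgebra
open Pool.Agent.H56.SMC Pool.Agent.H37.T5 Pool.Agent.H56.T5 Pool.Agent.H37.T6

/-- A functional which vanishes on the face vanishes at `p0`. -/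
theorem RT_fun {n r : ℕ} (a : Fin r → (Fin n →₀ ℕ)) (w : Fin n → ℕ) (hcrit : CritP a w)
    (f : (Unit ⊕ Fin n → ℝ) →ₗ[ℝ] ℝ) (h1 : ∀ i ∈ FF a w, f (H22.rowR a i) = 0)
    (h2 : ∀ j, w j = 0 → f (eR j) = 0) : f (p0R a w) = 0 := by
  have h3 : Submodule.span ℝ ({y | ∃ i ∈ FF a w, y = H22.rowR a i} ∪
      {y | ∃ j, w j = 0 ∧ y = (eR j : Unit ⊕ Fin n → ℝ)}) ≤ LinearMap.ker f := by
    rw [Submodule.span_le]
    rintro y (⟨i, hi, rfl⟩ | ⟨j, hj, rfl⟩)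
    · exact h1 i hi
    · exact h2 j hj
  exact h3 hcrit

theorem mem_FF {n r : ℕ} (a : Fin r → (Fin n →₀ ℕ)) (w : Fin n → ℕ) (i : Fin r) :
    i ∈ FF a w ↔ ∑ j, a i j * w j = H22.wmin a w := by
  classical
  simp [FF]

theorem mem_CC0 {n r : ℕ} (a : Fin r → (Fin n →₀ ℕ)) (w : Fin n → ℕ) (j : Fin n) :
    j ∈ CC0 a w ↔ w j ≠ 0 ∧ ∃ i, a i j = 0 := by
  classical
  simp [CC0]

theorem RT_cover {n r : ℕ} (a : Fin r → (Fin n →₀ ℕ)) (w : Fin n → ℕ) (hcrit : CritP a w)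
    (j : Fin n) (hj : j ∈ CC0 a w) : ∃ i ∈ FF a w, a i j ≠ 0 := by
  by_contra hcon
  push Not at hcon
  have h1 := RT_fun a w hcrit (LinearMap.proj (Sum.inr j)) (fun i hi => by
    simp [H22.rowR, hcon i hi]) (fun j' hj' => by
    have : j ≠ j' := by
      rintro rfl
      exact ((mem_CC0 a w j).1 hj).1 hj'
    simp [eR, this])
  simp [p0R] at h1

theorem RT_FF {n r : ℕ} (hr : 0 < r) (a : Fin r → (Fin n →₀ ℕ)) (w : Fin n → ℕ) :
    (FF a w).Nonempty := by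
  obtain ⟨i, hi⟩ := H11.exists_wmin hr a w
  exact ⟨i, (mem_FF a w i).2 hi⟩

/-- ROOT SIDE -/
theorem rootT6 {n r : ℕ} (a : Fin r → (Fin n →₀ ℕ)) (κ : Fin r → ℂ) (hnd : Nondeg a κ)
    (b : Polynomial ℂ) (PW : H22.WeylS n) (hfe : H22.FunctionalEquation (fpoly a κ) b PW)
    (s0 : ℂ) (hs1 : s0 ≠ -1) (hb : b.eval s0 ≠ 0) : HY a s0 := by
  classical
  intro w Yb Yj hY hs
  have hN := hY.pos
  have hNC : (H22.wmin a w : ℂ) ≠ 0 := by exact_mod_cast hN.ne'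
  have hr := appg_pos a w hN
  have hcrit : CritP a w := by
    refine Submodule.span_mono ?_ hY.span
    rintro y (⟨i, hi, rfl⟩ | ⟨j, hj, rfl⟩)
    · exact Or.inl ⟨i, (mem_FF a w i).2 (hY.on i hi), rfl⟩
    · exact Or.inr ⟨j, hY.onj j hj, rfl⟩
  have hsw : H22.wsum w ≠ H22.wmin a w := by
    intro he
    apply hs1
    rw [hs, he]
    field_simp
  obtain ⟨P, c, hLP⟩ := lp (fun i j => a i j) (FF a w) (RT_FF hr a w) (CC0 a w)
    (RT_cover a w hcrit)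
  rw [hs] at hb
  have hemp := geX a κ hnd b PW hfe w hN hcrit P c hLP hb
  obtain ⟨lam, hL, -⟩ := hLP 1 one_pos
  set K : Finset (Fin n) := P.filter (fun k => c k = 1) with hK
  have hKP : ∀ k ∈ K, k ∈ P ∧ c k = 1 := fun k hk => by
    rw [hK, mem_filter] at hk
    exact hk
  have hKw : ∀ k ∈ K, w k ≠ 0 := fun k hk =>
    ((mem_CC0 a w k).1 (hL.PC (hKP k hk).1)).1
  -- the sum over `K`
  have hK1 : ∀ i ∈ FF a w, ∑ k ∈ K, a i k ≤ 1 := by
    intro i hi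
    have h1 := hL.c1 i hi
    have h2 : ((∑ k ∈ K, a i k : ℕ) : ℚ) ≤ ∑ j, c j * (a i j : ℚ) := by
      push_cast
      calc ∑ k ∈ K, (a i k : ℚ) = ∑ k ∈ K, c k * (a i k : ℚ) :=
            sum_congr rfl fun k hk => by rw [(hKP k hk).2, one_mul]
        _ ≤ _ := sum_le_sum_of_subset_of_nonneg (subset_univ _) fun j _ _ =>
            mul_nonneg (hL.c0 j) (by positivity)
    have h3 := h2.trans h1
    exact_mod_cast h3
  have hKne : ∀ k ∈ K, (PF a w k).Nonempty := by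
    intro k hk
    obtain ⟨i, hi, hik⟩ : ∃ i ∈ FF a w, a i k ≠ 0 := by
      by_contra hcon
      push Not at hcon
      have h1 := hL.lP k (hKP k hk).1
      rw [sum_eq_zero (fun i hi => by simp [hcon i hi])] at h1
      exact zero_ne_one h1
    refine ⟨i, mem_filter.2 ⟨hi, ?_⟩⟩
    have h1 := hK1 i hi
    have h2 : a i k ≤ ∑ k ∈ K, a i k := single_le_sum (f := fun k => a i k)
      (fun _ _ => Nat.zero_le _) hk
    omega
  obtain ⟨K', hK'ne, hK'dim⟩ := bn (θ := {k // k ∈ K}) (aZ a) (fun k => PF a w k.1)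
    (fun k => hKne k.1 k.2) (fun _ i => κ i)
    (fun ν t h0 => ndx a κ hnd w K hKne hK1 ν t h0)
    (fun t => by
      obtain ⟨j, hj, hcj, hne⟩ := hemp t
      exact ⟨⟨j, mem_filter.2 ⟨hj, hcj⟩⟩, hne⟩)
  set K2 : Finset (Fin n) := K'.map (Function.Embedding.subtype _) with hK2
  have hK2K : K2 ⊆ K := by
    intro k hk
    obtain ⟨k', -, rfl⟩ := mem_map.1 hk
    exact k'.2
  have hDif : Dif (aZ a) (PF a w) K2 = Dif (aZ a) (fun k : {k // k ∈ K} => PF a w k.1) K' := by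
    ext v
    constructor
    · rintro ⟨k, hk, i, hi, i', hi', hv⟩
      obtain ⟨k', hk', rfl⟩ := mem_map.1 hk
      exact ⟨k', hk', i, hi, i', hi', hv⟩
    · rintro ⟨k, hk, i, hi, i', hi', hv⟩
      exact ⟨k.1, mem_map.2 ⟨k, hk, rfl⟩, i, hi, i', hi', hv⟩
  refine lemV a w Yb Yj hY K2 (hK'ne.map) (fun k hk => hKw k (hK2K hk)) (fun i hi => ?_) ?_ ?_
  · exact (sum_le_sum_of_subset hK2K).trans (hK1 i hi)
  · rw [hDif, hK2, card_map]
    exact hK'dim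
  · intro K3 hK3 hne j hinj hj
    exact uprime a w hN hsw hcrit P c lam hL K3 (fun k hk => hKP k (hK2K (hK3 hk))) hne j hinj
      (fun k hk => ⟨fun h => (hj k hk).1 (hK3 h), (hj k hk).2⟩)

end Pool.Agent.H22.T6
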