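import Pool.Agent.H22.T6.SDefs

/-!
# SBG: points of large degree are divisible by `N • a i`

Proof.  `E0 = (Fintype.card ι) (N + 1) + |dt δ Y|`.  Let `u ∈ SM (Lay h H m Y) P ∅`, `E0 < dt δ u`; `v = m • u + Y ∈ Sset h`, `dt H v = 0`.  `hfac`: `N' • v = ∑ n_i • a i`, `N' > 0`.
`∑ n_i = N' dt δ v = N' (m dt δ u + dt δ Y)`.  If all `n_i < N' m (N+1)` then `m dt δ u + dt δ Y ≤ card ι * m (N+1)`, so `m dt δ u ≤ m (card ι (N+1)) + |dt δ Y| ≤ m E0`, a contradiction.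
So some `n_i ≥ N' m (N+1) > 0`.  `0 = N' dt H v = ∑ n_j dt H (a j)` with nonnegative terms, so `dt H (a i) = 0`.
`m • (u - N • a i) + Y = v - (m N) • a i`, and `N' (v - m N a i) = ∑_j n_j a_j - N' m N a_i` has nonnegative coefficients, so all `dt (h v) ≥ 0` (`N' > 0`); `dt H = 0`.
For `k ∈ P`: `Y_k = m`, `N' m (u_k + 1) = ∑_j n_j (a j k) ≥ n_i (a i k) ≥ N' m (N+1) (a i k)`, so `u_k + 1 ≥ (N+1) (a i k)`.  If `a i k ≥ 1`: `u_k - N (a i k) ≥ a i k - 1 ≥ 0`.  If `a i k = 0`: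
`u_k ≥ 0` (`u ∈ LL ev P ∅`, `dt_ev`).
-/

set_option autoImplicit false

namespace Pool.Agent.H22.T6

open Finset AddMonoidAlgebra
open Pool.Agent.H56.SMC Pool.Agent.H37.T5 Pool.Agent.H56.T5

theorem SBG_term_le {ι : Type} [Fintype ι] (n : ι → ℕ) (x : ι → ℤ) (hx : ∀ i, 0 ≤ x i) (i : ι) :
    (n i : ℤ) * x i ≤ ∑ j, (n j : ℤ) * x j :=
  Finset.single_le_sum (f := fun j => (n j : ℤ) * x j)
    (fun j _ => mul_nonneg (Int.natCast_nonneg _) (hx j)) (Finset.mem_univ i)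

theorem SBG_dt_comb {d : ℕ} {ι : Type} [Fintype ι] (a : ι → Lat d) (g v : Lat d) (N' : ℕ)
    (n : ι → ℕ) (hn : N' • v = ∑ i, n i • a i) :
    (N' : ℤ) * dt g v = ∑ i, (n i : ℤ) * dt g (a i) := by
  have h1 := congrArg (dt g) hn
  rw [dt_nsmul, dt_sum] at h1
  rw [h1]
  exact Finset.sum_congr rfl fun i _ => dt_nsmul _ _ _

/-- BIG -/
theorem big {d : ℕ} {ι κ : Type} [Fintype ι] (a : ι → Lat d) (h : κ → Lat d) (δ : Lat d)
    (hδ : ∀ i, dt δ (a i) = 1) (hh : ∀ v i, 0 ≤ dt (h v) (a i))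
    (hfac : ∀ u ∈ Sset h, ∃ N : ℕ, 0 < N ∧ ∃ n : ι → ℕ, N • u = ∑ i, n i • a i)
    (H : Lat d) (hH : ∀ i, 0 ≤ dt H (a i)) (P : Finset (Fin d)) (hPa : ∀ k ∈ P, ∀ i, 0 ≤ a i k)
    (m : ℤ) (hm : 0 < m) (Y : Lat d) (hYP : ∀ k ∈ P, Y k = m) (N : ℕ) :
    ∃ E0 : ℤ, ∀ u ∈ SM (Lay h H m Y) P ∅, E0 < dt δ u →
      ∃ i, dt H (a i) = 0 ∧ u - N • a i ∈ SM (Lay h H m Y) P ∅ := by
  refine ⟨(Fintype.card ι : ℤ) * (N + 1) + |dt δ Y|, ?_⟩
  rintro u ⟨⟨hu1, hu2⟩, hu3⟩ hE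
  obtain ⟨N', hN', n, hn⟩ := hfac _ hu1
  have hN0 : (0 : ℤ) < (N' : ℤ) := by exact_mod_cast hN'
  have hNn : (0 : ℤ) ≤ (N : ℤ) := Int.natCast_nonneg _
  have hcomb := fun g => SBG_dt_comb a g _ N' n hn
  -- a large coefficient
  have hbig : ∃ i, (N' : ℤ) * m * (N + 1) ≤ (n i : ℤ) := by
    by_contra hcon
    push Not at hcon
    have h1 := hcomb δ
    have h2 : ∑ i, (n i : ℤ) * dt δ (a i) ≤ ∑ _i : ι, (N' : ℤ) * m * (N + 1) := by
      apply Finset.sum_le_sum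
      intro i _
      rw [hδ, mul_one]
      exact (hcon i).le
    rw [← h1, Finset.sum_const, Finset.card_univ, nsmul_eq_mul, dt_add, dt_zsmul] at h2
    have h3 : m * dt δ u + dt δ Y ≤ (Fintype.card ι : ℤ) * (m * (N + 1)) := by
      have h4 : (N' : ℤ) * (m * dt δ u + dt δ Y) ≤
          (N' : ℤ) * ((Fintype.card ι : ℤ) * (m * (N + 1))) := by
        calc (N' : ℤ) * (m * dt δ u + dt δ Y) ≤ (Fintype.card ι : ℤ) * ((N' : ℤ) * m * (N + 1)) := h2
          _ = _ := by ring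
      exact le_of_mul_le_mul_left h4 hN0
    have h5 : m * ((Fintype.card ι : ℤ) * (N + 1) + |dt δ Y| + 1) ≤ m * dt δ u :=
      mul_le_mul_of_nonneg_left (by linarith) hm.le
    have h6 : |dt δ Y| ≤ m * |dt δ Y| := by
      have := abs_nonneg (dt δ Y)
      nlinarith
    have h7 : - dt δ Y ≤ |dt δ Y| := neg_le_abs _
    nlinarith
  obtain ⟨i, hi⟩ := hbig
  have hpos : (0 : ℤ) < (n i : ℤ) :=
    lt_of_lt_of_le (mul_pos (mul_pos hN0 hm) (by linarith)) hi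
  -- the face
  have hHi : dt H (a i) = 0 := by
    have h1 := hcomb H
    rw [hu2, mul_zero] at h1
    have h2 := SBG_term_le n (fun j => dt H (a j)) hH i
    rw [← h1] at h2
    have h3 : 0 ≤ (n i : ℤ) * dt H (a i) := mul_nonneg hpos.le (hH i)
    have h4 : (n i : ℤ) * dt H (a i) = 0 := le_antisymm h2 h3
    rcases mul_eq_zero.mp h4 with h5 | h5
    · exact absurd h5 hpos.ne'
    · exact h5
  have hexp : ∀ g, dt g (m • (u - N • a i) + Y) = dt g (m • u + Y) - m * N * dt g (a i) := by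
    intro g
    rw [dt_add, dt_zsmul, dt_sub, dt_nsmul, dt_add, dt_zsmul]
    ring
  refine ⟨i, hHi, ⟨⟨?_, ?_⟩, ?_⟩⟩
  · intro v
    rw [hexp]
    have h1 := hcomb (h v)
    have h2 := SBG_term_le n (fun j => dt (h v) (a j)) (hh v) i
    rw [← h1] at h2
    have h3 : (N' : ℤ) * m * (N + 1) * dt (h v) (a i) ≤ (n i : ℤ) * dt (h v) (a i) :=
      mul_le_mul_of_nonneg_right hi (hh v i)
    have h4 : 0 ≤ (N' : ℤ) * m * dt (h v) (a i) := mul_nonneg (mul_nonneg hN0.le hm.le) (hh v i)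
    have h5 : 0 ≤ (N' : ℤ) * (dt (h v) (m • u + Y) - m * N * dt (h v) (a i)) := by
      have : (N' : ℤ) * (dt (h v) (m • u + Y) - m * N * dt (h v) (a i)) =
        (N' : ℤ) * dt (h v) (m • u + Y) - (N' : ℤ) * m * (N + 1) * dt (h v) (a i)
          + (N' : ℤ) * m * dt (h v) (a i) := by ring
      rw [this]
      linarith
    exact nonneg_of_mul_nonneg_right h5 hN0
  · rw [hexp, hu2, hHi]
    ring
  · intro k hk
    obtain ⟨-, h0⟩ := hu3 k hk
    have h0' := h0 (Finset.notMem_empty _)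
    rw [dt_ev] at h0'
    have key : 0 ≤ dt (ev k) (u - N • a i) := by
      rw [dt_sub, dt_nsmul, dt_ev, dt_ev]
      rcases (hPa k hk i).eq_or_lt with h1 | h1
      · rw [← h1]
        linarith
      · have h2 := hcomb (ev k)
        have h3 := SBG_term_le n (fun j => dt (ev k) (a j)) (fun j => by
          show 0 ≤ dt (ev k) (a j)
          rw [dt_ev]
          exact hPa k hk j) i
        rw [← h2] at h3
        simp only [dt_ev] at h3
        have h4 : (m • u + Y) k = m * (u k + 1) := by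
          rw [Pi.add_apply, Pi.smul_apply, smul_eq_mul, hYP k hk]
          ring
        rw [h4] at h3
        have h5 : (N' : ℤ) * m * (N + 1) * a i k ≤ (n i : ℤ) * a i k :=
          mul_le_mul_of_nonneg_right hi (hPa k hk i)
        have h6 : (N' : ℤ) * m * ((N + 1) * a i k) ≤ (N' : ℤ) * m * (u k + 1) := by
          calc (N' : ℤ) * m * ((N + 1) * a i k) = (N' : ℤ) * m * (N + 1) * a i k := by ring
            _ ≤ (N' : ℤ) * (m * (u k + 1)) := h5.trans h3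
            _ = _ := by ring
        have h7 := le_of_mul_le_mul_left h6 (mul_pos hN0 hm)
        have h8 : (N + 1 : ℤ) * a i k = N * a i k + a i k := by ring
        rw [h8] at h7
        linarith
    exact ⟨by linarith, fun _ => key⟩

end Pool.Agent.H22.T6
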