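import Pool.Agent.H22.T6.STC
import Pool.Agent.H56.SMC.FL

/-!
# SCE: the certificates of finite colength on the face `{H = 0}`

Proof.  For every `i` with `dt H (a i) = 0`: `a i ∈ Sset h` (`hh`), `a i ≠ 0` (`dt δ (a i) = 1`), so `fl` (`Pool/Agent/H56/SMC/FL.lean`) gives `N_i` and `z` supported in `Sset h` with
`single (N_i • a i) 1 = ∑ gs a c (ev k) * z k`.  `N_i > 0` may be assumed (multiply by `single (a i) 1`).  Project to `{H = 0}`: `H ≥ 0` on `Sset h` (`hfac`, `hH`) and on all `a i`, so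
`prT {dt H = 0} (gs a c (ev k) * z) = gs a (cF a c H) (ev k) * prT {dt H = 0} z` for `z` supported in `Sset h` (coefficient at `v` with `dt H v = 0`: the terms with `dt H (a i) ≠ 0` have
`dt H (v - a i) < 0`, so their coefficient of `z` is `0`; the terms with `dt H (a i) = 0` have `dt H (v - a i) = 0`).  The left side is unchanged.  Let `N = 1 + ∑_i N_i` (or the product); multiply
the certificate of `i` by `single ((N - N_i) • a i) 1`.  Degree: `trunc` with `I = {N}` (`P = ∅`, `S = {u ∈ Sset h, dt H u = 0}`; `SM S ∅ K = S` because `LL ev ∅ K = univ`).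
-/

set_option autoImplicit false

namespace Pool.Agent.H22.T6

open Finset AddMonoidAlgebra
open Pool.Agent.H56.SMC Pool.Agent.H37.T5 Pool.Agent.H56.T5

theorem SCE_prT_sum {d : ℕ} {α : Type*} (T : Set (Lat d)) (s : Finset α) (f : α → LP ℂ d) :
    prT T (∑ i ∈ s, f i) = ∑ i ∈ s, prT T (f i) := by
  apply lp_ext
  intro u
  rw [prT_coeff, coeff_finsum, coeff_finsum]
  split_ifs with h
  · exact sum_congr rfl fun i _ => by rw [prT_coeff, if_pos h]
  · exact (sum_eq_zero fun i _ => by rw [prT_coeff, if_neg h]).symm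

theorem SCE_prT_gs {d : ℕ} {ι κ : Type} [Fintype ι] (a : ι → Lat d) (c : ι → ℂ)
    (h : κ → Lat d) (δ : Lat d) (hδ : ∀ i, dt δ (a i) = 1) (H : Lat d)
    (hH : ∀ i, 0 ≤ dt H (a i)) (hS : ∀ u ∈ Sset h, 0 ≤ dt H u) (M : ℤ) (g : Lat d) (x : LP ℂ d)
    (hx : Supp (Sset h) x) :
    prT {u | dt H u = 0 ∧ dt δ u = M} (gs a c g * x) =
      gs a (cF a c H) g * prT {u | dt H u = 0 ∧ dt δ u = M - 1} x := by
  apply lp_ext
  intro v
  rw [prT_coeff, gs_mul_coeff, gs_mul_coeff]
  have h1 : ∀ i, cF a c H i * (dt g (a i) : ℂ) *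
      (prT {u | dt H u = 0 ∧ dt δ u = M - 1} x).coeff (v - a i) =
      if v ∈ {u : Lat d | dt H u = 0 ∧ dt δ u = M} then
        c i * (dt g (a i) : ℂ) * x.coeff (v - a i) else 0 := by
    intro i
    rw [prT_coeff]
    unfold cF
    simp only [Set.mem_ofPred_eq, dt_sub, hδ i]
    by_cases hi : dt H (a i) = 0
    · rw [if_pos hi, hi, sub_zero]
      have h2 : (dt H v = 0 ∧ dt δ v - 1 = M - 1) ↔ (dt H v = 0 ∧ dt δ v = M) := by
        constructor
        · rintro ⟨h3, h4⟩
          exact ⟨h3, by omega⟩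
        · rintro ⟨h3, h4⟩
          exact ⟨h3, by omega⟩
      by_cases h5 : dt H v = 0 ∧ dt δ v = M
      · rw [if_pos (h2.2 h5), if_pos h5]
      · rw [if_neg (fun h6 => h5 (h2.1 h6)), if_neg h5, mul_zero]
    · rw [if_neg hi, zero_mul, zero_mul]
      by_cases h5 : dt H v = 0 ∧ dt δ v = M
      · rw [if_pos h5]
        have h6 : x.coeff (v - a i) = 0 := by
          by_contra h7
          have h8 := hS _ (hx _ h7)
          rw [dt_sub] at h8
          have h9 := hH i
          omega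
        rw [h6, mul_zero]
      · rw [if_neg h5]
  rw [sum_congr rfl fun i _ => h1 i]
  split_ifs with h2
  · rfl
  · exact sum_const_zero.symm

/-- CERTS -/
theorem certs {d : ℕ} {ι κ : Type} [Fintype ι] [Fintype κ] (a : ι → Lat d) (c : ι → ℂ)
    (h : κ → Lat d) (δ : Lat d) (hδ : ∀ i, dt δ (a i) = 1) (hh : ∀ v i, 0 ≤ dt (h v) (a i))
    (hfac : ∀ u ∈ Sset h, ∃ N : ℕ, 0 < N ∧ ∃ n : ι → ℕ, N • u = ∑ i, n i • a i)
    (hnd : TorusND a c) (H : Lat d) (hH : ∀ i, 0 ≤ dt H (a i)) :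
    ∃ N : ℕ, 0 < N ∧ ∀ i, dt H (a i) = 0 → ∃ z : Fin d → LP ℂ d,
      (∀ k, Supp ({u | u ∈ Sset h ∧ dt H u = 0} ∩ DG δ (N - 1)) (z k)) ∧
      (single (N • a i) 1 : LP ℂ d) = ∑ k, gs a (cF a c H) (ev k) * z k := by
  classical
  have hS : ∀ u ∈ Sset h, 0 ≤ dt H u := by
    intro u hu
    obtain ⟨N, hN, n, hn⟩ := hfac u hu
    have h1 : (N : ℤ) * dt H u = ∑ i, (n i : ℤ) * dt H (a i) := by
      rw [← dt_nsmul, hn, dt_sum]
      exact sum_congr rfl fun i _ => dt_nsmul _ _ _
    have h2 : 0 ≤ (N : ℤ) * dt H u := by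
      rw [h1]
      exact sum_nonneg fun i _ => mul_nonneg (by positivity) (hH i)
    have hNZ : (0 : ℤ) < N := by exact_mod_cast hN
    exact nonneg_of_mul_nonneg_right h2 hNZ
  have hfl : ∀ i, ∃ (N : ℕ) (z : Fin d → LP ℂ d), (∀ j, Supp (Sset h) (z j)) ∧
      (single (N • a i) 1 : LP ℂ d) = ∑ j, gs a c (ev j) * z j := by
    intro i
    refine fl a c h δ hδ hh hfac hnd (a i) (fun v => hh v i) ?_
    intro h0
    have h1 := hδ i
    rw [h0, dt_zero] at h1
    exact absurd h1 (by norm_num)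
  choose N z hz hsum using hfl
  refine ⟨1 + ∑ i, N i, by omega, fun i hi => ?_⟩
  have hle : N i ≤ ∑ i, N i := single_le_sum (fun _ _ => Nat.zero_le _) (mem_univ i)
  set M : ℕ := 1 + ∑ i, N i with hM
  set m : ℕ := M - N i with hm
  have hMm : M = m + N i := by omega
  have hsupp : ∀ k, Supp (Sset h) (single (m • a i) 1 * z i k : LP ℂ d) := by
    intro k u hu v
    rw [single_mul_coeff, one_mul] at hu
    have h1 := hz i k _ hu v
    rw [dt_sub, dt_nsmul] at h1
    have h2 : 0 ≤ (m : ℤ) * dt (h v) (a i) := mul_nonneg (by positivity) (hh v i)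
    omega
  refine ⟨fun k => prT {u | dt H u = 0 ∧ dt δ u = (M : ℤ) - 1} (single (m • a i) 1 * z i k),
    fun k u hu => ?_, ?_⟩
  · rw [prT_coeff] at hu
    split_ifs at hu with h1
    · exact ⟨⟨hsupp k u hu, h1.1⟩, h1.2⟩
    · exact absurd rfl hu
  · have h1 : (single (M • a i) 1 : LP ℂ d) =
        ∑ k, gs a c (ev k) * (single (m • a i) 1 * z i k) := by
      have h2 : (single (M • a i) 1 : LP ℂ d) = single (m • a i) 1 * single (N i • a i) 1 := by
        rw [AddMonoidAlgebra.single_mul_single, one_mul, ← add_smul, ← hMm]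
      rw [h2, hsum i, mul_sum]
      exact sum_congr rfl fun k _ => by ring
    have h3 : (single (M • a i) 1 : LP ℂ d) =
        prT {u | dt H u = 0 ∧ dt δ u = (M : ℤ)} (single (M • a i) 1) := by
      apply lp_ext
      intro u
      rw [prT_coeff, coeff_single']
      by_cases h4 : u = M • a i
      · have h5 : u ∈ {u : Lat d | dt H u = 0 ∧ dt δ u = (M : ℤ)} := by
          rw [h4]
          refine ⟨?_, ?_⟩
          · rw [dt_nsmul, hi, mul_zero]
          · rw [dt_nsmul, hδ i, mul_one]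
        rw [if_pos h4, if_pos h5]
      · rw [if_neg h4]
        split_ifs <;> rfl
    rw [h3, h1, SCE_prT_sum]
    exact sum_congr rfl fun k _ => SCE_prT_gs a c h δ hδ H hH hS M (ev k) _ (hsupp k)

end Pool.Agent.H22.T6
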