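import Pool.Agent.H22.T6.SDefs

/-!
# SCO: on the coset `u0 + qℤ^d` the operator `PiL` is the identity plus terms of higher degree

Proof.  For `u = u0 + q u'`: `p_k + u_k = 0` in `F` (`p = Y/m`, `m u0_k = (q-1) Y_k`, so `(u0_k : F) = -Y_k/m`; `(q : F) = 0`).  So `D_k (single u r) = -g_k * single u r` has all
its exponents `u + a i` in degree `dt δ u + 1`.  `D_k` maps elements of degrees `≥ e` to elements of degrees `≥ e` (`Dop_coeff`, `dt δ (a i) = 1`), so for `s` supported in
`Cs q u0 ∩ {L ≤ δ}` the element `D_k^{q-1} s` (`q - 1 ≥ 1`) is supported in `{L + 1 ≤ δ}`: `D_k^{q-1} s = D_k^{q-2} (D_k s)`.  Also `D_k^{q-1}` maps `{L + 1 ≤ δ}` to itself.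
So by induction on the list: `(L'.map f).prod s - s` is supported in `{L + 1 ≤ δ}` (`f k = 1 - D_k^{q-1}`; `f k (s + t) - s = t - D_k^{q-1} s - D_k^{q-1} t`).
-/

set_option autoImplicit false

namespace Pool.Agent.H22.T6

open Finset AddMonoidAlgebra
open Pool.Agent.H56.SMC Pool.Agent.H37.T5 Pool.Agent.H56.T5

theorem SCO_ge {F : Type} [Field F] {d : ℕ} {ι : Type} [Fintype ι] (p : Fin d → F)
    (a : ι → Lat d) (c : ι → F) (δ : Lat d) (hde : ∀ i, dt δ (a i) = 1) (e : ℤ) (k : Fin d)
    (n : ℕ) (x : LP F d) (hx : Supp {v | e ≤ dt δ v} x) :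
    Supp {v | e ≤ dt δ v} (((DL p a c k : Module.End F (LP F d)) ^ n) x) := by
  induction n with
  | zero => simpa using hx
  | succ n ih =>
    rw [pow_succ', Module.End.mul_apply]
    refine Supp.Dop p a c (ev k) ?_ ih
    intro u hu i _
    have hu' : e ≤ dt δ u := hu
    show e ≤ dt δ (u + a i)
    rw [dt_add, hde]
    omega

theorem SCO_cs (q : ℕ) {F : Type} [Field F] [CharP F q] {d : ℕ} {ι : Type}
    [Fintype ι] (a : ι → Lat d) (c : ι → F) (δ : Lat d) (S : Set (Lat d)) (P : Finset (Fin d))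
    (m : ℤ) (Y u0 : Lat d) (hQ : QD q a c δ S P m Y u0) (L : ℤ) (s : LP F d)
    (hs : Supp (Cs q u0 ∩ {v | L ≤ dt δ v}) s) (k : Fin d) :
    Supp {v | L + 1 ≤ dt δ v} (DL (pY m Y) a c k s) := by
  intro u hu
  rw [DL_apply, Dop_coeff] at hu
  have h0 : (pv (pY m Y) (ev k) + (dt (ev k) u : F)) * s.coeff u = 0 := by
    by_cases h : s.coeff u = 0
    · rw [h, mul_zero]
    · obtain ⟨⟨u', hu'⟩, -⟩ := hs u h
      have h1 : pv (pY m Y : Fin d → F) (ev k) = (Y k : F) / (m : F) := by
        unfold pv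
        rw [sum_eq_single k]
        · simp [ev, pY]
        · intro j _ hj
          simp [ev, hj]
        · intro hk
          exact absurd (mem_univ k) hk
      have h2 : dt (ev k) u = u0 k + (q : ℤ) * u' k := by
        rw [dt_ev, hu']
        rfl
      have hq : (q : F) = 0 := CharP.cast_eq_zero F q
      have h3 : (m : F) * (u0 k : F) = -(Y k : F) := by
        have h4 := congrFun hQ.hu0 k
        simp only [Pi.smul_apply, smul_eq_mul] at h4
        have h5 : ((m * u0 k : ℤ) : F) = ((((q : ℤ) - 1) * Y k : ℤ) : F) := by rw [h4]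
        push_cast at h5
        rw [h5, hq]
        ring
      have h6 : (Y k : F) / (m : F) + (u0 k : F) = 0 := by
        have hm := hQ.mF
        field_simp
        linear_combination h3
      rw [h1, h2]
      push_cast
      rw [hq, zero_mul, add_zero, h6, zero_mul]
  rw [h0, zero_sub, neg_ne_zero] at hu
  obtain ⟨i, -, hi⟩ := exists_ne_zero_of_sum_ne_zero hu
  have h1 : s.coeff (u - a i) ≠ 0 := fun h0 => hi (by rw [h0, mul_zero])
  have h2 : L ≤ dt δ (u - a i) := (hs _ h1).2
  rw [dt_sub, hQ.de] at h2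
  show L + 1 ≤ dt δ u
  omega

/-- `PiL` is unipotent on the coset. -/
theorem coset_pi (q : ℕ) [Fact q.Prime] {F : Type} [Field F] [CharP F q] {d : ℕ} {ι : Type}
    [Fintype ι] (a : ι → Lat d) (c : ι → F) (δ : Lat d) (S : Set (Lat d)) (P : Finset (Fin d))
    (m : ℤ) (Y u0 : Lat d) (hQ : QD q a c δ S P m Y u0) (L : ℤ) (s : LP F d)
    (hs : Supp (Cs q u0 ∩ {v | L ≤ dt δ v}) s) :
    Supp {v | L + 1 ≤ dt δ v} (PiL q (pY m Y) a c s - s) := by
  have hq2 : 2 ≤ q := (Fact.out : q.Prime).two_le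
  have hD : ∀ k, Supp {v | L + 1 ≤ dt δ v}
      (((DL (pY m Y) a c k : Module.End F (LP F d)) ^ (q - 1)) s) := by
    intro k
    obtain ⟨n, hn⟩ : ∃ n, q - 1 = n + 1 := ⟨q - 2, by omega⟩
    rw [hn, pow_succ, Module.End.mul_apply]
    exact SCO_ge _ a c δ hQ.de _ k n _ (SCO_cs q a c δ S P m Y u0 hQ L s hs k)
  have key : ∀ l : List (Fin d), Supp {v | L + 1 ≤ dt δ v}
      (((l.map (fun k => 1 - (DL (pY m Y) a c k : Module.End F (LP F d)) ^ (q - 1))).prod) s
        - s) := by
    intro l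
    induction l with
    | nil => simpa using Supp.zero _
    | cons k l ih =>
      set t := ((l.map (fun k => 1 - (DL (pY m Y) a c k : Module.End F (LP F d)) ^ (q - 1))).prod) s
        - s with ht
      have h1 : ((l.map (fun k => 1 - (DL (pY m Y) a c k :
          Module.End F (LP F d)) ^ (q - 1))).prod) s = s + t := by rw [ht]; abel
      rw [List.map_cons, List.prod_cons, Module.End.mul_apply, h1, LinearMap.sub_apply,
        Module.End.one_apply, map_add]
      have h2 : s + t - (((DL (pY m Y) a c k : Module.End F (LP F d)) ^ (q - 1)) s +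
          ((DL (pY m Y) a c k : Module.End F (LP F d)) ^ (q - 1)) t) - s =
          t - ((DL (pY m Y) a c k : Module.End F (LP F d)) ^ (q - 1)) s -
          ((DL (pY m Y) a c k : Module.End F (LP F d)) ^ (q - 1)) t := by abel
      rw [h2]
      exact (ih.sub (hD k)).sub (SCO_ge _ a c δ hQ.de _ k _ _ ih)
  exact key _

end Pool.Agent.H22.T6
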