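import Pool.Agent.H22.T6.SDefs

/-!
# SID: the coset is a copy of `F[M]` with the coefficients `c_i^q`

Proof.  `u' ↦ u0 + q u'` is injective (`q > 0`), so `(Phq q u0 z).coeff (u0 + q u') = z.coeff u'` and the other coefficients are `0` (`Finsupp.mapDomain_apply`, `mapDomain_notin_range`).
`mem`: `u0 + q u' ∈ SM S P K ↔ u' ∈ SM S P K`: `hQ.cos` for `S`; for `k ∈ P`: `m u0_k = (q-1) m` so `u0_k = q - 1`; `-1 ≤ q - 1 + q u'_k ↔ -1 ≤ u'_k` and
`0 ≤ q - 1 + q u'_k ↔ 0 ≤ u'_k` (`q ≥ 1`).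
`phq_supp` follows.  `ident`: let `Phq s = ∑ gq k * n_k`, `n_k` supported in `SM S P {k} ∩ Cs q u0`.  Put `n'_k.coeff u' = n_k.coeff (u0 + q u')` (a finitely supported function:
`Finsupp.comapDomain`), so `Phq n'_k = n_k` and `n'_k` is supported in `SM S P {k}`.  `Phq (gs a (c^q) (ev k) * n') = gq k * Phq n'` (compare coefficients at `u0 + q u'`: both are
`∑_i c_i^q a_{ik} n'.coeff (u' - a_i)`, since `u0 + q u' - q a_i = u0 + q (u' - a_i)`; at the other points both vanish).  So `Phq s = Phq (∑ gs a (c^q) (ev k) * n'_k)`; `Phq` is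
injective and additive.
-/

set_option autoImplicit false

namespace Pool.Agent.H22.T6

open Finset AddMonoidAlgebra
open Pool.Agent.H56.SMC Pool.Agent.H37.T5 Pool.Agent.H56.T5

theorem SID_inj (q : ℕ) [Fact q.Prime] {d : ℕ} (u0 : Lat d) :
    Function.Injective (fun u' : Lat d => u0 + (q : ℤ) • u') := by
  intro u v h
  have hq : (q : ℤ) ≠ 0 := by exact_mod_cast (Fact.out : q.Prime).ne_zero
  have h1 : (q : ℤ) • u = (q : ℤ) • v := add_left_cancel h
  funext j
  have h2 := congrFun h1 j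
  simp only [Pi.smul_apply, smul_eq_mul] at h2
  exact mul_left_cancel₀ hq h2

theorem SID_coeff (q : ℕ) [Fact q.Prime] {R : Type} [CommRing R] {d : ℕ} (u0 u' : Lat d)
    (z : LP R d) : (Phq q u0 z).coeff (u0 + (q : ℤ) • u') = z.coeff u' :=
  Finsupp.mapDomain_apply (SID_inj q u0) z.coeff u'

theorem SID_coeff0 (q : ℕ) {R : Type} [CommRing R] {d : ℕ} (u0 u : Lat d)
    (z : LP R d) (hu : u ∉ Cs q u0) : (Phq q u0 z).coeff u = 0 := by
  refine Finsupp.mapDomain_of_notMem_range z.coeff u ?_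
  rintro ⟨u', h⟩
  exact hu ⟨u', h.symm⟩

theorem SID_mem (q : ℕ) [Fact q.Prime] {F : Type} [Field F] {d : ℕ} {ι : Type}
    {a : ι → Lat d} {c : ι → F} {δ : Lat d} {S : Set (Lat d)} {P : Finset (Fin d)} {m : ℤ}
    {Y u0 : Lat d} (hQ : QD q a c δ S P m Y u0) (K : Finset (Fin d)) (u' : Lat d) :
    u0 + (q : ℤ) • u' ∈ SM S P K ↔ u' ∈ SM S P K := by
  have hq : (1 : ℤ) ≤ q := by exact_mod_cast (Fact.out : q.Prime).one_lt.le
  have hk : ∀ k ∈ P, u0 k = (q : ℤ) - 1 := by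
    intro k hk
    have h1 := congrFun hQ.hu0 k
    simp only [Pi.smul_apply, smul_eq_mul] at h1
    rw [hQ.YP k hk, mul_comm] at h1
    exact mul_right_cancel₀ hQ.m0.ne' h1
  have hiff : ∀ k ∈ P, (-1 ≤ dt (ev k) (u0 + (q : ℤ) • u') ↔ -1 ≤ dt (ev k) u') ∧
      (0 ≤ dt (ev k) (u0 + (q : ℤ) • u') ↔ 0 ≤ dt (ev k) u') := by
    intro k hkP
    rw [dt_ev, dt_ev]
    have e1 : (u0 + (q : ℤ) • u') k = (q : ℤ) - 1 + q * u' k := by
      rw [Pi.add_apply, Pi.smul_apply, smul_eq_mul, hk k hkP]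
    rw [e1]
    constructor
    · constructor
      · intro h
        by_contra hcon
        have h2 : u' k ≤ -2 := by omega
        nlinarith
      · intro h
        nlinarith
    · constructor
      · intro h
        by_contra hcon
        have h2 : u' k ≤ -1 := by omega
        nlinarith
      · intro h
        nlinarith
  unfold SM
  rw [Set.mem_inter_iff, Set.mem_inter_iff, hQ.cos]
  refine and_congr_right fun _ => ?_
  unfold LL
  constructor
  · intro h i hi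
    exact ⟨(hiff i hi).1.1 (h i hi).1, fun hK => (hiff i hi).2.1 ((h i hi).2 hK)⟩
  · intro h i hi
    exact ⟨(hiff i hi).1.2 (h i hi).1, fun hK => (hiff i hi).2.2 ((h i hi).2 hK)⟩

theorem SID_gq (q : ℕ) {R : Type} [CommRing R] {d : ℕ} {ι : Type} [Fintype ι]
    (a : ι → Lat d) (c : ι → R) (k : Fin d) (z : LP R d) (u : Lat d) :
    (gq q a c k * z).coeff u =
      ∑ i, c i ^ q * (a i k : R) * z.coeff (u - (q : ℤ) • a i) := by
  rw [gq, sum_mul, coeff_finsum]
  exact sum_congr rfl fun i _ => single_mul_coeff _ _ _ _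

/-- supports -/
theorem phq_supp (q : ℕ) [Fact q.Prime] {F : Type} [Field F] {d : ℕ} {ι : Type} [Fintype ι]
    (a : ι → Lat d) (c : ι → F) (δ : Lat d) (S : Set (Lat d)) (P K : Finset (Fin d)) (m : ℤ)
    (Y u0 : Lat d) (hQ : QD q a c δ S P m Y u0) (s : LP F d) (hs : Supp (SM S P K) s) :
    Supp (SM S P K ∩ Cs q u0) (Phq q u0 s) := by
  intro u hu
  by_cases hC : u ∈ Cs q u0
  · refine ⟨?_, hC⟩
    obtain ⟨u', rfl⟩ := hC
    rw [SID_coeff] at hu
    exact (SID_mem q hQ K u').2 (hs u' hu)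
  · exact absurd (SID_coeff0 q u0 u s hC) hu

/-- identification of the coset -/
theorem ident (q : ℕ) [Fact q.Prime] {F : Type} [Field F] {d : ℕ} {ι : Type} [Fintype ι]
    (a : ι → Lat d) (c : ι → F) (δ : Lat d) (S : Set (Lat d)) (P : Finset (Fin d)) (m : ℤ)
    (Y u0 : Lat d) (hQ : QD q a c δ S P m Y u0) (s : LP F d)
    (h : IqT q a c S P (Cs q u0) (Phq q u0 s)) :
    ∃ n : Fin d → LP F d, (∀ k, Supp (SM S P {k}) (n k)) ∧
      s = ∑ k, gs a (fun i => c i ^ q) (ev k) * n k := by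
  obtain ⟨n, hn, hs⟩ := h
  refine ⟨fun k => ofCoeff (Finsupp.comapDomain (fun u' : Lat d => u0 + (q : ℤ) • u')
    (n k).coeff ((SID_inj q u0).injOn)), ?_, ?_⟩
  · intro k u' hu'
    have h1 : (n k).coeff (u0 + (q : ℤ) • u') ≠ 0 := hu'
    exact (SID_mem q hQ {k} u').1 (hn k _ h1).1
  · apply lp_ext
    intro u'
    rw [← SID_coeff q u0 u' s, hs, coeff_finsum, coeff_finsum]
    refine sum_congr rfl fun k _ => ?_
    rw [SID_gq, gs_mul_coeff]
    refine sum_congr rfl fun i _ => ?_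
    rw [dt_ev]
    have e1 : u0 + (q : ℤ) • u' - (q : ℤ) • a i = u0 + (q : ℤ) • (u' - a i) := by
      rw [smul_sub, add_sub_assoc]
    rw [e1]
    rfl

end Pool.Agent.H22.T6
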