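import Pool.Agent.H22.T6.SDefs

/-!
# SRE: reduction of the degree modulo `∑ D_k F[M_k]`

Proof.  It suffices to treat `x = single u r`, `u ∈ SM S P ∅` (finite sums; everything is linear), and `r = 1` (scale).  Strong induction on `(dt δ u - E).toNat`.  If `dt δ u ≤ E`: `y = x`, `z = 0`.
Otherwise `single u 1 = ∑ g_k z_k` by `hbig`, `z_k` in `SM S P {k}`, degree `dt δ u - 1`; so `single u 1 = ∑_k (dg (p_k + ·_k) z_k) - ∑_k D_k z_k` (definition of `Dop`, `pv p (ev k) = p k`,
`dt (ev k) u = u k`).  `dg (p_k + ·_k) z_k` is supported in `SM S P ∅ ∩ {degree dt δ u - 1}`: if `k ∈ P` and `u_k = -1` then the factor is `Y_k/m - 1 = 0` (`hQ.YP`, `hQ.mF`); the other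
conditions of `LL ev P ∅` follow from those of `LL ev P {k}` (see the proof of `LL_Dop` in `Pool/Agent/H56/T5/LB.lean`).  Apply the induction hypothesis to its monomials.
-/

set_option autoImplicit false

namespace Pool.Agent.H22.T6

open Finset AddMonoidAlgebra
open Pool.Agent.H56.SMC Pool.Agent.H37.T5 Pool.Agent.H56.T5

/-- The conclusion of the reduction. -/
def SRE_P {F : Type} [Field F] {d : ℕ} {ι : Type} [Fintype ι] (p : Fin d → F)
    (a : ι → Lat d) (c : ι → F) (δ : Lat d) (S : Set (Lat d)) (P : Finset (Fin d)) (E : ℤ)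
    (x : LP F d) : Prop :=
  ∃ (y : LP F d) (z : Fin d → LP F d), Supp (SM S P ∅ ∩ {v | dt δ v ≤ E}) y ∧
      (∀ k, Supp (SM S P {k}) (z k)) ∧ x = y + ∑ k, Dop p a c (ev k) (z k)

section
variable {F : Type} [Field F] {d : ℕ} {ι : Type} [Fintype ι] {p : Fin d → F}
    {a : ι → Lat d} {c : ι → F} {δ : Lat d} {S : Set (Lat d)} {P : Finset (Fin d)} {E : ℤ}

theorem SRE_add {x x' : LP F d} (h : SRE_P p a c δ S P E x) (h' : SRE_P p a c δ S P E x') :
    SRE_P p a c δ S P E (x + x') := by
  obtain ⟨y, z, h1, h2, rfl⟩ := h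
  obtain ⟨y', z', h1', h2', rfl⟩ := h'
  refine ⟨y + y', fun k => z k + z' k, h1.add h1', fun k => (h2 k).add (h2' k), ?_⟩
  simp only [Dop_add, sum_add_distrib]
  abel

theorem SRE_smul (r : F) {x : LP F d} (h : SRE_P p a c δ S P E x) :
    SRE_P p a c δ S P E (r • x) := by
  obtain ⟨y, z, h1, h2, rfl⟩ := h
  refine ⟨r • y, fun k => r • z k, h1.smul r, fun k => (h2 k).smul r, ?_⟩
  simp only [Dop_smul, smul_add, smul_sum]

theorem SRE_zero : SRE_P p a c δ S P E (0 : LP F d) := by
  refine ⟨0, fun _ => 0, Supp.zero _, fun _ => Supp.zero _, ?_⟩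
  simp [Dop_zero]

theorem SRE_sum {α : Type*} (s : Finset α) {f : α → LP F d} (h : ∀ i ∈ s, SRE_P p a c δ S P E (f i)) :
    SRE_P p a c δ S P E (∑ i ∈ s, f i) := by
  classical
  induction s using Finset.induction_on with
  | empty => simpa using SRE_zero
  | insert b s hb ih =>
    rw [sum_insert hb]
    exact SRE_add (h b (mem_insert_self b s)) (ih fun i hi => h i (mem_insert_of_mem hi))

theorem SRE_expand (x : LP F d) : x = ∑ u ∈ x.coeff.support, x.coeff u • (single u 1 : LP F d) := by
  apply lp_ext; intro v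
  rw [coeff_finsum]
  simp only [coeff_smul', coeff_single']
  rw [sum_eq_single v]
  · simp
  · intro u _ hu
    rw [if_neg (Ne.symm hu), mul_zero]
  · intro hv
    rw [Finsupp.notMem_support_iff.1 hv, zero_mul]

theorem SRE_all {x : LP F d} {T : Set (Lat d)} (hx : Supp T x)
    (h : ∀ u ∈ T, SRE_P p a c δ S P E (single u 1)) : SRE_P p a c δ S P E x := by
  rw [SRE_expand x]
  refine SRE_sum _ fun u hu => SRE_smul _ (h u (hx u ?_))
  exact Finsupp.mem_support_iff.1 hu

theorem SRE_pv (k : Fin d) : pv p (ev k) = p k := by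
  unfold pv ev
  rw [sum_eq_single k]
  · simp
  · intro j _ hj
    rw [Pi.single_eq_of_ne hj]
    simp
  · intro hk
    exact absurd (mem_univ k) hk

end

/-- REDE -/
theorem redE (q : ℕ) {F : Type} [Field F] {d : ℕ} {ι : Type} [Fintype ι]
    (a : ι → Lat d) (c : ι → F) (δ : Lat d) (S : Set (Lat d)) (P : Finset (Fin d))
    (m : ℤ) (Y u0 : Lat d) (hQ : QD q a c δ S P m Y u0) (E : ℤ)
    (hbig : ∀ u ∈ SM S P ∅, E < dt δ u → ∃ z : Fin d → LP F d,
      (∀ k, Supp (SM S P {k}) (z k)) ∧ (∀ k, Supp (DG δ (dt δ u - 1)) (z k)) ∧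
      (single u 1 : LP F d) = ∑ k, gs a c (ev k) * z k)
    (x : LP F d) (hx : Supp (SM S P ∅) x) :
    ∃ (y : LP F d) (z : Fin d → LP F d), Supp (SM S P ∅ ∩ {v | dt δ v ≤ E}) y ∧
      (∀ k, Supp (SM S P {k}) (z k)) ∧ x = y + ∑ k, Dop (pY m Y) a c (ev k) (z k) := by
  have key : ∀ n : ℕ, ∀ u ∈ SM S P ∅, (dt δ u - E).toNat = n →
      SRE_P (pY m Y) a c δ S P E (single u 1) := by
    intro n
    induction n using Nat.strong_induction_on with
    | _ n ih =>
      intro u hu hn
      by_cases hE : dt δ u ≤ E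
      · refine ⟨single u 1, fun _ => 0, Supp.single (show u ∈ SM S P ∅ ∩ {v | dt δ v ≤ E} from ⟨hu, hE⟩) 1, fun _ => Supp.zero _, ?_⟩
        simp [Dop_zero]
      · have hE' : E < dt δ u := not_le.1 hE
        obtain ⟨z, hz1, hz2, hz3⟩ := hbig u hu hE'
        have e1 : (single u 1 : LP F d) =
            (∑ k, dg (fun w => pv (pY m Y) (ev k) + (dt (ev k) w : F)) (z k)) +
              ∑ k, Dop (pY m Y) a c (ev k) (-(z k)) := by
          rw [hz3, ← sum_add_distrib]
          refine sum_congr rfl fun k _ => ?_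
          rw [Dop_neg]
          unfold Dop
          abel
        rw [e1]
        refine SRE_add (SRE_sum _ fun k _ => ?_) ?_
        · refine SRE_all (T := SM S P ∅ ∩ DG δ (dt δ u - 1)) ?_ ?_
          · intro v hv
            rw [dg_coeff] at hv
            have h1 : (z k).coeff v ≠ 0 := fun h0 => hv (by rw [h0, mul_zero])
            have h2 : pv (pY m Y) (ev k) + (dt (ev k) v : F) ≠ 0 := fun h0 => hv (by rw [h0, zero_mul])
            have h3 := hz1 k v h1
            refine ⟨⟨h3.1, ?_⟩, hz2 k v h1⟩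
            intro j hj
            refine ⟨(h3.2 j hj).1, fun _ => ?_⟩
            by_cases hjk : j = k
            · subst hjk
              have h6 := (h3.2 j hj).1
              rcases h6.lt_or_eq with h7 | h7
              · omega
              · exfalso
                apply h2
                rw [SRE_pv, ← h7]
                unfold pY
                rw [hQ.YP j hj, div_self hQ.mF]
                push_cast
                ring
            · exact (h3.2 j hj).2 (by simp [hjk])
          · rintro v ⟨hv1, hv2⟩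
            have hv3 : dt δ v = dt δ u - 1 := hv2
            refine ih ((dt δ v - E).toNat) ?_ v hv1 rfl
            rw [← hn, hv3]
            omega
        · exact ⟨0, fun k => -(z k), Supp.zero _, fun k => (hz1 k).neg, by rw [zero_add]⟩
  exact SRE_all hx fun u hu => key _ u hu rfl

end Pool.Agent.H22.T6
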