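import Pool.Agent.H22.T6.SDefs

/-!
# STC: homogeneity of `∑ g_k R[M_k]`

Proof.  `n'_k = prT {v | dt δ v + 1 ∈ I} (n k)`.  `prT {v | dt δ v ∈ I} (gs a c (ev k) * n) = gs a c (ev k) * prT {v | dt δ v + 1 ∈ I} n`: coefficient at `v`
(`gs_mul_coeff`, `prT_coeff`): the exponent `v - a i` has degree `dt δ v - 1`, so `dt δ (v - a i) + 1 ∈ I ↔ dt δ v ∈ I`.  `prT {v | dt δ v ∈ I} x = x`; `prT` is additive.
-/

set_option autoImplicit false

namespace Pool.Agent.H22.T6

open Finset AddMonoidAlgebra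
open Pool.Agent.H56.SMC Pool.Agent.H37.T5 Pool.Agent.H56.T5

/-- TRUNC -/
theorem trunc {R : Type} [CommRing R] {d : ℕ} {ι : Type} [Fintype ι] (a : ι → Lat d)
    (c : ι → R) (δ : Lat d) (hδ : ∀ i, dt δ (a i) = 1) (S : Set (Lat d)) (P : Finset (Fin d))
    (I : Set ℤ) (x : LP R d) (hx : Supp {v | dt δ v ∈ I} x) (n : Fin d → LP R d)
    (hn : ∀ k, Supp (SM S P {k}) (n k)) (h : x = ∑ k, gs a c (ev k) * n k) :
    ∃ n' : Fin d → LP R d, (∀ k, Supp (SM S P {k} ∩ {v | dt δ v + 1 ∈ I}) (n' k)) ∧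
      x = ∑ k, gs a c (ev k) * n' k := by
  classical
  refine ⟨fun k => prT {v | dt δ v + 1 ∈ I} (n k), fun k u hu => ?_, ?_⟩
  · rw [prT_coeff] at hu
    by_cases h1 : u ∈ {v : Lat d | dt δ v + 1 ∈ I}
    · rw [if_pos h1] at hu
      exact ⟨hn k u hu, h1⟩
    · rw [if_neg h1] at hu
      exact absurd rfl hu
  · apply lp_ext
    intro u
    rw [coeff_finsum]
    have hd : ∀ i, dt δ (u - a i) + 1 = dt δ u := by
      intro i
      rw [dt_sub, hδ]
      ring
    by_cases h1 : dt δ u ∈ I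
    · rw [h, coeff_finsum]
      refine Finset.sum_congr rfl fun k _ => ?_
      rw [gs_mul_coeff, gs_mul_coeff]
      refine Finset.sum_congr rfl fun i _ => ?_
      rw [prT_coeff, if_pos (by show dt δ (u - a i) + 1 ∈ I; rw [hd]; exact h1)]
    · have h2 : x.coeff u = 0 := by
        by_contra hc
        exact h1 (hx u hc)
      rw [h2]
      symm
      refine Finset.sum_eq_zero fun k _ => ?_
      rw [gs_mul_coeff]
      refine Finset.sum_eq_zero fun i _ => ?_
      rw [prT_coeff, if_neg (by show ¬ dt δ (u - a i) + 1 ∈ I; rw [hd]; exact h1), mul_zero]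

end Pool.Agent.H22.T6
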