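import Pool.Agent.H22.T6.SKY
import Pool.Agent.H22.T6.SID
import Pool.Agent.H22.T6.SRE
import Pool.Agent.H22.T6.STC

/-!
# SDC: the dimension count in characteristic `q`

Write `M0 = SM S P ∅`, `Mk = SM S P {k}`, `V = LP F d`, `FE` = the submodule of all elements supported in `M0 ∩ {δ ≤ E}` (finite dimensional: `hQ.fin`), `J` = the submodule of all
`∑_k D_k z_k`, `z_k` supported in `Mk`; `JE` = the span on the left side, `GE` = the span on the right side.
Proof.  (1) `JE ≤ J ⊓ FE` (`LL_Dop` with `K = ∅`: `D_k x^v` is supported in `M0`, `pv p (ev k) = p k = Y_k/m = 1` for `k ∈ P`; its degrees are `≤ E`).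
(2) `π : FE → V ⧸ J` the quotient map restricted to `FE`: `rank π + dim (J ⊓ FE) = dim FE`.
(3) `ψ : FE → V ⧸ J`, `x ↦ [Phq q u0 x]` (linear).  For `x ∈ FE`, `Phq q u0 x` is supported in `M0` (`phq_supp`), so by `redE` its class is the class of an element of `FE`:
`range ψ ≤ range π`.
(4) `ker ψ ≤ GE`: `Phq q u0 x ∈ J` gives `IqT … (Phq q u0 x)` by `key` (`Phq q u0 x` is supported in `Cs q u0`), so `x = ∑ gs a (c^q) (ev k) * n_k`, `n_k` in `Mk` (`ident`), and by `trunc`
(`I = {e | e ≤ E}`) we may take `n_k` of degree `≤ E - 1`; expand `n_k` in monomials.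
(5) `dim JE ≤ dim (J ⊓ FE) = dim FE - rank π ≤ dim FE - rank ψ = dim ker ψ ≤ dim GE` (`GE` is finite dimensional: finitely many `(k, v)` by `hQ.fin`).
-/

set_option autoImplicit false

namespace Pool.Agent.H22.T6

open Finset AddMonoidAlgebra
open Pool.Agent.H56.SMC Pool.Agent.H37.T5 Pool.Agent.H56.T5

/-- the submodule of the elements with support in `T` -/
private noncomputable def SDC_FE {F : Type} [Field F] {d : ℕ} (T : Set (Lat d)) :
    Submodule F (LP F d) where
  carrier := {x | Supp T x}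
  add_mem' := fun hx hy => Supp.add hx hy
  zero_mem' := Supp.zero T
  smul_mem' := fun r _ hx => Supp.smul r hx

private theorem SDC_expand {F : Type} [Field F] {d : ℕ} (x : LP F d) :
    x = ∑ v ∈ x.coeff.support, x.coeff v • (single v 1 : LP F d) := by
  apply lp_ext; intro u
  rw [coeff_finsum]
  simp only [coeff_smul', coeff_single']
  by_cases hu : x.coeff u = 0
  · rw [hu]
    symm
    apply Finset.sum_eq_zero
    intro v hv
    by_cases h : u = v
    · subst h; rw [hu, zero_mul]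
    · rw [if_neg h, mul_zero]
  · rw [Finset.sum_eq_single u]
    · rw [if_pos rfl, mul_one]
    · intro v _ hv
      rw [if_neg (Ne.symm hv), mul_zero]
    · intro h
      exact absurd (Finsupp.mem_support_iff.2 hu) h

private theorem SDC_fin {F : Type} [Field F] {d : ℕ} {T : Set (Lat d)} (hT : T.Finite) :
    FiniteDimensional F (SDC_FE (F := F) T) := by
  have h1 : FiniteDimensional F
      (Submodule.span F ((fun v : Lat d => (single v 1 : LP F d)) '' T)) :=
    FiniteDimensional.span_of_finite F (hT.image _)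
  refine Submodule.finiteDimensional_of_le (S₂ := Submodule.span F
    ((fun v : Lat d => (single v 1 : LP F d)) '' T)) ?_
  intro x hx
  rw [SDC_expand x]
  refine Submodule.sum_mem _ fun v hv => Submodule.smul_mem _ _ (Submodule.subset_span ?_)
  exact ⟨v, hx v (Finsupp.mem_support_iff.1 hv), rfl⟩

/-- the sums `∑ D_k z_k` -/
private noncomputable def SDC_J {F : Type} [Field F] {d : ℕ} {ι : Type} [Fintype ι]
    (p : Fin d → F) (a : ι → Lat d) (c : ι → F) (M : Fin d → Set (Lat d)) :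
    Submodule F (LP F d) where
  carrier := {x | ∃ z : Fin d → LP F d, (∀ k, Supp (M k) (z k)) ∧
    x = ∑ k, Dop p a c (ev k) (z k)}
  add_mem' := by
    rintro x y ⟨z, hz, rfl⟩ ⟨w, hw, rfl⟩
    refine ⟨fun k => z k + w k, fun k => (hz k).add (hw k), ?_⟩
    rw [← Finset.sum_add_distrib]
    exact Finset.sum_congr rfl fun k _ => (Dop_add p a c (ev k) (z k) (w k)).symm
  zero_mem' := by
    refine ⟨fun _ => 0, fun k => Supp.zero _, ?_⟩
    simp only [Dop_zero, Finset.sum_const_zero]
  smul_mem' := by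
    rintro r x ⟨z, hz, rfl⟩
    refine ⟨fun k => r • z k, fun k => (hz k).smul r, ?_⟩
    rw [Finset.smul_sum]
    exact Finset.sum_congr rfl fun k _ => (Dop_smul p a c (ev k) r (z k)).symm

/-- `Phq` as a linear map -/
private noncomputable def SDC_Ph {F : Type} [Field F] {d : ℕ} (q : ℕ) (u0 : Lat d) :
    LP F d →ₗ[F] LP F d where
  toFun := Phq q u0
  map_add' := fun x y => by
    unfold Phq
    rw [show (x + y).coeff = x.coeff + y.coeff from rfl, Finsupp.mapDomain_add]
    rfl
  map_smul' := fun r x => by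
    unfold Phq
    rw [show (r • x).coeff = r • x.coeff from rfl, Finsupp.mapDomain_smul]
    rfl

private theorem SDC_Ph_apply {F : Type} [Field F] {d : ℕ} (q : ℕ) (u0 : Lat d) (x : LP F d) :
    SDC_Ph q u0 x = Phq q u0 x := rfl

/-- linear algebra -/
private theorem SDC_lin {F V : Type} [Field F] [AddCommGroup V] [Module F V]
    (FE J JE GE : Submodule F V) [FiniteDimensional F FE] [FiniteDimensional F GE]
    (Ph : V →ₗ[F] V) (h1 : JE ≤ J) (h2 : JE ≤ FE)
    (h3 : ∀ x ∈ FE, ∃ y ∈ FE, Ph x - y ∈ J) (h4 : ∀ x ∈ FE, Ph x ∈ J → x ∈ GE) :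
    Module.finrank F JE ≤ Module.finrank F GE := by
  obtain ⟨π, hπ⟩ : ∃ π : FE →ₗ[F] V ⧸ J, π = J.mkQ.comp FE.subtype := ⟨_, rfl⟩
  obtain ⟨ψ, hψ⟩ : ∃ ψ : FE →ₗ[F] V ⧸ J, ψ = J.mkQ.comp (Ph.comp FE.subtype) := ⟨_, rfl⟩
  have e1 := LinearMap.finrank_range_add_finrank_ker π
  have e2 := LinearMap.finrank_range_add_finrank_ker ψ
  have e3 : LinearMap.range ψ ≤ LinearMap.range π := by
    rintro _ ⟨x, rfl⟩
    obtain ⟨y, hy, hxy⟩ := h3 x x.2
    refine ⟨⟨y, hy⟩, ?_⟩
    rw [hπ, hψ]
    show J.mkQ y = J.mkQ (Ph x)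
    rw [Submodule.mkQ_apply, Submodule.mkQ_apply, eq_comm, Submodule.Quotient.eq]
    exact hxy
  have e4 : Module.finrank F (LinearMap.range ψ) ≤ Module.finrank F (LinearMap.range π) :=
    Submodule.finrank_mono e3
  have e5 : Module.finrank F JE ≤ Module.finrank F (LinearMap.ker π) := by
    have g1 : JE.comap FE.subtype ≤ LinearMap.ker π := by
      intro x hx
      rw [LinearMap.mem_ker, hπ]
      show J.mkQ (x : V) = 0
      rw [Submodule.mkQ_apply, Submodule.Quotient.mk_eq_zero]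
      exact h1 hx
    rw [← (Submodule.comapSubtypeEquivOfLe h2).finrank_eq]
    exact Submodule.finrank_mono g1
  have e6 : Module.finrank F (LinearMap.ker ψ) ≤ Module.finrank F GE := by
    have g1 : (LinearMap.ker ψ).map FE.subtype ≤ GE := by
      rintro _ ⟨x, hx, rfl⟩
      refine h4 x x.2 ?_
      have hx' : ψ x = 0 := hx
      rw [hψ] at hx'
      have hx2 : J.mkQ (Ph x) = 0 := hx'
      rwa [Submodule.mkQ_apply, Submodule.Quotient.mk_eq_zero] at hx2
    rw [(Submodule.equivMapOfInjective FE.subtype FE.injective_subtype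
      (LinearMap.ker ψ)).finrank_eq]
    exact Submodule.finrank_mono g1
  omega

private theorem SDC_Dop_supp {F : Type} [Field F] {d : ℕ} {ι : Type}
    [Fintype ι] (q : ℕ) (a : ι → Lat d) (c : ι → F) (δ : Lat d) (S : Set (Lat d))
    (P : Finset (Fin d)) (m : ℤ) (Y u0 : Lat d) (hQ : QD q a c δ S P m Y u0) (E : ℤ) (k : Fin d)
    (v : Lat d) (hv : v ∈ SM S P {k}) (hd : dt δ v ≤ E - 1) :
    Supp (SM S P ∅ ∩ {v | dt δ v ≤ E}) (Dop (pY m Y) a c (ev k) (single v 1)) := by
  have h1 : Supp (S ∩ LL ev P ∅) (Dop (pY m Y) a c (ev k) (single v 1)) := by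
    refine LL_Dop (pY m Y) a c ev P ∅ ?_ ?_ S hQ.add k (single v 1) ?_
    · intro j hj
      have h2 : pv (pY (F := F) m Y) (ev j) = pY m Y j := by
        unfold pv ev
        rw [Finset.sum_eq_single j]
        · rw [Pi.single_eq_same, Int.cast_one, one_mul]
        · intro b _ hb
          rw [Pi.single_eq_of_ne hb, Int.cast_zero, zero_mul]
        · intro h
          exact absurd (Finset.mem_univ j) h
      rw [h2]
      unfold pY
      rw [hQ.YP j hj, div_self hQ.mF]
    · intro j hj i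
      rw [dt_ev]
      exact hQ.Pa j hj i
    · rw [insert_empty_eq]
      exact Supp.single hv 1
  have h2 : Supp {v | dt δ v ≤ E} (Dop (pY m Y) a c (ev k) (single v 1)) := by
    unfold Dop
    refine Supp.sub ?_ ?_
    · refine Supp.dg _ (Supp.single ?_ 1)
      show dt δ v ≤ E
      omega
    · intro u hu
      rw [gs_mul_coeff] at hu
      obtain ⟨i, -, hi⟩ := exists_ne_zero_of_sum_ne_zero hu
      have h3 : (single v 1 : LP F d).coeff (u - a i) ≠ 0 := fun h0 => hi (by rw [h0, mul_zero])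
      rw [coeff_single'] at h3
      have h4 : u - a i = v := by
        by_contra h5
        rw [if_neg h5] at h3
        exact h3 rfl
      show dt δ u ≤ E
      have h5 : dt δ u = dt δ v + 1 := by
        rw [← h4, dt_sub, hQ.de i]
        ring
      omega
  exact fun u hu => ⟨h1 u hu, h2 u hu⟩

/-- CHARQ -/
theorem charq (q : ℕ) [Fact q.Prime] {F : Type} [Field F] [CharP F q] {d : ℕ} {ι : Type}
    [Fintype ι] (a : ι → Lat d) (c : ι → F) (δ : Lat d) (S : Set (Lat d)) (P : Finset (Fin d))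
    (m : ℤ) (Y u0 : Lat d) (hQ : QD q a c δ S P m Y u0) (E : ℤ)
    (hbig : ∀ u ∈ SM S P ∅, E < dt δ u → ∃ z : Fin d → LP F d,
      (∀ k, Supp (SM S P {k}) (z k)) ∧ (∀ k, Supp (DG δ (dt δ u - 1)) (z k)) ∧
      (single u 1 : LP F d) = ∑ k, gs a c (ev k) * z k) :
    Module.finrank F (Submodule.span F {x : LP F d | ∃ k, ∃ v ∈ SM S P {k}, dt δ v ≤ E - 1 ∧
        x = Dop (pY m Y) a c (ev k) (single v 1)}) ≤
      Module.finrank F (Submodule.span F {x : LP F d | ∃ k, ∃ v ∈ SM S P {k}, dt δ v ≤ E - 1 ∧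
        x = gs a (fun i => c i ^ q) (ev k) * single v 1}) := by
  have hfe : FiniteDimensional F (SDC_FE (F := F) (SM S P ∅ ∩ {v | dt δ v ≤ E})) :=
    SDC_fin ((hQ.fin E).subset fun u hu => ⟨hu.1.1, hu.2⟩)
  have hge : FiniteDimensional F (Submodule.span F {x : LP F d | ∃ k, ∃ v ∈ SM S P {k},
      dt δ v ≤ E - 1 ∧ x = gs a (fun i => c i ^ q) (ev k) * single v 1}) := by
    refine FiniteDimensional.span_of_finite F ?_
    have h1 : ((fun kv : Fin d × Lat d => gs a (fun i => c i ^ q) (ev kv.1) *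
        (single kv.2 1 : LP F d)) '' ((Set.univ : Set (Fin d)) ×ˢ
          {u | u ∈ S ∧ dt δ u ≤ E - 1})).Finite :=
      (Set.finite_univ.prod (hQ.fin (E - 1))).image _
    refine h1.subset ?_
    rintro x ⟨k, v, hv, hd, rfl⟩
    exact ⟨(k, v), ⟨Set.mem_univ _, hv.1, hd⟩, rfl⟩
  refine SDC_lin (SDC_FE (F := F) (SM S P ∅ ∩ {v | dt δ v ≤ E}))
    (SDC_J (pY m Y) a c (fun k => SM S P {k})) _ _ (SDC_Ph q u0) ?_ ?_ ?_ ?_
  · rw [Submodule.span_le]
    rintro x ⟨k, v, hv, hd, rfl⟩
    refine ⟨fun j => if j = k then single v 1 else 0, fun j => ?_, ?_⟩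
    · show Supp (SM S P {j}) (if j = k then single v 1 else 0)
      by_cases hj : j = k
      · subst hj
        rw [if_pos rfl]
        exact Supp.single hv 1
      · rw [if_neg hj]
        exact Supp.zero _
    · rw [Finset.sum_eq_single k]
      · beta_reduce
        rw [if_pos rfl]
      · intro j _ hj
        beta_reduce
        rw [if_neg hj, Dop_zero]
      · intro h
        exact absurd (Finset.mem_univ k) h
  · rw [Submodule.span_le]
    rintro x ⟨k, v, hv, hd, rfl⟩
    exact SDC_Dop_supp q a c δ S P m Y u0 hQ E k v hv hd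
  · intro x hx
    have h1 : Supp (SM S P ∅) x := fun u hu => (hx u hu).1
    have h2 : Supp (SM S P ∅) (Phq q u0 x) := fun u hu =>
      (phq_supp q a c δ S P ∅ m Y u0 hQ x h1 u hu).1
    obtain ⟨y, z, hy, hz, hyz⟩ := redE q a c δ S P m Y u0 hQ E hbig (Phq q u0 x) h2
    refine ⟨y, hy, z, hz, ?_⟩
    rw [SDC_Ph_apply, hyz, add_sub_cancel_left]
  · rintro x hx ⟨z, hz, hxz⟩
    rw [SDC_Ph_apply] at hxz
    have h1 : Supp (SM S P ∅) x := fun u hu => (hx u hu).1
    have h2 : Supp (Cs q u0) (Phq q u0 x) := fun u hu =>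
      (phq_supp q a c δ S P ∅ m Y u0 hQ x h1 u hu).2
    have h3 := key q a c δ S P m Y u0 hQ (Phq q u0 x) h2 z hz hxz
    obtain ⟨n, hn, hxn⟩ := ident q a c δ S P m Y u0 hQ x h3
    obtain ⟨n', hn', hxn'⟩ := trunc a (fun i => c i ^ q) δ hQ.de S P {e | e ≤ E} x
      (fun u hu => (hx u hu).2) n hn hxn
    rw [hxn']
    refine Submodule.sum_mem _ fun k _ => ?_
    have h4 : gs a (fun i => c i ^ q) (ev k) * n' k =
        ∑ v ∈ (n' k).coeff.support, (n' k).coeff v •
          (gs a (fun i => c i ^ q) (ev k) * (single v 1 : LP F d)) := by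
      conv_lhs => rw [SDC_expand (n' k), Finset.mul_sum]
      exact Finset.sum_congr rfl fun v _ => mul_smul_comm _ _ _
    rw [h4]
    refine Submodule.sum_mem _ fun v hv => Submodule.smul_mem _ _ (Submodule.subset_span ?_)
    have h5 := hn' k v (Finsupp.mem_support_iff.1 hv)
    have h6 : dt δ v + 1 ≤ E := h5.2
    exact ⟨k, v, h5.1, by omega, rfl⟩

end Pool.Agent.H22.T6
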