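import Pool.Agent.H22.T6.Defs

/-!
# T6, theorem S (strictness): definitions

`SM S P K` = the points of `S` allowed for the components `K` (mixed supports for `P`);
`DL` = the operator `D_k` as a linear map; `gq` = the symbol `∑ c_i^q a_{ik} x^{q a_i}`;
`PiL = ∏_k (1 - D_k^{q-1})`; `QD` = the data in characteristic `q`: `p = Y/m`, `u0 = (q-1)Y/m`.
-/

set_option autoImplicit false

namespace Pool.Agent.H22.T6

open Finset AddMonoidAlgebra
open Pool.Agent.H56.SMC Pool.Agent.H37.T5 Pool.Agent.H56.T5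

/-- The points of `S` allowed for the components `K`. -/
def SM {d : ℕ} (S : Set (Lat d)) (P K : Finset (Fin d)) : Set (Lat d) := S ∩ LL ev P K

/-- The points of degree `e`. -/
def DG {d : ℕ} (δ : Lat d) (e : ℤ) : Set (Lat d) := {v | dt δ v = e}

section
variable {R : Type} [CommRing R] {d : ℕ} {ι : Type} [Fintype ι]

/-- The operator `D_k` as a linear map. -/
noncomputable def DL (p : Fin d → R) (a : ι → Lat d) (c : ι → R) (k : Fin d) :
    LP R d →ₗ[R] LP R d where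
  toFun := Dop p a c (ev k)
  map_add' := Dop_add p a c (ev k)
  map_smul' := fun r x => Dop_smul p a c (ev k) r x

theorem DL_apply (p : Fin d → R) (a : ι → Lat d) (c : ι → R) (k : Fin d) (x : LP R d) :
    DL p a c k x = Dop p a c (ev k) x := rfl

/-- The symbol `∑ c_i^q a_{ik} x^{q a_i}`. -/
noncomputable def gq (q : ℕ) (a : ι → Lat d) (c : ι → R) (k : Fin d) : LP R d :=
  ∑ i, single ((q : ℤ) • a i) (c i ^ q * (a i k : R))

/-- `∏_k (1 - D_k^{q-1})`. -/
noncomputable def PiL (q : ℕ) (p : Fin d → R) (a : ι → Lat d) (c : ι → R) :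
    Module.End R (LP R d) :=
  ((List.finRange d).map (fun k => 1 - (DL p a c k : Module.End R (LP R d)) ^ (q - 1))).prod

open Classical in
/-- The projection onto the monomials in `T`. -/
noncomputable def prT (T : Set (Lat d)) (z : LP R d) : LP R d :=
  ofCoeff (Finsupp.filter (· ∈ T) z.coeff)

open Classical in
theorem prT_coeff (T : Set (Lat d)) (z : LP R d) (u : Lat d) :
    (prT T z).coeff u = if u ∈ T then z.coeff u else 0 := by
  show (Finsupp.filter (· ∈ T) z.coeff) u = _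
  rw [Finsupp.filter_apply]

/-- The coset `u0 + qℤ^d`. -/
def Cs (q : ℕ) (u0 : Lat d) : Set (Lat d) := {u | ∃ u' : Lat d, u = u0 + (q : ℤ) • u'}

/-- `e_{u'} ↦ e_{u0 + q u'}`. -/
noncomputable def Phq (q : ℕ) (u0 : Lat d) (z : LP R d) : LP R d :=
  ofCoeff (Finsupp.mapDomain (fun u' => u0 + (q : ℤ) • u') z.coeff)

/-- The matrix of the operators `D_k` on the monomials `x^v`, `(k, v) ∈ C`. -/
noncomputable def TMx (p : Fin d → R) (a : ι → Lat d) (c : ι → R) (Rw : Finset (Lat d))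
    (C : Finset (Fin d × Lat d)) : Matrix Rw C R :=
  Matrix.of fun u kv => (Dop p a c (ev kv.1.1) (single kv.1.2 1)).coeff u.1

/-- The matrix of the symbols `g_k` on the monomials `x^v`, `(k, v) ∈ C`. -/
noncomputable def GMx (a : ι → Lat d) (c : ι → R) (Rw : Finset (Lat d))
    (C : Finset (Fin d × Lat d)) : Matrix Rw C R :=
  Matrix.of fun u kv => (gs a c (ev kv.1.1) * single kv.1.2 1).coeff u.1

end

/-- `p_k = Y_k/m`. -/
noncomputable def pY {F : Type} [Field F] {d : ℕ} (m : ℤ) (Y : Lat d) (k : Fin d) : F :=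
  (Y k : F) / (m : F)

/-- The data in characteristic `q`. -/
structure QD (q : ℕ) {F : Type} [Field F] {d : ℕ} {ι : Type} (a : ι → Lat d) (c : ι → F)
    (δ : Lat d) (S : Set (Lat d)) (P : Finset (Fin d)) (m : ℤ) (Y u0 : Lat d) : Prop where
  m0 : 0 < m
  hu0 : m • u0 = ((q : ℤ) - 1) • Y
  YP : ∀ k ∈ P, Y k = m
  mF : (m : F) ≠ 0
  de : ∀ i, dt δ (a i) = 1
  add : ∀ u ∈ S, ∀ i, c i ≠ 0 → u + a i ∈ S
  Pa : ∀ k ∈ P, ∀ i, 0 ≤ a i k
  cos : ∀ u, u0 + (q : ℤ) • u ∈ S ↔ u ∈ S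
  fin : ∀ E : ℤ, {u | u ∈ S ∧ dt δ u ≤ E}.Finite

/-- `x = ∑_k g_k^{(q)} n_k` with `n_k` supported in `SM S P {k} ∩ T`. -/
def IqT (q : ℕ) {F : Type} [Field F] {d : ℕ} {ι : Type} [Fintype ι] (a : ι → Lat d) (c : ι → F)
    (S : Set (Lat d)) (P : Finset (Fin d)) (T : Set (Lat d)) (x : LP F d) : Prop :=
  ∃ n : Fin d → LP F d, (∀ k, Supp (SM S P {k} ∩ T) (n k)) ∧ x = ∑ k, gq q a c k * n k

end Pool.Agent.H22.T6
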