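import Pool.Agent.H22.T6.SRK
import Pool.Agent.H56.SMC.TRRANK

/-!
# SGM: a good rational point with a large minor

Proof.  `trrank_minor (TMx p a c Rw C) _ rfl` gives `I`, `J` with nonzero minor.  Let `M = TMx (fun k => MvPolynomial.X k) a (fun i => MvPolynomial.C (c i)) Rw C` over
`MvPolynomial (Fin d) ℂ`, `Δ = (M.submatrix I J).det`.  For every `p' : Fin d → ℂ`, `MvPolynomial.eval p' Δ = ((TMx p' a c Rw C).submatrix I J).det` (`RingHom.map_det`, `TMx_map` for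
`MvPolynomial.eval p'`, `MvPolynomial.eval_X`, `eval_C`).  So `eval p Δ ≠ 0` and `hgood Δ` gives `(m, Y)`.
-/

set_option autoImplicit false

namespace Pool.Agent.H22.T6

open Finset AddMonoidAlgebra
open Pool.Agent.H56.SMC Pool.Agent.H37.T5 Pool.Agent.H56.T5

theorem SGM_eval {d : ℕ} {ι : Type} [Fintype ι] (a : ι → Lat d) (c : ι → ℂ)
    (Rw : Finset (Lat d)) (C : Finset (Fin d × Lat d)) (r : ℕ) (I : Fin r → Rw) (J : Fin r → C)
    (p : Fin d → ℂ) :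
    MvPolynomial.eval p (((TMx (fun k => MvPolynomial.X k) a
      (fun i => (MvPolynomial.C (c i) : MvPolynomial (Fin d) ℂ)) Rw C).submatrix I J).det) =
      ((TMx p a c Rw C).submatrix I J).det := by
  have h := TMx_map (MvPolynomial.eval p) (fun k => MvPolynomial.X k) a
    (fun i => (MvPolynomial.C (c i) : MvPolynomial (Fin d) ℂ)) Rw C
  simp only [MvPolynomial.eval_X, MvPolynomial.eval_C] at h
  rw [RingHom.map_det, ← h]
  rfl

/-- GMIN -/
theorem gmin {d : ℕ} {ι κ : Type} [Fintype ι] (a : ι → Lat d) (c : ι → ℂ) (h : κ → Lat d)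
    (H : Lat d) (P : Finset (Fin d)) (p : Fin d → ℂ) (S : Set (Lat d))
    (hgood : ∀ Δ : MvPolynomial (Fin d) ℂ, MvPolynomial.eval p Δ ≠ 0 →
      ∃ (m : ℤ) (Y : Lat d), 0 < m ∧ Lay h H m Y = S ∧ (∀ k ∈ P, Y k = m) ∧
        MvPolynomial.eval (fun j => (Y j : ℂ) / (m : ℂ)) Δ ≠ 0)
    (Rw : Finset (Lat d)) (C : Finset (Fin d × Lat d)) :
    ∃ (m : ℤ) (Y : Lat d), 0 < m ∧ Lay h H m Y = S ∧ (∀ k ∈ P, Y k = m) ∧
      ∃ (I : Fin (TMx p a c Rw C).rank → Rw) (J : Fin (TMx p a c Rw C).rank → C),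
        ((TMx (fun j => (Y j : ℂ) / (m : ℂ)) a c Rw C).submatrix I J).det ≠ 0 := by
  obtain ⟨I, J, hIJ⟩ := trrank_minor (TMx p a c Rw C) _ rfl
  obtain ⟨m, Y, h1, h2, h3, h4⟩ := hgood (((TMx (fun k => MvPolynomial.X k) a
      (fun i => (MvPolynomial.C (c i) : MvPolynomial (Fin d) ℂ)) Rw C).submatrix I J).det)
    (by rw [SGM_eval]; exact hIJ)
  rw [SGM_eval] at h4
  exact ⟨m, Y, h1, h2, h3, I, J, h4⟩

end Pool.Agent.H22.T6
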