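import Pool.Agent.H22.T6.SDefs
import Pool.Agent.H56.SMC.SFG

/-!
# SHB: the certificates give the hypothesis `hbig`; lemmas on `Lay`

Proof.  `hbig_cert`: `single u 1 = single (u - N • a i) 1 * single (N • a i) 1 = ∑ gs a c (ev k) * (single (u - N • a i) 1 * z k)`.  `z' k = single (u - N • a i) 1 * z k`: its exponents are
`(u - N a i) + v`, `v ∈ CC`, `dt δ v = N - 1`: in `S` (`hSC`), in `LL ev P {k}` (`LL_add`, `dt_ev`, `hPC`; `LL_empty`), degree `dt δ u - N + N - 1`.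
`lay_add`: `m (u + v) + Y = (m u + Y) + m v`.  `lay_cos`: `m (u0 + q u) + Y = (q-1) Y + Y + q m u = q (m u + Y)`, `q > 0`.
`lay_fin`: `u ↦ m u + Y` is injective and maps the set into `{v ∈ Sset h, dt δ v ≤ m E + dt δ Y}`, finite by `sfin` (`Pool/Agent/H56/SMC/SFG.lean`, its hypothesis `hpos` follows from
`hfac`, `hδ` as in the proof of `fl` in `FL.lean`).
-/

set_option autoImplicit false

namespace Pool.Agent.H22.T6

open Finset AddMonoidAlgebra
open Pool.Agent.H56.SMC Pool.Agent.H37.T5 Pool.Agent.H56.T5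

/-- HBIG -/
theorem hbig_cert {R : Type} [CommRing R] {d : ℕ} {ι : Type} [Fintype ι] (a : ι → Lat d)
    (c : ι → R) (δ : Lat d) (hδ : ∀ i, dt δ (a i) = 1) (CC S : Set (Lat d))
    (P : Finset (Fin d)) (hPC : ∀ v ∈ CC, ∀ k ∈ P, 0 ≤ v k) (hSC : ∀ u ∈ S, ∀ v ∈ CC, u + v ∈ S)
    (N : ℕ) (i : ι) (z : Fin d → LP R d) (hz : ∀ k, Supp (CC ∩ DG δ (N - 1)) (z k))
    (hc : (single (N • a i) 1 : LP R d) = ∑ k, gs a c (ev k) * z k) (u : Lat d)
    (hu : u - N • a i ∈ SM S P ∅) :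
    ∃ z' : Fin d → LP R d, (∀ k, Supp (SM S P {k}) (z' k)) ∧
      (∀ k, Supp (DG δ (dt δ u - 1)) (z' k)) ∧
      (single u 1 : LP R d) = ∑ k, gs a c (ev k) * z' k := by
  have hdec : ∀ k w, ((single (u - N • a i) 1 : LP R d) * z k).coeff w ≠ 0 →
      w - (u - N • a i) ∈ CC ∩ DG δ (N - 1) := by
    intro k w hw
    rw [single_mul_coeff, one_mul] at hw
    exact hz k _ hw
  refine ⟨fun k => (single (u - N • a i) 1 : LP R d) * z k, ?_, ?_, ?_⟩
  · intro k w hw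
    obtain ⟨hv, _⟩ := hdec k w hw
    have e : w = (u - N • a i) + (w - (u - N • a i)) := by abel
    rw [e]
    refine ⟨hSC _ hu.1 _ hv, ?_⟩
    refine LL_add ev P {k} _ ?_ _ (LL_empty ev P {k} hu.2)
    intro j hj
    rw [dt_ev]
    exact hPC _ hv j hj
  · intro k w hw
    obtain ⟨_, hv⟩ := hdec k w hw
    have hv' : dt δ (w - (u - N • a i)) = (N : ℤ) - 1 := hv
    show dt δ w = dt δ u - 1
    rw [dt_sub, dt_sub, dt_nsmul, hδ i] at hv'
    linarith
  · have e : (single u 1 : LP R d) =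
        (single (u - N • a i) 1 : LP R d) * (single (N • a i) 1 : LP R d) := by
      rw [AddMonoidAlgebra.single_mul_single, mul_one, sub_add_cancel]
    rw [e, hc, Finset.mul_sum]
    exact Finset.sum_congr rfl fun k _ => by ring

theorem lay_add {d : ℕ} {κ : Type} (h : κ → Lat d) (H : Lat d) (m : ℤ) (hm : 0 < m)
    (Y u v : Lat d) (hu : u ∈ Lay h H m Y) (hv : v ∈ Sset h) (hv0 : dt H v = 0) :
    u + v ∈ Lay h H m Y := by
  have e : ∀ g : Lat d, dt g (m • (u + v) + Y) = dt g (m • u + Y) + m * dt g v := by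
    intro g
    rw [smul_add, dt_add, dt_add, dt_add, dt_zsmul, dt_zsmul]
    ring
  refine ⟨?_, ?_⟩
  · intro w
    rw [e]
    have h1 := hu.1 w
    have h2 := hv w
    have h3 : 0 ≤ m * dt (h w) v := mul_nonneg hm.le h2
    linarith
  · rw [e, hu.2, hv0, mul_zero, add_zero]

theorem lay_cos {d : ℕ} {κ : Type} (h : κ → Lat d) (H : Lat d) (m : ℤ) (Y u0 : Lat d) (q : ℤ)
    (hq : 0 < q) (hu0 : m • u0 = (q - 1) • Y) (u : Lat d) :
    u0 + q • u ∈ Lay h H m Y ↔ u ∈ Lay h H m Y := by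
  have e : ∀ g : Lat d, dt g (m • (u0 + q • u) + Y) = q * dt g (m • u + Y) := by
    intro g
    have e1 : dt g (m • u0) = (q - 1) * dt g Y := by rw [hu0, dt_zsmul]
    rw [smul_add, dt_add, dt_add, e1, dt_zsmul, dt_zsmul, dt_add, dt_zsmul]
    ring
  constructor
  · rintro ⟨h1, h2⟩
    refine ⟨?_, ?_⟩
    · intro w
      have h3 := h1 w
      rw [e] at h3
      exact nonneg_of_mul_nonneg_right h3 hq
    · rw [e] at h2
      exact (mul_eq_zero.1 h2).resolve_left hq.ne'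
  · rintro ⟨h1, h2⟩
    refine ⟨?_, ?_⟩
    · intro w
      rw [e]
      exact mul_nonneg hq.le (h1 w)
    · rw [e, h2, mul_zero]

theorem SHB_pos {d : ℕ} {ι κ : Type} [Fintype ι] (a : ι → Lat d) (h : κ → Lat d)
    (δ : Lat d) (hδ : ∀ i, dt δ (a i) = 1)
    (hfac : ∀ u ∈ Sset h, ∃ N : ℕ, 0 < N ∧ ∃ n : ι → ℕ, N • u = ∑ i, n i • a i) :
    ∀ u ∈ Sset h, u ≠ 0 → 0 < dt δ u := by
  intro v hv hv0
  obtain ⟨N, hN, n, hn⟩ := hfac v hv
  have h1 : (N : ℤ) * dt δ v = ∑ i, (n i : ℤ) := by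
    rw [← dt_nsmul, hn, dt_sum]
    refine sum_congr rfl fun i _ => ?_
    rw [dt_nsmul, hδ i, mul_one]
  have hNZ : (0 : ℤ) < N := by exact_mod_cast hN
  by_contra hcon
  push Not at hcon
  have h2 : ∑ i, (n i : ℤ) ≤ 0 := by
    rw [← h1]
    exact mul_nonpos_of_nonneg_of_nonpos hNZ.le hcon
  have h3 : ∀ i, n i = 0 := by
    intro i
    have h4 := (sum_eq_zero_iff_of_nonneg (s := univ) (f := fun i => (n i : ℤ))
      (fun i _ => by positivity)).1 (le_antisymm h2 (sum_nonneg fun i _ => by positivity)) i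
      (mem_univ i)
    exact_mod_cast h4
  have h5 : N • v = 0 := by
    rw [hn]
    exact sum_eq_zero fun i _ => by rw [h3 i, zero_smul]
  apply hv0
  funext j
  have h6 := congrFun h5 j
  rw [Pi.smul_apply, Pi.zero_apply, nsmul_eq_mul] at h6
  exact (mul_eq_zero.1 h6).resolve_left hNZ.ne'

theorem lay_fin {d : ℕ} {ι κ : Type} [Fintype ι] [Fintype κ] (a : ι → Lat d) (h : κ → Lat d)
    (δ : Lat d) (hδ : ∀ i, dt δ (a i) = 1)
    (hfac : ∀ u ∈ Sset h, ∃ N : ℕ, 0 < N ∧ ∃ n : ι → ℕ, N • u = ∑ i, n i • a i)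
    (H : Lat d) (m : ℤ) (hm : 0 < m) (Y : Lat d) (E : ℤ) :
    {u | u ∈ Lay h H m Y ∧ dt δ u ≤ E}.Finite := by
  have hfin := sfin h δ (SHB_pos a h δ hδ hfac) (m * E + dt δ Y)
  have hinj : Set.InjOn (fun u : Lat d => m • u + Y)
      ((fun u : Lat d => m • u + Y) ⁻¹' {u | u ∈ Sset h ∧ dt δ u ≤ m * E + dt δ Y}) := by
    intro u _ v _ huv
    have h1 : m • u = m • v := add_right_cancel huv
    funext j
    have h2 := congrFun h1 j
    rw [Pi.smul_apply, Pi.smul_apply, smul_eq_mul, smul_eq_mul] at h2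
    exact mul_left_cancel₀ hm.ne' h2
  refine (hfin.preimage hinj).subset ?_
  rintro u ⟨hu, huE⟩
  refine ⟨hu.1, ?_⟩
  show dt δ (m • u + Y) ≤ m * E + dt δ Y
  rw [dt_add, dt_zsmul]
  have := mul_le_mul_of_nonneg_left huE hm.le
  linarith

end Pool.Agent.H22.T6
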