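import Pool.Agent.H56.SMC.TRHOM

/-!
# SHM: a finitely generated subring of `ℂ` maps to fields of characteristic `q ≡ 1 mod m`

Proof.  `A = Algebra.adjoin ℤ T`.  (1) `Aℚ = Algebra.adjoin ℚ T` is a `ℚ`-algebra of finite type and nontrivial; `𝔪` a maximal ideal, `K = Aℚ ⧸ 𝔪` is a field, finite over `ℚ`
(`finite_of_finite_type_of_isJacobsonRing ℚ K`, as in `trhom`).  The ring homomorphism `φ0 : A → K` (`A ⊆ Aℚ` as subrings of `ℂ`: `Algebra.adjoin_le`..., inclusion then the quotient map).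
(2) Every `φ0 t`, `t ∈ T`, is algebraic over `ℚ`, hence over `ℤ`: there is `D_t ≠ 0` in `ℤ` with `D_t • φ0 t` integral over `ℤ` (`exists_integral_multiple` or
`IsLocalization`/`IsAlgebraic.exists_integral_multiple`).  `D = ∏ D_t`.
(3) For every `x ∈ A` there is `j : ℕ` with `D^j φ0 x` integral over `ℤ` (`Algebra.adjoin_induction`: sums: the maximum; products: the sum of the exponents; `IsIntegral.add`, `.mul`).
(4) Let `q` be a prime with `q > |D|` and `q ≡ 1 mod m` (`Nat.exists_prime_gt_modEq_one`).  `q` is not a unit of `A`: if `q x = 1` then `D^j/q ∈ K` is integral over `ℤ`; it is the image of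
a rational number, so the rational number `D^j/q` is integral over `ℤ` (`isIntegral_algebraMap_iff`, injectivity of `ℚ → K`), hence an integer
(`IsIntegrallyClosed.isIntegral_iff`), so `q ∣ D^j`, `q ∣ D`, a contradiction (`D ≠ 0`, `|D| < q`).
(5) So `span {q} ≠ ⊤` in `A`; `𝔫` a maximal ideal containing `q` (`Ideal.exists_le_maximal`), `F = A ⧸ 𝔫` is a field with `(q : F) = 0`, so `CharP F q` (`q` prime:
`CharP.ofPrime...`/`(CharP.charP_iff_prime_eq_zero hq).2`).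
-/

set_option autoImplicit false

namespace Pool.Agent.H22.T6

open Finset AddMonoidAlgebra
open Pool.Agent.H56.SMC

theorem SHM_aux (T : Finset ℂ) (K : Type) [Field K] [Algebra ℚ K] [Module.Finite ℚ K]
    (φ : (Algebra.adjoin ℤ (T : Set ℂ)) →+* K) : ∃ D : ℤ, D ≠ 0 ∧ ∀ q : ℕ, q.Prime → D.natAbs < q →
    ¬ IsUnit ((q : ℕ) : Algebra.adjoin ℤ (T : Set ℂ)) := by
  have hZQ : Algebra.IsAlgebraic ℤ ℚ := IsLocalization.isAlgebraic ℚ (nonZeroDivisors ℤ)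
  have hQK : Algebra.IsAlgebraic ℚ K := inferInstance
  have hZK : Algebra.IsAlgebraic ℤ K := Algebra.IsAlgebraic.trans ℤ ℚ K
  classical
  have hmem : ∀ t : {x // x ∈ T}, t.1 ∈ Algebra.adjoin ℤ (T : Set ℂ) :=
    fun t => Algebra.subset_adjoin t.2
  let f : {x // x ∈ T} → K := fun t => φ ⟨t.1, hmem t⟩
  obtain ⟨D, hD0, hD⟩ := Algebra.IsAlgebraic.exists_integral_multiples ℤ (T.attach.image f)
  refine ⟨D, hD0, ?_⟩
  have key : ∀ x : ℂ, ∀ hx : x ∈ Algebra.adjoin ℤ (T : Set ℂ),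
      ∃ j : ℕ, IsIntegral ℤ ((D : K) ^ j * φ ⟨x, hx⟩) := by
    intro x hx
    have hDi : ∀ j : ℕ, IsIntegral ℤ ((D : K) ^ j) := fun j => (isIntegral_algebraMap (x := D)).pow j
    induction hx using Algebra.adjoin_induction with
    | mem x hx =>
      refine ⟨1, ?_⟩
      have h1 := hD (φ ⟨x, Algebra.subset_adjoin hx⟩) (Finset.mem_image.2 ⟨⟨x, hx⟩, Finset.mem_attach _ _, rfl⟩)
      rw [pow_one]
      rwa [zsmul_eq_mul] at h1
    | algebraMap r =>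
      refine ⟨0, ?_⟩
      rw [pow_zero, one_mul]
      have h1 : φ ⟨algebraMap ℤ ℂ r, Subalgebra.algebraMap_mem _ r⟩ = algebraMap ℤ K r := by
        have : (⟨algebraMap ℤ ℂ r, Subalgebra.algebraMap_mem _ r⟩ : Algebra.adjoin ℤ (T : Set ℂ)) =
          ((r : ℤ) : Algebra.adjoin ℤ (T : Set ℂ)) := by
          apply Subtype.ext
          simp
        rw [this, map_intCast]
        rfl
      rw [h1]
      exact isIntegral_algebraMap
    | add x y hx hy ihx ihy =>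
      obtain ⟨i, hi⟩ := ihx
      obtain ⟨j, hj⟩ := ihy
      refine ⟨i + j, ?_⟩
      have h1 : (⟨x + y, add_mem hx hy⟩ : Algebra.adjoin ℤ (T : Set ℂ)) = ⟨x, hx⟩ + ⟨y, hy⟩ := rfl
      rw [h1, map_add]
      have h2 : (D : K) ^ (i + j) * (φ ⟨x, hx⟩ + φ ⟨y, hy⟩) =
          (D : K) ^ j * ((D : K) ^ i * φ ⟨x, hx⟩) + (D : K) ^ i * ((D : K) ^ j * φ ⟨y, hy⟩) := by ring
      rw [h2]
      exact ((hDi j).mul hi).add ((hDi i).mul hj)
    | mul x y hx hy ihx ihy =>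
      obtain ⟨i, hi⟩ := ihx
      obtain ⟨j, hj⟩ := ihy
      refine ⟨i + j, ?_⟩
      have h1 : (⟨x * y, mul_mem hx hy⟩ : Algebra.adjoin ℤ (T : Set ℂ)) = ⟨x, hx⟩ * ⟨y, hy⟩ := rfl
      rw [h1, map_mul]
      have h2 : (D : K) ^ (i + j) * (φ ⟨x, hx⟩ * φ ⟨y, hy⟩) =
          ((D : K) ^ i * φ ⟨x, hx⟩) * ((D : K) ^ j * φ ⟨y, hy⟩) := by ring
      rw [h2]
      exact hi.mul hj
  intro q hq hDq hu
  obtain ⟨⟨x, hx⟩, hxu⟩ := hu.exists_right_inv
  obtain ⟨j, hj⟩ := key x hx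
  have h1 : ((q : ℕ) : K) * φ ⟨x, hx⟩ = 1 := by
    rw [← map_natCast φ, ← map_mul, hxu, map_one]
  have hcz : CharZero K := algebraRat.charZero K
  have hq0 : ((q : ℕ) : K) ≠ 0 := by
    intro h
    rw [h, zero_mul] at h1
    exact zero_ne_one h1
  have h2 : (D : K) ^ j * φ ⟨x, hx⟩ = algebraMap ℚ K ((D : ℚ) ^ j / q) := by
    rw [map_div₀, map_pow, map_intCast, map_natCast, eq_div_iff hq0, mul_assoc,
      mul_comm (φ ⟨x, hx⟩), h1, mul_one]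
  rw [h2, isIntegral_algebraMap_iff (algebraMap ℚ K).injective] at hj
  obtain ⟨y, hy⟩ := IsIntegrallyClosed.isIntegral_iff.1 hj
  have hqQ : ((q : ℕ) : ℚ) ≠ 0 := by exact_mod_cast hq.ne_zero
  have h3 : D ^ j = y * q := by
    have : ((y : ℤ) : ℚ) = (D : ℚ) ^ j / q := hy
    rw [eq_div_iff hqQ] at this
    exact_mod_cast this.symm
  have h4 : (q : ℤ) ∣ D ^ j := ⟨y, by rw [h3, mul_comm]⟩
  have h5 : (q : ℤ) ∣ D := (Nat.prime_iff_prime_int.1 hq).dvd_of_dvd_pow h4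
  have h6 : q ∣ D.natAbs := Int.natCast_dvd.1 h5
  have h7 := Nat.le_of_dvd (Int.natAbs_pos.2 hD0) h6
  omega

theorem SHM_aux2 (T : Finset ℂ) (B : Type) [CommRing B] [Nontrivial B] [Algebra ℚ B]
    [Algebra.FiniteType ℚ B]
    (φ : (Algebra.adjoin ℤ (T : Set ℂ)) →+* B) : ∃ D : ℤ, D ≠ 0 ∧ ∀ q : ℕ, q.Prime → D.natAbs < q →
    ¬ IsUnit ((q : ℕ) : Algebra.adjoin ℤ (T : Set ℂ)) := by
  obtain ⟨m, hm⟩ := Ideal.exists_maximal B
  have hft2 : Algebra.FiniteType ℚ (B ⧸ m) := inferInstance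
  let hF : Field (B ⧸ m) := Ideal.Quotient.field m
  have hfin : Module.Finite ℚ (B ⧸ m) := finite_of_finite_type_of_isJacobsonRing ℚ _
  exact SHM_aux T (B ⧸ m) ((Ideal.Quotient.mk m).comp φ)

theorem SHM_notUnit (T : Finset ℂ) : ∃ D : ℤ, D ≠ 0 ∧ ∀ q : ℕ, q.Prime → D.natAbs < q →
    ¬ IsUnit ((q : ℕ) : Algebra.adjoin ℤ (T : Set ℂ)) := by
  have hft : Algebra.FiniteType ℚ (Algebra.adjoin ℚ (T : Set ℂ)) :=
    .adjoin_of_finite T.finite_toSet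
  have hle : Algebra.adjoin ℤ (T : Set ℂ) ≤ (Algebra.adjoin ℚ (T : Set ℂ)).restrictScalars ℤ :=
    Algebra.adjoin_le fun x hx => Subalgebra.mem_restrictScalars ℤ |>.2
      (Algebra.subset_adjoin (R := ℚ) (s := (T : Set ℂ)) hx)
  have hle' : ∀ x : Algebra.adjoin ℤ (T : Set ℂ),
      (Algebra.adjoin ℤ (T : Set ℂ)).val.toRingHom x ∈ Algebra.adjoin ℚ (T : Set ℂ) := fun x => hle x.2
  exact SHM_aux2 T (Algebra.adjoin ℚ (T : Set ℂ))
    ((Algebra.adjoin ℤ (T : Set ℂ)).val.toRingHom.codRestrict (Algebra.adjoin ℚ (T : Set ℂ)) hle')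

/-- TRHOM with a prime `q ≡ 1 mod m` -/
theorem trhom1 (T : Finset ℂ) (m : ℕ) (hm : 0 < m) :
    ∃ (q : ℕ) (_ : Fact q.Prime) (F : Type) (_ : Field F) (_ : CharP F q),
      m ∣ q - 1 ∧ Nonempty ((Algebra.adjoin ℤ (T : Set ℂ)) →+* F) := by
  obtain ⟨D, hD0, hD⟩ := SHM_notUnit T
  obtain ⟨q, hq, hDq, hqm⟩ := Nat.exists_prime_gt_modEq_one D.natAbs hm.ne'
  have hnu := hD q hq hDq
  have h1 : Ideal.span {((q : ℕ) : Algebra.adjoin ℤ (T : Set ℂ))} ≠ ⊤ := by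
    rwa [Ne, Ideal.span_singleton_eq_top]
  obtain ⟨𝔫, h𝔫, hle⟩ := Ideal.exists_le_maximal _ h1
  let hF : Field (Algebra.adjoin ℤ (T : Set ℂ) ⧸ 𝔫) := Ideal.Quotient.field 𝔫
  have hq0 : ((q : ℕ) : Algebra.adjoin ℤ (T : Set ℂ) ⧸ 𝔫) = 0 := by
    rw [← map_natCast (Ideal.Quotient.mk 𝔫), Ideal.Quotient.eq_zero_iff_mem]
    exact hle (Ideal.mem_span_singleton_self _)
  have hchar : CharP (Algebra.adjoin ℤ (T : Set ℂ) ⧸ 𝔫) q := (CharP.charP_iff_prime_eq_zero hq).2 hq0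
  exact ⟨q, ⟨hq⟩, _, hF, hchar, (Nat.modEq_iff_dvd' hq.one_lt.le).1 hqm.symm, ⟨Ideal.Quotient.mk 𝔫⟩⟩

end Pool.Agent.H22.T6
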