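import Pool.Agent.H22.T6.SDefs

/-!
# SLD: the rank of the operators is larger than the rank of the symbols

Write `G(k,v) = gs a c (ev k) * single v 1` (homogeneous of degree `dt δ v + 1`), `T(k,v) = Dop p a c (ev k) (single v 1) = (p_k + v_k) single v 1 - G(k,v)` (degrees `dt δ v` and `dt δ v + 1`).
Proof.  Let `VG`, `VT` be the spans of the `G(k,v)`, `T(k,v)`, `(k,v) ∈ C`.  Choose a finset `B ⊆ C` such that the `G(b)`, `b ∈ B`, are linearly independent and `B.card = finrank VG`
(`exists_linearIndependent`...; or `Submodule.exists_fun_fin_finrank_span_eq` as in `Pool/Agent/H56/SMC/TRRANK.lean`).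
CLAIM: the family `single 0 1`, `T(b)` (`b ∈ B`) (index type `Option B`) is linearly independent.  Let `μ single 0 1 + ∑ λ_b T(b) = 0`.  If all `λ_b = 0` then `μ = 0`.  Otherwise let
`e` be the maximum of `dt δ v + 1` over the `b = (k,v) ∈ B` with `λ_b ≠ 0`, and take the component of degree `e` of the relation (`prT (DG δ e)`, or coefficients): the terms
`(p_k + v_k) single v 1` with `dt δ v = e` do not occur (`λ_b = 0` there), so `-∑_{b : dt δ v + 1 = e} λ_b G(b) + (if e = 0 then μ single 0 1 else 0) = 0`.  If `e ≠ 0` or `μ = 0` this contradicts
the independence of the `G(b)`.  If `e = 0` and `μ ≠ 0` then `single 0 1 ∈ VG`, contradicting `h2`.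
All these vectors are in `VT` (`h1`), so `finrank VT ≥ B.card + 1` (`LinearIndependent.fintype_card_le_finrank` for the vectors in the finite dimensional space `VT`).
-/

set_option autoImplicit false

namespace Pool.Agent.H22.T6

open Finset AddMonoidAlgebra
open Pool.Agent.H56.SMC Pool.Agent.H37.T5 Pool.Agent.H56.T5

theorem SLD_gcoef {F : Type} [Field F] {d : ℕ} {ι : Type} [Fintype ι] (a : ι → Lat d) (c : ι → F)
    (δ : Lat d) (hδ : ∀ i, dt δ (a i) = 1) (h v u : Lat d) (hu : dt δ u ≠ dt δ v + 1) :
    (gs a c h * (single v 1 : LP F d)).coeff u = 0 := by
  rw [gs_mul_coeff]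
  apply Finset.sum_eq_zero
  intro i _
  rw [coeff_single']
  split_ifs with h1
  · exfalso
    apply hu
    have h2 : u = v + a i := by rw [← h1]; abel
    rw [h2, dt_add, hδ i]
  · rw [mul_zero]

/-- LEAD -/
theorem lead {F : Type} [Field F] {d : ℕ} {ι : Type} [Fintype ι] (a : ι → Lat d) (c : ι → F)
    (δ : Lat d) (hδ : ∀ i, dt δ (a i) = 1) (p : Fin d → F) (C : Finset (Fin d × Lat d))
    (h1 : (single 0 1 : LP F d) ∈ Submodule.span F (Set.range fun b : C =>
      Dop p a c (ev b.1.1) (single b.1.2 1 : LP F d)))
    (h2 : (single 0 1 : LP F d) ∉ Submodule.span F (Set.range fun b : C =>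
      gs a c (ev b.1.1) * (single b.1.2 1 : LP F d))) :
    Module.finrank F (Submodule.span F (Set.range fun b : C =>
        gs a c (ev b.1.1) * (single b.1.2 1 : LP F d))) + 1 ≤
      Module.finrank F (Submodule.span F (Set.range fun b : C =>
        Dop p a c (ev b.1.1) (single b.1.2 1 : LP F d))) := by
  classical
  set G : C → LP F d := fun b => gs a c (ev b.1.1) * (single b.1.2 1 : LP F d) with hG
  set T : C → LP F d := fun b => Dop p a c (ev b.1.1) (single b.1.2 1 : LP F d) with hT
  have iG : FiniteDimensional F (Submodule.span F (Set.range G)) :=
    FiniteDimensional.span_of_finite F (Set.finite_range G)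
  have iT : FiniteDimensional F (Submodule.span F (Set.range T)) :=
    FiniteDimensional.span_of_finite F (Set.finite_range T)
  have key : ∀ (N : ℕ), Module.finrank F (Submodule.span F (Set.range G)) = N →
      ∃ f : Fin N → LP F d, (∀ i, f i ∈ Set.range G) ∧ LinearIndependent F f := by
    intro N hN
    subst hN
    obtain ⟨f, hf, -, hl⟩ := Submodule.exists_fun_fin_finrank_span_eq F (Set.range G)
    exact ⟨f, hf, hl⟩
  obtain ⟨n, hn⟩ : ∃ n, Module.finrank F (Submodule.span F (Set.range G)) = n := ⟨_, rfl⟩
  obtain ⟨f, hf, hl⟩ := key n hn
  rw [hn]
  choose b hb using hf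
  have hGb : (fun i => G (b i)) = f := funext hb
  rw [← hGb] at hl
  have hTc : ∀ (i : C) (u : Lat d), u ≠ i.1.2 → (T i).coeff u = -(G i).coeff u := by
    intro i u hu
    simp only [hT, hG, Dop]
    rw [coeff_sub', dg_coeff, coeff_single', if_neg hu, mul_zero, zero_sub]
  let w : Option (Fin n) → LP F d := fun o => o.elim (single 0 1) (fun i => T (b i))
  have hw : LinearIndependent F w := by
    rw [Fintype.linearIndependent_iff]
    intro g hg
    rw [Fintype.sum_option] at hg
    simp only [w, Option.elim] at hg
    have hrel : ∀ u : Lat d, g none * (if u = 0 then 1 else 0) +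
        ∑ i, g (some i) * (T (b i)).coeff u = 0 := by
      intro u
      have h0 := congrArg (fun z : LP F d => z.coeff u) hg
      simp only [coeff_add', coeff_smul', coeff_zero', coeff_single'] at h0
      rw [coeff_finsum] at h0
      exact h0
    have hlam : ∀ i, g (some i) = 0 := by
      by_contra hcon
      push Not at hcon
      obtain ⟨i0, hi0⟩ := hcon
      let J : Finset (Fin n) := Finset.univ.filter (fun i => g (some i) ≠ 0)
      have hJ : J.Nonempty := ⟨i0, by simp [J, hi0]⟩
      obtain ⟨m, hm, hmax⟩ := Finset.exists_max_image J (fun i => dt δ (b i).1.2 + 1) hJ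
      set e := dt δ (b m).1.2 + 1 with he
      have hm' : g (some m) ≠ 0 := by simpa [J] using hm
      let l' : Fin n → F := fun i => if dt δ (b i).1.2 + 1 = e then g (some i) else 0
      have hsum : ∑ i, l' i • G (b i) = (if e = 0 then g none else 0) • (single 0 1 : LP F d) := by
        apply lp_ext
        intro u
        have h3 : (∑ i, l' i • G (b i)).coeff u = ∑ i, l' i * (G (b i)).coeff u := by
          rw [coeff_finsum]
          rfl
        rw [h3, coeff_smul', coeff_single']
        by_cases hu : dt δ u = e
        · have h4 := hrel u
          have h5 : ∑ i, g (some i) * (T (b i)).coeff u = -∑ i, l' i * (G (b i)).coeff u := by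
            rw [← Finset.sum_neg_distrib]
            apply Finset.sum_congr rfl
            intro i _
            by_cases hgi : g (some i) = 0
            · simp [l', hgi]
            · have hi : i ∈ J := by simp [J, hgi]
              have h6 := hmax i hi
              have h7 : u ≠ (b i).1.2 := by
                intro h8
                rw [h8] at hu
                have h6' : dt δ (b i).1.2 + 1 ≤ e := h6
                omega
              rw [hTc _ _ h7]
              by_cases h9 : dt δ (b i).1.2 + 1 = e
              · simp [l', h9]
              · have h10 : (G (b i)).coeff u = 0 :=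
                  SLD_gcoef a c δ hδ _ _ _ (by rw [hu]; exact fun h => h9 h.symm)
                rw [h10]
                simp
          rw [h5] at h4
          have h11 : ∑ i, l' i * (G (b i)).coeff u = g none * (if u = 0 then 1 else 0) := by
            linear_combination -h4
          rw [h11]
          by_cases h0 : u = 0
          · have : e = 0 := by
              rw [← hu, h0]; simp [dt]
            simp [h0, this]
          · simp [h0]
        · have h12 : ∑ i, l' i * (G (b i)).coeff u = 0 := by
            apply Finset.sum_eq_zero
            intro i _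
            by_cases h9 : dt δ (b i).1.2 + 1 = e
            · rw [show (G (b i)).coeff u = 0 from
                SLD_gcoef a c δ hδ _ _ _ (by rw [h9]; exact hu), mul_zero]
            · simp [l', h9]
          rw [h12]
          by_cases h0 : u = 0
          · have : e ≠ 0 := by
              intro h13
              apply hu
              rw [h0, h13]; simp [dt]
            simp [this]
          · simp [h0]
      by_cases hc : (if e = 0 then g none else 0) = 0
      · rw [hc, zero_smul] at hsum
        have h14 := (Fintype.linearIndependent_iff.1 hl) l' hsum m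
        simp only [l', he, if_true] at h14
        exact hm' h14
      · apply h2
        have h15 : (single 0 1 : LP F d) =
            (if e = 0 then g none else 0)⁻¹ • ∑ i, l' i • G (b i) := by
          rw [hsum, smul_smul, inv_mul_cancel₀ hc, one_smul]
        rw [h15]
        apply Submodule.smul_mem
        apply Submodule.sum_mem
        intro i _
        apply Submodule.smul_mem
        exact Submodule.subset_span ⟨b i, rfl⟩
    intro o
    cases o with
    | some i => exact hlam i
    | none =>
      have h16 := hrel 0
      simp only [hlam, zero_mul, Finset.sum_const_zero, if_true, mul_one, add_zero] at h16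
      exact h16
  have h20 : Module.finrank F (Submodule.span F (Set.range w)) = n + 1 := by
    rw [finrank_span_eq_card hw]
    simp
  rw [← h20]
  apply Submodule.finrank_mono
  rw [Submodule.span_le]
  rintro x ⟨o, rfl⟩
  cases o with
  | none => exact h1
  | some i => exact Submodule.subset_span ⟨b i, rfl⟩

end Pool.Agent.H22.T6
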