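import Pool.Agent.H22.T6.SDC
import Pool.Agent.H22.T6.SHM
import Pool.Agent.H22.T6.SLD
import Pool.Agent.H22.T6.SGM
import Pool.Agent.H22.T6.SCE
import Pool.Agent.H22.T6.SBG
import Pool.Agent.H22.T6.SHB
import Pool.Agent.H56.SMC.CM

/-!
# SFN: theorem S (strictness)
-/

set_option autoImplicit false

namespace Pool.Agent.H22.T6

open Finset AddMonoidAlgebra
open Pool.Agent.H56.SMC Pool.Agent.H37.T5 Pool.Agent.H56.T5

theorem SFN_gs_map {R R' : Type} [CommRing R] [CommRing R'] (f : R →+* R') {d : ℕ} {ι : Type}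
    [Fintype ι] (a : ι → Lat d) (c : ι → R) (h : Lat d) :
    mapRingHom (Lat d) f (gs a c h) = gs a (fun i => f (c i)) h := by
  apply lp_ext
  intro u
  rw [coeff_mapRingHom]
  unfold gs
  rw [coeff_finsum, coeff_finsum, map_sum]
  refine sum_congr rfl fun i _ => ?_
  rw [coeff_single', coeff_single', apply_ite f, map_zero, map_mul, map_intCast]

theorem SFN_sum {R : Type} [CommRing R] {d : ℕ} {ι : Type} [Fintype ι] (a : ι → Lat d)
    (c : ι → R) (C : Finset (Fin d × Lat d)) (f : C → R) :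
    ∑ b : C, f b • (gs a c (ev b.1.1) * (single b.1.2 1 : LP R d)) =
      ∑ k, gs a c (ev k) * ∑ b : C, if b.1.1 = k then f b • (single b.1.2 1 : LP R d) else 0 := by
  classical
  simp only [mul_sum]
  rw [sum_comm]
  refine sum_congr rfl fun b _ => ?_
  simp only [mul_ite, mul_zero]
  rw [Finset.sum_ite_eq univ b.1.1, if_pos (mem_univ _), mul_smul_comm]

theorem SFN_supp {R : Type} [CommRing R] {d : ℕ} (C : Finset (Fin d × Lat d)) (f : C → R)
    (W : Fin d → Set (Lat d)) (hC : ∀ b : C, b.1.2 ∈ W b.1.1) (k : Fin d) :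
    Supp (W k) (∑ b : C, if b.1.1 = k then f b • (single b.1.2 1 : LP R d) else 0) := by
  classical
  refine Supp.sum _ fun b _ => ?_
  by_cases h : b.1.1 = k
  · rw [if_pos h, ← h]
    exact (Supp.single (hC b) 1).smul _
  · rw [if_neg h]
    exact Supp.zero _

theorem SFN_expand {R : Type} [CommRing R] {d : ℕ} (z : LP R d) :
    z = ∑ u ∈ z.coeff.support, z.coeff u • (single u 1 : LP R d) := by
  have := AddMonoidAlgebra.sum_coeff_single z
  rw [Finsupp.sum] at this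
  conv_lhs => rw [← this]
  refine sum_congr rfl fun u _ => ?_
  apply lp_ext
  intro v
  rw [coeff_smul', coeff_single', coeff_single']
  split_ifs <;> simp

theorem SFN_dop_span {F : Type} [Field F] {d : ℕ} {ι : Type} [Fintype ι] (p : Fin d → F)
    (a : ι → Lat d) (c : ι → F) (C : Finset (Fin d × Lat d)) (k : Fin d) (z : LP F d)
    (hz : ∀ u, z.coeff u ≠ 0 → (k, u) ∈ C) :
    Dop p a c (ev k) z ∈ Submodule.span F (Set.range fun b : C =>
      Dop p a c (ev b.1.1) (single b.1.2 1 : LP F d)) := by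
  rw [SFN_expand z, Dop_sum]
  refine Submodule.sum_mem _ fun u hu => ?_
  rw [Dop_smul]
  refine Submodule.smul_mem _ _ (Submodule.subset_span ?_)
  exact ⟨⟨(k, u), hz u (Finsupp.mem_support_iff.1 hu)⟩, rfl⟩

theorem SFN_pv {R : Type} [CommRing R] {d : ℕ} (p : Fin d → R) (k : Fin d) :
    pv p (ev k) = p k := by
  simp [pv, ev, Pi.single_apply]

theorem SFN_gs_deg {R : Type} [CommRing R] {d : ℕ} {ι : Type} [Fintype ι] (a : ι → Lat d)
    (c : ι → R) (δ : Lat d) (hδ : ∀ i, dt δ (a i) = 1) (k : Fin d) (v u : Lat d)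
    (hu : (gs a c (ev k) * (single v 1 : LP R d)).coeff u ≠ 0) : dt δ u = dt δ v + 1 := by
  rw [gs_mul_coeff] at hu
  obtain ⟨i, -, hi⟩ := exists_ne_zero_of_sum_ne_zero hu
  rw [coeff_single'] at hi
  by_cases h : u - a i = v
  · rw [← h, dt_sub, hδ i]
    ring
  · rw [if_neg h, mul_zero] at hi
    exact absurd rfl hi

theorem SFN_dop_deg {R : Type} [CommRing R] {d : ℕ} {ι : Type} [Fintype ι] (p : Fin d → R)
    (a : ι → Lat d) (c : ι → R) (δ : Lat d) (hδ : ∀ i, dt δ (a i) = 1) (k : Fin d) (v u : Lat d)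
    (hu : (Dop p a c (ev k) (single v 1 : LP R d)).coeff u ≠ 0) :
    dt δ u = dt δ v ∨ dt δ u = dt δ v + 1 := by
  by_cases h : u = v
  · exact Or.inl (by rw [h])
  · right
    apply SFN_gs_deg a c δ hδ k v u
    intro h0
    apply hu
    unfold Dop
    rw [coeff_sub', h0, dg_coeff, coeff_single', if_neg h, mul_zero, sub_zero]

theorem SFN_dop_supp {R : Type} [CommRing R] {d : ℕ} {ι : Type} [Fintype ι] (p : Fin d → R)
    (a : ι → Lat d) (c : ι → R) (δ : Lat d) (hδ : ∀ i, dt δ (a i) = 1) (S : Set (Lat d))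
    (P : Finset (Fin d)) (hPa : ∀ k ∈ P, ∀ i, 0 ≤ a i k) (hP1 : ∀ k ∈ P, p k = 1)
    (hS : ∀ u ∈ S, ∀ i, c i ≠ 0 → u + a i ∈ S) (E : ℤ) (Rw : Finset (Lat d))
    (hRw : ∀ u, u ∈ Rw ↔ u ∈ SM S P ∅ ∧ dt δ u ≤ E) (k : Fin d) (v : Lat d)
    (hv : v ∈ SM S P {k}) (hvE : dt δ v ≤ E - 1) :
    Supp (Rw : Set (Lat d)) (Dop p a c (ev k) (single v 1 : LP R d)) := by
  intro u hu
  have h1 := LL_Dop p a c ev P ∅ (fun k hk => by rw [SFN_pv, hP1 k hk])
    (fun k hk i => by rw [dt_ev]; exact hPa k hk i) S hS k (single v 1)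
    (Supp.single (by simpa [SM] using hv) 1) u hu
  have h2 := SFN_dop_deg p a c δ hδ k v u hu
  rw [mem_coe, hRw]
  exact ⟨h1, by omega⟩

theorem SFN_gs_supp {R : Type} [CommRing R] {d : ℕ} {ι : Type} [Fintype ι]
    (a : ι → Lat d) (c : ι → R) (δ : Lat d) (hδ : ∀ i, dt δ (a i) = 1) (S : Set (Lat d))
    (P : Finset (Fin d)) (hPa : ∀ k ∈ P, ∀ i, 0 ≤ a i k)
    (hS : ∀ u ∈ S, ∀ i, c i ≠ 0 → u + a i ∈ S) (E : ℤ) (Rw : Finset (Lat d))
    (hRw : ∀ u, u ∈ Rw ↔ u ∈ SM S P ∅ ∧ dt δ u ≤ E) (k : Fin d) (v : Lat d)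
    (hv : v ∈ SM S P {k}) (hvE : dt δ v ≤ E - 1) :
    Supp (Rw : Set (Lat d)) (gs a c (ev k) * (single v 1 : LP R d)) := by
  intro u hu
  have h1 := LL_gs a c ev P ∅
    (fun k hk i => by rw [dt_ev]; exact hPa k hk i) S hS k (single v 1)
    (Supp.single (by simpa [SM] using hv) 1) u hu
  have h2 := SFN_gs_deg a c δ hδ k v u hu
  rw [mem_coe, hRw]
  exact ⟨h1, by omega⟩

/-- The comparison over a residue field. -/
theorem SFN_char {d : ℕ} {ι κ : Type} [Fintype ι] [Fintype κ] (a : ι → Lat d) (c : ι → ℂ)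
    (h : κ → Lat d) (δ : Lat d) (hδ : ∀ i, dt δ (a i) = 1) (hh : ∀ v i, 0 ≤ dt (h v) (a i))
    (hfac : ∀ u ∈ Sset h, ∃ N : ℕ, 0 < N ∧ ∃ n : ι → ℕ, N • u = ∑ i, n i • a i)
    (H : Lat d) (P : Finset (Fin d)) (hPa : ∀ k ∈ P, ∀ i, 0 ≤ a i k)
    (m : ℤ) (hm : 0 < m) (Y : Lat d) (hYP : ∀ k ∈ P, Y k = m) (N : ℕ)
    (hcert : ∀ i, dt H (a i) = 0 → ∃ z : Fin d → LP ℂ d,
      (∀ k, Supp ({u | u ∈ Sset h ∧ dt H u = 0} ∩ DG δ (N - 1)) (z k)) ∧
      (single (N • a i) 1 : LP ℂ d) = ∑ k, gs a (cF a c H) (ev k) * z k)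
    (E : ℤ) (hE : ∀ u ∈ SM (Lay h H m Y) P ∅, E < dt δ u →
      ∃ i, dt H (a i) = 0 ∧ u - N • a i ∈ SM (Lay h H m Y) P ∅)
    (Rw : Finset (Lat d)) (C : Finset (Fin d × Lat d))
    (hRw : ∀ u, u ∈ Rw ↔ u ∈ SM (Lay h H m Y) P ∅ ∧ dt δ u ≤ E)
    (hC : ∀ k v, (k, v) ∈ C ↔ v ∈ SM (Lay h H m Y) P {k} ∧ dt δ v ≤ E - 1)
    (D : ℕ) (I : Fin D → Rw) (J : Fin D → C)
    (hdet : ((TMx (fun j => (Y j : ℂ) / (m : ℂ)) a (cF a c H) Rw C).submatrix I J).det ≠ 0) :
    D ≤ (GMx a (cF a c H) Rw C).rank := by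
  classical
  set S := Lay h H m Y with hS
  set c' := cF a c H with hc'
  choose! z hz hzs using hcert
  -- the finitely generated ring
  let T : Finset ℂ := (univ.image c') ∪
    (univ.biUnion fun i => univ.biUnion fun k =>
      (z i k).coeff.support.image fun u => (z i k).coeff u) ∪
    {(m : ℂ)⁻¹, (((TMx (fun j => (Y j : ℂ) / (m : ℂ)) a c' Rw C).submatrix I J).det)⁻¹}
  obtain ⟨q, hq, F, hF, hcq, hmq, ⟨φ⟩⟩ := trhom1 T m.toNat (by omega)
  have hT : ∀ x ∈ T, x ∈ Algebra.adjoin ℤ (T : Set ℂ) := fun x hx => Algebra.subset_adjoin hx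
  set B := Algebra.adjoin ℤ (T : Set ℂ) with hB
  have hcB : ∀ i, c' i ∈ B := fun i => hT _ (by
    simp only [T, mem_union]
    exact Or.inl (Or.inl (mem_image_of_mem _ (mem_univ i))))
  have hzB : ∀ i k u, (z i k).coeff u ∈ B := by
    intro i k u
    by_cases hu : (z i k).coeff u = 0
    · rw [hu]
      exact zero_mem _
    · refine hT _ ?_
      simp only [T, mem_union]
      refine Or.inl (Or.inr ?_)
      rw [mem_biUnion]
      refine ⟨i, mem_univ _, ?_⟩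
      rw [mem_biUnion]
      exact ⟨k, mem_univ _, mem_image.2 ⟨u, Finsupp.mem_support_iff.2 hu, rfl⟩⟩
  have hmB : (m : ℂ)⁻¹ ∈ B := hT _ (by simp [T])
  have hdB : (((TMx (fun j => (Y j : ℂ) / (m : ℂ)) a c' Rw C).submatrix I J).det)⁻¹ ∈ B :=
    hT _ (by simp [T])
  have hm0 : (m : ℂ) ≠ 0 := by exact_mod_cast hm.ne'
  set cB : ι → B := fun i => ⟨c' i, hcB i⟩ with hcBdef
  set pB : Fin d → B := fun j => (Y j : B) * ⟨_, hmB⟩ with hpB
  set φC : B →+* ℂ := algebraMap B ℂ with hφC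
  have hφC' : ∀ x : B, φC x = (x : ℂ) := fun _ => rfl
  -- the images of the matrices
  have hTC : (TMx pB a cB Rw C).map φC = TMx (fun j => (Y j : ℂ) / (m : ℂ)) a c' Rw C := by
    rw [TMx_map]
    have h1 : (fun k => φC (pB k)) = fun j => (Y j : ℂ) / (m : ℂ) := by
      funext j
      rw [hpB]
      simp only [map_mul, map_intCast, div_eq_mul_inv]
      rfl
    rw [h1]
    rfl
  have hGC : (GMx a cB Rw C).map φC = GMx a c' Rw C := by
    rw [GMx_map]
    rfl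
  have hdetB : φC ((TMx pB a cB Rw C).submatrix I J).det =
      ((TMx (fun j => (Y j : ℂ) / (m : ℂ)) a c' Rw C).submatrix I J).det := by
    rw [RingHom.map_det]
    congr 1
    have : (φC.mapMatrix ((TMx pB a cB Rw C).submatrix I J)) =
        ((TMx pB a cB Rw C).map φC).submatrix I J := rfl
    rw [this, hTC]
  have hunit : φ ((TMx pB a cB Rw C).submatrix I J).det ≠ 0 := by
    have h1 : ((TMx pB a cB Rw C).submatrix I J).det * ⟨_, hdB⟩ = 1 := by
      apply Subtype.ext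
      rw [← hφC' (_ * _), map_mul, hdetB, hφC']
      exact mul_inv_cancel₀ hdet
    intro h0
    have h2 := congrArg φ h1
    rw [map_mul, h0, zero_mul, map_one] at h2
    exact zero_ne_one h2
  -- `m` in `F`
  have hmF : (m : F) * φ ⟨_, hmB⟩ = 1 := by
    have h1 : (m : B) * ⟨_, hmB⟩ = 1 := by
      apply Subtype.ext
      rw [← hφC' (_ * _), map_mul, map_intCast, hφC']
      exact mul_inv_cancel₀ hm0
    have h2 := congrArg φ h1
    rwa [map_mul, map_intCast, map_one] at h2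
  have hmF0 : (m : F) ≠ 0 := left_ne_zero_of_mul_eq_one hmF
  have hpF : ∀ j, φ (pB j) = pY m Y j := by
    intro j
    rw [hpB]
    simp only [map_mul, map_intCast, pY]
    rw [eq_div_iff hmF0, mul_assoc, mul_comm (φ _), hmF, mul_one]
  set cF' : ι → F := fun i => φ (cB i) with hcF'
  have hcF0 : ∀ i, cF' i ≠ 0 → dt H (a i) = 0 := by
    intro i hi
    apply cF_ne (c := c)
    intro h0
    apply hi
    rw [hcF']
    have : cB i = 0 := Subtype.ext h0
    simp only [this, map_zero]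
  have hTF : (TMx pB a cB Rw C).map φ = TMx (pY m Y) a cF' Rw C := by
    rw [TMx_map]
    congr 1
    funext j
    exact hpF j
  have hdetF : ((TMx (pY m Y) a cF' Rw C).submatrix I J).det ≠ 0 := by
    have : (φ.mapMatrix ((TMx pB a cB Rw C).submatrix I J)) =
        ((TMx pB a cB Rw C).map φ).submatrix I J := rfl
    rw [← hTF, ← this, ← RingHom.map_det]
    exact hunit
  have hrankT : D ≤ (TMx (pY m Y) a cF' Rw C).rank := by
    calc D = ((TMx (pY m Y) a cF' Rw C).submatrix I J).rank := by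
          rw [Matrix.rank_of_det_ne_zero hdetF, Fintype.card_fin]
      _ ≤ _ := Matrix.rank_submatrix_le _ _ _
  have hrankG : (GMx a (fun i => cF' i ^ q) Rw C).rank ≤ (GMx a c' Rw C).rank := by
    have h1 := trrank_le B ((frobenius F q).comp φ) (GMx a cB Rw C)
    have h2 : (GMx a cB Rw C).map ((frobenius F q).comp φ) =
        GMx a (fun i => cF' i ^ q) Rw C := by
      rw [GMx_map]
      rfl
    have h3 : (GMx a cB Rw C).map (fun x : B => (x : ℂ)) = GMx a c' Rw C := hGC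
    rw [h2, h3] at h1
    exact h1
  -- the data in characteristic `q`
  have hq0 : 0 < q := hq.out.pos
  obtain ⟨e, he⟩ := hmq
  have hmt : (m.toNat : ℤ) = m := Int.toNat_of_nonneg hm.le
  have hqe : (q : ℤ) - 1 = m * e := by
    have h1 : ((q - 1 : ℕ) : ℤ) = (q : ℤ) - 1 := by
      rw [Nat.cast_sub hq0]
      simp
    rw [← h1, he]
    push_cast
    rw [hmt]
  have hu0 : m • ((e : ℤ) • Y) = ((q : ℤ) - 1) • Y := by
    rw [smul_smul, hqe]
  have hQ : QD q a cF' δ S P m Y ((e : ℤ) • Y) :=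
    { m0 := hm
      hu0 := hu0
      YP := hYP
      mF := hmF0
      de := hδ
      add := fun u hu i hi => lay_add h H m hm Y u (a i) hu (fun v => hh v i) (hcF0 i hi)
      Pa := hPa
      cos := fun u => lay_cos h H m Y _ q (by exact_mod_cast hq0) hu0 u
      fin := fun E => lay_fin a h δ hδ hfac H m hm Y E }
  have hPC : ∀ v ∈ {u | u ∈ Sset h ∧ dt H u = 0}, ∀ k ∈ P, 0 ≤ v k := by
    rintro v ⟨hv, -⟩ k hk
    obtain ⟨N', hN', n, hn⟩ := hfac v hv
    have h1 : (N' : ℤ) * v k = ∑ i, (n i : ℤ) * a i k := by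
      have := congrFun hn k
      simpa [Finset.sum_apply] using this
    have h2 : 0 ≤ (N' : ℤ) * v k := by
      rw [h1]
      exact sum_nonneg fun i _ => mul_nonneg (by positivity) (hPa k hk i)
    exact nonneg_of_mul_nonneg_right h2 (by exact_mod_cast hN')
  have hbig : ∀ u ∈ SM S P ∅, E < dt δ u → ∃ z : Fin d → LP F d,
      (∀ k, Supp (SM S P {k}) (z k)) ∧ (∀ k, Supp (DG δ (dt δ u - 1)) (z k)) ∧
      (single u 1 : LP F d) = ∑ k, gs a cF' (ev k) * z k := by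
    intro u hu hEu
    obtain ⟨i, hi, hui⟩ := hE u hu hEu
    choose zB hzB' using fun k => cm_lift B (z i k) (hzB i k)
    have hcertB : (single (N • a i) 1 : LP B d) = ∑ k, gs a cB (ev k) * zB k := by
      apply cm_inj
      rw [cm_map_single, map_sum, hzs i hi]
      refine sum_congr rfl fun k _ => ?_
      rw [map_mul, hzB', SFN_gs_map]
      rfl
    have hcertF : (single (N • a i) 1 : LP F d) =
        ∑ k, gs a cF' (ev k) * mapRingHom (Lat d) φ (zB k) := by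
      have h1 := congrArg (mapRingHom (Lat d) φ) hcertB
      rw [cm_map_single, map_sum] at h1
      rw [h1]
      exact sum_congr rfl fun k _ => by rw [map_mul, SFN_gs_map]
    refine hbig_cert a cF' δ hδ {u | u ∈ Sset h ∧ dt H u = 0} S P hPC
      (fun u hu v hv => lay_add h H m hm Y u v hu hv.1 hv.2) N i _ (fun k => ?_) hcertF u hui
    apply cm_supp_map
    apply cm_supp_lift
    rw [hzB']
    exact hz i hi k
  have hmain := charq q a cF' δ S P m Y ((e : ℤ) • Y) hQ E hbig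
  have hS' : ∀ u ∈ S, ∀ i, cF' i ≠ 0 → u + a i ∈ S := hQ.add
  have hset1 : {x : LP F d | ∃ k, ∃ v ∈ SM S P {k}, dt δ v ≤ E - 1 ∧
      x = Dop (pY m Y) a cF' (ev k) (single v 1)} =
      Set.range (fun b : C => Dop (pY m Y) a cF' (ev b.1.1) (single b.1.2 1 : LP F d)) := by
    ext x
    constructor
    · rintro ⟨k, v, hv, hvE, rfl⟩
      exact ⟨⟨(k, v), (hC k v).2 ⟨hv, hvE⟩⟩, rfl⟩
    · rintro ⟨⟨⟨k, v⟩, hb⟩, rfl⟩
      obtain ⟨h1, h2⟩ := (hC k v).1 hb
      exact ⟨k, v, h1, h2, rfl⟩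
  have hset2 : {x : LP F d | ∃ k, ∃ v ∈ SM S P {k}, dt δ v ≤ E - 1 ∧
      x = gs a (fun i => cF' i ^ q) (ev k) * single v 1} =
      Set.range (fun b : C => gs a (fun i => cF' i ^ q) (ev b.1.1) *
        (single b.1.2 1 : LP F d)) := by
    ext x
    constructor
    · rintro ⟨k, v, hv, hvE, rfl⟩
      exact ⟨⟨(k, v), (hC k v).2 ⟨hv, hvE⟩⟩, rfl⟩
    · rintro ⟨⟨⟨k, v⟩, hb⟩, rfl⟩
      obtain ⟨h1, h2⟩ := (hC k v).1 hb
      exact ⟨k, v, h1, h2, rfl⟩
  rw [hset1, hset2] at hmain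
  have hr1 := rk_span Rw
    (fun b : C => Dop (pY m Y) a cF' (ev b.1.1) (single b.1.2 1 : LP F d)) (fun b => by
      obtain ⟨h1, h2⟩ := (hC b.1.1 b.1.2).1 b.2
      exact SFN_dop_supp (pY m Y) a cF' δ hδ S P hPa
        (fun k hk => by rw [pY, hYP k hk, div_self hmF0]) hS' E Rw hRw _ _ h1 h2)
  have hr2 := rk_span Rw
    (fun b : C => gs a (fun i => cF' i ^ q) (ev b.1.1) * (single b.1.2 1 : LP F d)) (fun b => by
      obtain ⟨h1, h2⟩ := (hC b.1.1 b.1.2).1 b.2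
      refine SFN_gs_supp a (fun i => cF' i ^ q) δ hδ S P hPa (fun u hu i hi => ?_) E Rw hRw
        _ _ h1 h2
      exact hS' u hu i (fun h0 => hi (by rw [h0, zero_pow hq0.ne'])))
  calc D ≤ (TMx (pY m Y) a cF' Rw C).rank := hrankT
    _ = _ := hr1
    _ ≤ _ := hmain
    _ = (GMx a (fun i => cF' i ^ q) Rw C).rank := hr2.symm
    _ ≤ _ := hrankG

/-- Theorem S -/
theorem strict {d : ℕ} {ι κ : Type} [Fintype ι] [Fintype κ] (a : ι → Lat d) (c : ι → ℂ)
    (h : κ → Lat d) (δ : Lat d) (hδ : ∀ i, dt δ (a i) = 1) (hh : ∀ v i, 0 ≤ dt (h v) (a i))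
    (hfac : ∀ u ∈ Sset h, ∃ N : ℕ, 0 < N ∧ ∃ n : ι → ℕ, N • u = ∑ i, n i • a i)
    (hnd : TorusND a c) (H : Lat d) (hH : ∀ i, 0 ≤ dt H (a i))
    (P : Finset (Fin d)) (hPa : ∀ k ∈ P, ∀ i, 0 ≤ a i k) (p : Fin d → ℂ) (S : Set (Lat d))
    (hgood : ∀ Δ : MvPolynomial (Fin d) ℂ, MvPolynomial.eval p Δ ≠ 0 →
      ∃ (m : ℤ) (Y : Lat d), 0 < m ∧ Lay h H m Y = S ∧ (∀ k ∈ P, Y k = m) ∧
        MvPolynomial.eval (fun j => (Y j : ℂ) / (m : ℂ)) Δ ≠ 0)
    (β : ℂ) (hβ : β ≠ 0) (hex : ExL p a (cF a c H) ev P S (single 0 β)) :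
    ∃ t : Fin d → LP ℂ d, (∀ k, Supp (SM S P {k} ∩ DG δ (-1)) (t k)) ∧
      (single 0 1 : LP ℂ d) = ∑ k, gs a (cF a c H) (ev k) * t k := by
  classical
  obtain ⟨m1, Y1, hm1, hS1, hYP1, -⟩ := hgood 1 (by simp)
  have hP1 : ∀ k ∈ P, p k = 1 := by
    intro k hk
    by_contra hne
    obtain ⟨m, Y, hm, -, hYP, hev⟩ := hgood (MvPolynomial.X k - 1) (by
      simp only [map_sub, MvPolynomial.eval_X, map_one]
      exact sub_ne_zero.2 hne)
    apply hev
    have hm0 : (m : ℂ) ≠ 0 := by exact_mod_cast hm.ne'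
    simp only [map_sub, MvPolynomial.eval_X, map_one, hYP k hk]
    rw [div_self hm0, sub_self]
  obtain ⟨N, hN, hcert⟩ := certs a c h δ hδ hh hfac hnd H hH
  obtain ⟨E0, hE0⟩ := big a h δ hδ hh hfac H hH P hPa m1 hm1 Y1 hYP1 N
  rw [hS1] at hE0
  obtain ⟨z, hz, hzs⟩ := hex
  have hfinS : ∀ E : ℤ, {u | u ∈ S ∧ dt δ u ≤ E}.Finite := by
    intro E
    have := lay_fin a h δ hδ hfac H m1 hm1 Y1 E
    rwa [hS1] at this
  have hSadd : ∀ u ∈ S, ∀ i, cF a c H i ≠ 0 → u + a i ∈ S := by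
    intro u hu i hi
    rw [← hS1] at hu ⊢
    exact lay_add h H m1 hm1 Y1 u (a i) hu (fun v => hh v i) (cF_ne hi)
  -- the bound for the degrees
  obtain ⟨E, hEE0, hE1, hEz⟩ : ∃ E : ℤ, E0 ≤ E ∧ 0 ≤ E ∧
      ∀ k u, (z k).coeff u ≠ 0 → dt δ u ≤ E - 1 := by
    refine ⟨|E0| + 1 + ∑ k, ∑ u ∈ (z k).coeff.support, |dt δ u|, ?_, ?_, ?_⟩
    · have h1 := le_abs_self E0
      have h2 : 0 ≤ ∑ k, ∑ u ∈ (z k).coeff.support, |dt δ u| :=
        sum_nonneg fun k _ => sum_nonneg fun u _ => abs_nonneg _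
      omega
    · have h1 := abs_nonneg E0
      have h2 : 0 ≤ ∑ k, ∑ u ∈ (z k).coeff.support, |dt δ u| :=
        sum_nonneg fun k _ => sum_nonneg fun u _ => abs_nonneg _
      omega
    · intro k u hu
      have h1 : |dt δ u| ≤ ∑ u ∈ (z k).coeff.support, |dt δ u| :=
        single_le_sum (f := fun u => |dt δ u|) (fun _ _ => abs_nonneg _)
          (Finsupp.mem_support_iff.2 hu)
      have h2 : ∑ u ∈ (z k).coeff.support, |dt δ u| ≤
          ∑ k, ∑ u ∈ (z k).coeff.support, |dt δ u| :=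
        single_le_sum (f := fun k => ∑ u ∈ (z k).coeff.support, |dt δ u|)
          (fun _ _ => sum_nonneg fun _ _ => abs_nonneg _) (mem_univ k)
      have h3 := le_abs_self (dt δ u)
      have h4 := abs_nonneg E0
      omega
  let Rw : Finset (Lat d) := (hfinS E).toFinset.filter (fun u => u ∈ SM S P ∅)
  have hRw : ∀ u, u ∈ Rw ↔ u ∈ SM S P ∅ ∧ dt δ u ≤ E := by
    intro u
    simp only [Rw, mem_filter, Set.Finite.mem_toFinset, Set.mem_setOf_eq]
    constructor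
    · rintro ⟨⟨-, h1⟩, h2⟩
      exact ⟨h2, h1⟩
    · rintro ⟨h2, h1⟩
      exact ⟨⟨h2.1, h1⟩, h2⟩
  let C : Finset (Fin d × Lat d) := ((univ : Finset (Fin d)) ×ˢ (hfinS E).toFinset).filter
    (fun kv => kv.2 ∈ SM S P {kv.1} ∧ dt δ kv.2 ≤ E - 1)
  have hC : ∀ k v, (k, v) ∈ C ↔ v ∈ SM S P {k} ∧ dt δ v ≤ E - 1 := by
    intro k v
    simp only [C, mem_filter, mem_product, mem_univ, true_and, Set.Finite.mem_toFinset,
      Set.mem_setOf_eq]
    constructor
    · rintro ⟨-, h1⟩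
      exact h1
    · rintro ⟨h1, h2⟩
      exact ⟨⟨h1.1, by omega⟩, h1, h2⟩
  by_cases hsp : (single 0 1 : LP ℂ d) ∈ Submodule.span ℂ (Set.range fun b : C =>
      gs a (cF a c H) (ev b.1.1) * (single b.1.2 1 : LP ℂ d))
  · obtain ⟨f, hf⟩ := (Submodule.mem_span_range_iff_exists_fun ℂ).1 hsp
    rw [SFN_sum] at hf
    obtain ⟨t, ht, hts⟩ := trunc a (cF a c H) δ hδ S P {0} (single 0 1)
      (Supp.single (by simp [dt_zero]) 1) _
      (fun k => SFN_supp C f (fun k => SM S P {k})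
        (fun b => ((hC b.1.1 b.1.2).1 b.2).1) k) hf.symm
    refine ⟨t, fun k => (ht k).mono ?_, hts⟩
    rintro v ⟨h1, h2⟩
    refine ⟨h1, ?_⟩
    have h3 : dt δ v + 1 = 0 := h2
    show dt δ v = -1
    omega
  · exfalso
    have h1 : (single 0 1 : LP ℂ d) ∈ Submodule.span ℂ (Set.range fun b : C =>
        Dop p a (cF a c H) (ev b.1.1) (single b.1.2 1 : LP ℂ d)) := by
      have h2 : (single 0 β : LP ℂ d) ∈ Submodule.span ℂ (Set.range fun b : C =>
          Dop p a (cF a c H) (ev b.1.1) (single b.1.2 1 : LP ℂ d)) := by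
        rw [hzs]
        refine Submodule.sum_mem _ fun k _ => SFN_dop_span p a _ C k (z k) fun u hu => ?_
        exact (hC k u).2 ⟨hz k u hu, hEz k u hu⟩
      have h3 : (single 0 1 : LP ℂ d) = β⁻¹ • single 0 β := by
        apply lp_ext
        intro u
        rw [coeff_smul', coeff_single', coeff_single']
        split_ifs
        · rw [inv_mul_cancel₀ hβ]
        · rw [mul_zero]
      rw [h3]
      exact Submodule.smul_mem _ _ h2
    have hlead := lead a (cF a c H) δ hδ p C h1 hsp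
    have hr1 := rk_span Rw
      (fun b : C => Dop p a (cF a c H) (ev b.1.1) (single b.1.2 1 : LP ℂ d)) (fun b => by
        obtain ⟨h1, h2⟩ := (hC b.1.1 b.1.2).1 b.2
        exact SFN_dop_supp p a _ δ hδ S P hPa hP1 hSadd E Rw hRw _ _ h1 h2)
    have hr2 := rk_span Rw
      (fun b : C => gs a (cF a c H) (ev b.1.1) * (single b.1.2 1 : LP ℂ d)) (fun b => by
        obtain ⟨h1, h2⟩ := (hC b.1.1 b.1.2).1 b.2
        exact SFN_gs_supp a _ δ hδ S P hPa hSadd E Rw hRw _ _ h1 h2)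
    obtain ⟨m, Y, hm, hS, hYP, I, J, hdet⟩ := gmin a (cF a c H) h H P p S hgood Rw C
    have hfinal := SFN_char a c h δ hδ hh hfac H P hPa m hm Y hYP N hcert E
      (by
        rw [hS]
        intro u hu hEu
        exact hE0 u hu (by omega)) Rw C (by rw [hS]; exact hRw) (by rw [hS]; exact hC) _ I J hdet
    have hr1' : (TMx p a (cF a c H) Rw C).rank = _ := hr1
    have hr2' : (GMx a (cF a c H) Rw C).rank = _ := hr2
    omega

end Pool.Agent.H22.T6
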