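import Mathlib

/-!
# SJ: Jacobson's identity for `A m - m A = l m` in characteristic `q`

Proof.  FIRST the case `l = 1`: `A m = m (A + 1)`.  Put `ff j B = ∏_{i<j} (B - i)` (a product of commuting factors; define it recursively by
`ff 0 B = 1`, `ff (j+1) B = ff j B * (B - j)`).  Facts: (i) `ff l A * m = m * ff l (A + 1)` (induction on `l`, `(A - j) m = m (A + 1 - j)`), and
`ff l (A + 1) = ff l A + l * ff (l-1) A` (`(A+1) A (A-1) ⋯ (A-l+2) = ff (l-1) A * (A + 1)` and `A + 1 = (A - (l-1)) + l`; all factors are polynomials in `A` and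
commute).  (ii) `ff j (A + m) = ∑_{l ≤ j} C(j,l) m^{j-l} ff l A` by induction on `j`: `ff (j+1) (A+m) = ∑ C(j,l) m^{j-l} ff l A (A - j + m)` and
`ff l A (A - j + m) = ff (l+1) A + (l - j) ff l A + m ff l A + l m ff (l-1) A`; the terms `C(j,l)(l-j) m^{j-l} ff l A` and `(l+1) C(j,l+1) m^{j-l-1} m ff l A` cancel, since
`(l+1) C(j,l+1) = (j-l) C(j,l)`; Pascal for the rest.  (iii) In characteristic `q`: `C(q,l) = 0` for `0 < l < q`, so `ff q (A+m) = m^q + ff q A`; and
`ff q B = B^q - B` for every `B`: the identity `∏_{i<q} (X - i) = X^q - X` in `(ZMod q)[X]` (`FiniteField.X_pow_card_sub_X...`/`ZMod` version of Fermat,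
e.g. both sides are monic of degree `q` with the roots `0,…,q-1`), evaluated at `B` (`Polynomial.aeval`, `R` is a `ZMod q` algebra: `ZMod.algebra R q`).
GENERAL `l`: let `l' : ℤ` with `l l' ≡ 1 mod q`, so `(l' : R) (l : R) = 1`.  `A' = l' A`, `m' = l' m`: `A' m' - m' A' = l'^2 l m = l' m = m'`.  So
`(A'+m')^q - (A'+m') = A'^q - A' + m'^q`; `(l' x)^q = l'^q x^q = l' x^q` (`l'^q = l'` in characteristic `q`: `l'` is the image of an integer, `ZMod.pow_card`
or `Int.ModEq` Fermat); multiply by `l`.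
(You may use any other proof, e.g. Jacobson's formula `(A+m)^q = A^q + m^q + ad(A)^{q-1}(m)` if it is in Mathlib.)
-/

set_option autoImplicit false

namespace Pool.Agent.H22.T6

open Finset

/-- The falling factorial `B (B - 1) ⋯ (B - j + 1)`. -/
def SJ_ff {R : Type} [Ring R] : ℕ → R → R
  | 0, _ => 1
  | (j + 1), B => SJ_ff j B * (B - (j : R))

theorem SJ_ff_mul {R : Type} [Ring R] (A m : R) (h : A * m - m * A = m) :
    ∀ l : ℕ, SJ_ff (l + 1) A * m = m * SJ_ff (l + 1) A + ((l : R) + 1) * (m * SJ_ff l A) := by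
  have hAm : A * m = m * A + m := by rw [← sub_eq_iff_eq_add']; exact h
  have hc : ∀ l : ℕ, (A - (l : R)) * m = m * (A - (l : R)) + m := by
    intro l
    rw [sub_mul, mul_sub, hAm, (Nat.cast_commute l m).eq]
    abel
  intro l
  induction l with
  | zero =>
    simp only [SJ_ff, one_mul, Nat.cast_zero, sub_zero, zero_add, mul_one]
    exact hAm
  | succ l ih =>
    have e1 : SJ_ff (l + 1 + 1) A = SJ_ff (l + 1) A * (A - ((l + 1 : ℕ) : R)) := rfl
    have e2 : SJ_ff (l + 1) A = SJ_ff l A * (A - (l : R)) := rfl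
    rw [e1, mul_assoc, hc, mul_add, ← mul_assoc, ih, add_mul]
    have e3 : ((l : R) + 1) * (m * SJ_ff l A) * (A - ((l + 1 : ℕ) : R)) =
        ((l : R) + 1) * (m * SJ_ff (l + 1) A) - ((l : R) + 1) * (m * SJ_ff l A) := by
      rw [e2]
      push_cast
      noncomm_ring
    rw [e3]
    push_cast
    noncomm_ring

theorem SJ_ff_mul' {R : Type} [Ring R] (A m : R) (h : A * m - m * A = m) (l : ℕ) :
    SJ_ff l A * m = m * SJ_ff l A + (l : R) * (m * SJ_ff (l - 1) A) := by
  cases l with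
  | zero => simp [SJ_ff]
  | succ l =>
    rw [SJ_ff_mul A m h l]
    simp

theorem SJ_sum {R : Type} [Ring R] (A m : R) (h : A * m - m * A = m) (j : ℕ) :
    SJ_ff j (A + m) = ∑ p ∈ antidiagonal j, (j.choose p.2 : R) * (m ^ p.1 * SJ_ff p.2 A) := by
  induction j with
  | zero => simp [SJ_ff]
  | succ j ih =>
    have hsym : ∀ (k : ℕ) (f : ℕ → ℕ → R), ∑ p ∈ antidiagonal k, (k.choose p.2 : R) * f p.1 p.2 =
        ∑ p ∈ antidiagonal k, (k.choose p.1 : R) * f p.1 p.2 := by
      intro k f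
      refine sum_congr rfl fun p hp => ?_
      rw [Nat.choose_symm_of_eq_add (mem_antidiagonal.1 hp).symm]
    rw [hsym (j + 1) (fun a b => m ^ a * SJ_ff b A),
      sum_antidiagonal_choose_succ_mul (fun a b => m ^ a * SJ_ff b A) j,
      ← hsym j (fun a b => m ^ a * SJ_ff (b + 1) A)]
    have e1 : SJ_ff (j + 1) (A + m) = SJ_ff j (A + m) * (A + m - (j : R)) := rfl
    rw [e1, ih, sum_mul]
    have hterm : ∀ p ∈ antidiagonal j,
        (j.choose p.2 : R) * (m ^ p.1 * SJ_ff p.2 A) * (A + m - (j : R)) =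
          (j.choose p.2 : R) * (m ^ p.1 * SJ_ff (p.2 + 1) A) +
          (j.choose p.2 : R) * (m ^ (p.1 + 1) * SJ_ff p.2 A) +
          ((j.choose p.2 * p.2 : ℕ) : R) * (m ^ (p.1 + 1) * SJ_ff (p.2 - 1) A) -
          ((j.choose p.2 * p.1 : ℕ) : R) * (m ^ p.1 * SJ_ff p.2 A) := by
      intro p hp
      have hj : (j : R) = (p.1 : R) + (p.2 : R) := by
        rw [← (mem_antidiagonal.1 hp)]; push_cast; rfl
      have e2 : SJ_ff (p.2 + 1) A = SJ_ff p.2 A * (A - (p.2 : R)) := rfl
      have e3 := SJ_ff_mul' A m h p.2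
      have e4 : SJ_ff p.2 A * (A + m - (j : R)) = SJ_ff (p.2 + 1) A + m * SJ_ff p.2 A +
          (p.2 : R) * (m * SJ_ff (p.2 - 1) A) - (p.1 : R) * SJ_ff p.2 A := by
        rw [mul_sub, mul_add, e3, hj, e2, mul_sub, mul_add,
          (Nat.cast_commute p.1 (SJ_ff p.2 A)).eq]
        abel
      have hm : m ^ (p.1 + 1) = m ^ p.1 * m := pow_succ m p.1
      have c1 : m ^ p.1 * ((p.2 : R) * (m * SJ_ff (p.2 - 1) A)) =
          (p.2 : R) * (m ^ p.1 * (m * SJ_ff (p.2 - 1) A)) := by
        rw [← mul_assoc, ← (Nat.cast_commute p.2 (m ^ p.1)).eq, mul_assoc]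
      have c2 : m ^ p.1 * ((p.1 : R) * SJ_ff p.2 A) = (p.1 : R) * (m ^ p.1 * SJ_ff p.2 A) := by
        rw [← mul_assoc, ← (Nat.cast_commute p.1 (m ^ p.1)).eq, mul_assoc]
      rw [mul_assoc, mul_assoc, e4, mul_sub, mul_add, mul_add, c1, c2, hm]
      push_cast
      simp only [mul_assoc, mul_add, mul_sub]
    rw [sum_congr rfl hterm, sum_sub_distrib, sum_add_distrib, sum_add_distrib, add_sub_assoc]
    convert add_zero _ using 2
    rw [sub_eq_zero]
    -- the two remaining sums agree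
    cases j with
    | zero => simp
    | succ n =>
      rw [Nat.sum_antidiagonal_succ', Nat.sum_antidiagonal_succ]
      simp only [Nat.cast_zero, zero_mul, zero_add, mul_zero, Nat.add_sub_cancel]
      refine sum_congr rfl fun p hp => ?_
      have hp' := mem_antidiagonal.1 hp
      congr 2
      have := Nat.choose_succ_right_eq (n + 1) p.2
      rw [this]
      congr 1
      omega

theorem SJ_poly (q : ℕ) [Fact q.Prime] :
    ∏ i ∈ range q, (Polynomial.X - Polynomial.C (i : ZMod q)) =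
      (Polynomial.X ^ q - Polynomial.X : Polynomial (ZMod q)) := by
  have hq : q.Prime := Fact.out
  have h1 : ∏ i ∈ range q, (Polynomial.X - Polynomial.C (i : ZMod q)) =
      ∏ a : ZMod q, (Polynomial.X - Polynomial.C a) := by
    refine prod_bij (fun i _ => (i : ZMod q)) (fun _ _ => mem_univ _) ?_ ?_ (fun _ _ => rfl)
    · intro a ha b hb hab
      rw [mem_range] at ha hb
      have := (ZMod.natCast_eq_natCast_iff' a b q).1 hab
      rwa [Nat.mod_eq_of_lt ha, Nat.mod_eq_of_lt hb] at this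
    · intro b _
      exact ⟨b.val, mem_range.2 (ZMod.val_lt b), ZMod.natCast_zmod_val b⟩
  rw [h1]
  have hroots := FiniteField.roots_X_pow_card_sub_X (ZMod q)
  rw [ZMod.card] at hroots
  have hdeg := FiniteField.X_pow_card_sub_X_natDegree_eq (ZMod q) hq.one_lt
  have hmonic : (Polynomial.X ^ q - Polynomial.X : Polynomial (ZMod q)).Monic := by
    apply Polynomial.monic_X_pow_sub
    rw [Polynomial.degree_X]
    exact_mod_cast hq.one_lt
  have h2 := Polynomial.prod_multiset_X_sub_C_of_monic_of_roots_card_eq hmonic (by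
    rw [hroots, hdeg]
    simp [ZMod.card])
  rw [hroots] at h2
  exact h2

theorem SJ_fermat {R : Type} [Ring R] (q : ℕ) [Fact q.Prime] [CharP R q] (B : R) :
    SJ_ff q B = B ^ q - B := by
  let _ := ZMod.algebra R q
  have h1 : ∀ j : ℕ, SJ_ff j B =
      Polynomial.aeval B (∏ i ∈ range j, (Polynomial.X - Polynomial.C (i : ZMod q))) := by
    intro j
    induction j with
    | zero => simp [SJ_ff]
    | succ j ih =>
      rw [prod_range_succ, map_mul, ← ih]
      simp [SJ_ff]
  rw [h1, SJ_poly]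
  simp

theorem SJ_one {R : Type} [Ring R] (q : ℕ) [Fact q.Prime] [CharP R q] (A m : R)
    (h : A * m - m * A = m) : (A + m) ^ q - (A + m) = A ^ q - A + m ^ q := by
  have hq : q.Prime := Fact.out
  rw [← SJ_fermat q (A + m), ← SJ_fermat q A, SJ_sum A m h q]
  rw [sum_eq_add_of_mem (0, q) (q, 0) (by simp) (by simp) (by simp [hq.pos.ne'])]
  · simp [SJ_ff]
  · rintro ⟨a, b⟩ hab ⟨h1, h2⟩
    have hab' : a + b = q := mem_antidiagonal.1 hab
    have hb0 : b ≠ 0 := by
      rintro rfl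
      exact h2 (by rw [← hab']; simp)
    have hbq : b < q := by
      rcases Nat.eq_zero_or_pos a with h3 | h3
      · exfalso; apply h1; rw [h3] at hab' ⊢; rw [zero_add] at hab'; rw [hab']
      · omega
    have hdvd : q ∣ q.choose b := hq.dvd_choose_self hb0 hbq
    have h0 : ((q.choose b : ℕ) : R) = 0 := (CharP.cast_eq_zero_iff R q _).2 hdvd
    simp only [h0, zero_mul]

/-- Jacobson's identity. -/
theorem sj {R : Type} [Ring R] (q : ℕ) [Fact q.Prime] [CharP R q] (A m : R) (l : ℤ)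
    (hl : ¬ (q : ℤ) ∣ l) (h : A * m - m * A = (l : R) * m) :
    (A + m) ^ q - (A + m) = A ^ q - A + m ^ q := by
  have hl0 : (l : ZMod q) ≠ 0 := fun h0 => hl ((ZMod.intCast_zmod_eq_zero_iff_dvd l q).1 h0)
  obtain ⟨l', hl'⟩ : ∃ l' : ℤ, (l : ZMod q) * (l' : ZMod q) = 1 := by
    refine ⟨(((l : ZMod q)⁻¹).val : ℤ), ?_⟩
    rw [Int.cast_natCast, ZMod.natCast_zmod_val, mul_inv_cancel₀ hl0]
  have hmap : ∀ z : ℤ, (z : R) = ZMod.castHom (dvd_refl q) R (z : ZMod q) := fun z => by
    rw [map_intCast]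
  have hll : (l : R) * (l' : R) = 1 := by
    rw [hmap l, hmap l', ← map_mul, hl', map_one]
  have hfr : (l' : R) ^ q = (l' : R) := by
    rw [hmap l', ← map_pow, ZMod.pow_card]
  have hcm : ∀ x : R, (l' : R) * x = x * (l' : R) := fun x => (Int.cast_commute l' x).eq
  have hcl : ∀ x : R, (l : R) * x = x * (l : R) := fun x => (Int.cast_commute l x).eq
  have h1 : ((l' : R) * A) * ((l' : R) * m) - ((l' : R) * m) * ((l' : R) * A) = (l' : R) * m := by
    have e1 : ((l' : R) * A) * ((l' : R) * m) = (l' : R) * ((l' : R) * (A * m)) := by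
      rw [mul_assoc, ← mul_assoc A, ← hcm A, mul_assoc]
    have e2 : ((l' : R) * m) * ((l' : R) * A) = (l' : R) * ((l' : R) * (m * A)) := by
      rw [mul_assoc, ← mul_assoc m, ← hcm m, mul_assoc]
    rw [e1, e2, ← mul_sub, ← mul_sub, h, ← mul_assoc (l' : R) (l : R) m, hcm (l : R), hll, one_mul]
  have hpow : ∀ x : R, ((l' : R) * x) ^ q = (l' : R) * x ^ q := fun x => by
    rw [(Int.cast_commute l' x).mul_pow, hfr]
  have h2 := SJ_one q _ _ h1
  rw [← mul_add, hpow, hpow, hpow, ← mul_sub, ← mul_sub, ← mul_add] at h2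
  have h3 : (l : R) * _ = (l : R) * _ := congrArg (fun x => (l : R) * x) h2
  rwa [← mul_assoc, hll, one_mul, ← mul_assoc, hll, one_mul] at h3

end Pool.Agent.H22.T6
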