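import Pool.Agent.H22.T6.SPA
import Pool.Agent.H22.T6.SCO

/-!
# SKY: an element of the coset in `∑ D_k F[M_k]` is in `∑ g_k^{(q)} F[M_k]`

Write `T = Cs q u0`, `Π = PiL q (pY m Y) a c`, `IT x := IqT q a c S P T x`.
Proof.  (0) `(pY m Y k)^q = pY m Y k` (quotient of images of integers; `map_intCast (frobenius F q)`, `div_pow`).
(A) `Π s = ∑_k gq k * z'_k`, `z'_k` in `SM S P {k}` (`pi_J`, linearity), so `IT (prT T (Π s))`: `prT T (gq k * z) = gq k * prT T z` (an exponent of `gq k` is `q • a i`, and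
`u + q a ∈ T ↔ u ∈ T`; check on coefficients), `prT` is additive.
(C) `IT x` implies `IT (prT T (Π x))`: `pi_gq`, `pi_supp`, the same formula for `prT`.
(D) `IT x` implies `IT (prT (DG δ e) x)` for every `e`: `prT (DG δ e) (gq k * n) = gq k * prT (DG δ (e - q)) n` (the exponents of `gq k` have degree `q`), and `prT` preserves supports.
(B) for `x` supported in `T ∩ {L ≤ δ}`: `prT T (Π x) - x` is supported in `{L + 1 ≤ δ}` (`coset_pi`, `prT T x = x`).
CLAIM: for `n : ℕ`, `L : ℤ`: if `x` is supported in `T ∩ {L ≤ δ ≤ L + n - 1}` (use `{v | L ≤ dt δ v ∧ dt δ v < L + n}`) and `IT (prT T (Π x))` then `IT x`.  Induction on `n`; `n = 0`: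
`x = 0` (`IT 0`).  Step: `x = x0 + x1`, `x0 = prT (DG δ L) x`, `x1` supported in `T ∩ {L + 1 ≤ δ < L + 1 + n}`.  `prT (DG δ L) (prT T (Π x)) = x0` by (B), so `IT x0` by (D); by (C) and
linearity `IT (prT T (Π x1))`, so `IT x1` by induction (with `L + 1`).  `IT` is closed under sums and differences.
Apply the claim to `s` (finite support: choose `L`, `n`).
-/

set_option autoImplicit false

namespace Pool.Agent.H22.T6

open Finset AddMonoidAlgebra
open Pool.Agent.H56.SMC Pool.Agent.H37.T5 Pool.Agent.H56.T5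

section
variable {R : Type} [CommRing R] {d : ℕ} {ι : Type} [Fintype ι]

private theorem SKY_gq_coeff (q : ℕ) (a : ι → Lat d) (c : ι → R) (k : Fin d) (z : LP R d)
    (u : Lat d) : (gq q a c k * z).coeff u =
      ∑ i, c i ^ q * (a i k : R) * z.coeff (u - (q : ℤ) • a i) := by
  rw [gq, sum_mul, coeff_finsum]
  exact sum_congr rfl fun i _ => single_mul_coeff _ _ _ _

private theorem SKY_pr_gq (q : ℕ) (a : ι → Lat d) (c : ι → R) (k : Fin d) (T T' : Set (Lat d))
    (h : ∀ u i, u ∈ T ↔ u - (q : ℤ) • a i ∈ T') (z : LP R d) :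
    prT T (gq q a c k * z) = gq q a c k * prT T' z := by
  refine lp_ext fun u => ?_
  rw [prT_coeff, SKY_gq_coeff, SKY_gq_coeff]
  by_cases hu : u ∈ T
  · rw [if_pos hu]
    refine sum_congr rfl fun i _ => ?_
    rw [prT_coeff, if_pos ((h u i).1 hu)]
  · rw [if_neg hu]
    refine (sum_eq_zero fun i _ => ?_).symm
    rw [prT_coeff, if_neg (fun h' => hu ((h u i).2 h')), mul_zero]

private theorem SKY_pr_add (T : Set (Lat d)) (x y : LP R d) :
    prT T (x + y) = prT T x + prT T y := by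
  refine lp_ext fun u => ?_
  rw [prT_coeff, coeff_add', coeff_add', prT_coeff, prT_coeff]
  by_cases hu : u ∈ T
  · rw [if_pos hu, if_pos hu, if_pos hu]
  · rw [if_neg hu, if_neg hu, if_neg hu, add_zero]

private theorem SKY_pr_sub (T : Set (Lat d)) (x y : LP R d) :
    prT T (x - y) = prT T x - prT T y := by
  refine lp_ext fun u => ?_
  rw [prT_coeff, coeff_sub', coeff_sub', prT_coeff, prT_coeff]
  by_cases hu : u ∈ T
  · rw [if_pos hu, if_pos hu, if_pos hu]
  · rw [if_neg hu, if_neg hu, if_neg hu, sub_zero]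

private theorem SKY_pr_sum {α : Type} (T : Set (Lat d)) (s : Finset α) (f : α → LP R d) :
    prT T (∑ i ∈ s, f i) = ∑ i ∈ s, prT T (f i) := by
  refine lp_ext fun u => ?_
  rw [prT_coeff, coeff_finsum, coeff_finsum]
  by_cases hu : u ∈ T
  · rw [if_pos hu]
    refine sum_congr rfl fun i _ => ?_
    rw [prT_coeff, if_pos hu]
  · rw [if_neg hu]
    refine (sum_eq_zero fun i _ => ?_).symm
    rw [prT_coeff, if_neg hu]

private theorem SKY_supp_pr {S T : Set (Lat d)} {x : LP R d} (hx : Supp S x) :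
    Supp (S ∩ T) (prT T x) := by
  intro u hu
  rw [prT_coeff] at hu
  by_cases h : u ∈ T
  · rw [if_pos h] at hu
    exact ⟨hx u hu, h⟩
  · rw [if_neg h] at hu
    exact absurd rfl hu

private theorem SKY_pr_self {T : Set (Lat d)} {x : LP R d} (hx : Supp T x) : prT T x = x := by
  refine lp_ext fun u => ?_
  rw [prT_coeff]
  by_cases h : u ∈ T
  · rw [if_pos h]
  · rw [if_neg h]
    by_contra h2
    exact h (hx u (Ne.symm h2))

private theorem SKY_pr_zero {S T : Set (Lat d)} {x : LP R d} (hx : Supp S x)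
    (h : ∀ u ∈ S, u ∉ T) : prT T x = 0 := by
  refine lp_ext fun u => ?_
  rw [prT_coeff, coeff_zero']
  by_cases h1 : u ∈ T
  · rw [if_pos h1]
    by_contra h2
    exact h u (hx u h2) h1
  · rw [if_neg h1]

end

/-- KEY -/
theorem key (q : ℕ) [Fact q.Prime] {F : Type} [Field F] [CharP F q] {d : ℕ} {ι : Type}
    [Fintype ι] (a : ι → Lat d) (c : ι → F) (δ : Lat d) (S : Set (Lat d)) (P : Finset (Fin d))
    (m : ℤ) (Y u0 : Lat d) (hQ : QD q a c δ S P m Y u0) (s : LP F d) (hs : Supp (Cs q u0) s)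
    (z : Fin d → LP F d) (hz : ∀ k, Supp (SM S P {k}) (z k))
    (hsz : s = ∑ k, Dop (pY m Y) a c (ev k) (z k)) : IqT q a c S P (Cs q u0) s := by
  have hp : ∀ k, pY (F := F) m Y k ^ q = pY m Y k := by
    intro k
    have h1 : ∀ n : ℤ, (n : F) ^ q = (n : F) := fun n => by
      have h2 := map_intCast (frobenius F q) n
      rwa [frobenius_def] at h2
    rw [pY, div_pow, h1, h1]
  obtain ⟨T, hT⟩ : ∃ T, T = Cs q u0 := ⟨_, rfl⟩
  rw [← hT] at hs ⊢
  have hTq : ∀ (u : Lat d) (i : ι), u ∈ T ↔ u - (q : ℤ) • a i ∈ T := by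
    intro u i
    rw [hT]
    constructor
    · rintro ⟨u', rfl⟩
      exact ⟨u' - a i, by rw [smul_sub]; abel⟩
    · rintro ⟨u', hu'⟩
      refine ⟨u' + a i, ?_⟩
      rw [smul_add, ← add_assoc, ← hu']
      abel
  obtain ⟨Pi0, hPi⟩ : ∃ Pi0 : Module.End F (LP F d), Pi0 = PiL q (pY m Y) a c := ⟨_, rfl⟩
  have hadd : ∀ x y, IqT q a c S P T x → IqT q a c S P T y → IqT q a c S P T (x + y) := by
    rintro x y ⟨n, hn, rfl⟩ ⟨n', hn', rfl⟩
    refine ⟨fun k => n k + n' k, fun k => (hn k).add (hn' k), ?_⟩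
    rw [← sum_add_distrib]
    exact sum_congr rfl fun k _ => (mul_add _ _ _).symm
  have hsub : ∀ x y, IqT q a c S P T x → IqT q a c S P T y → IqT q a c S P T (x - y) := by
    rintro x y ⟨n, hn, rfl⟩ ⟨n', hn', rfl⟩
    refine ⟨fun k => n k - n' k, fun k => (hn k).sub (hn' k), ?_⟩
    rw [← sum_sub_distrib]
    exact sum_congr rfl fun k _ => (mul_sub _ _ _).symm
  have hA : IqT q a c S P T (prT T (Pi0 s)) := by
    have h1 := fun k => pi_J q (pY m Y) hp a c S P hQ.Pa hQ.add k (z k) (hz k)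
    choose z' hz' he using h1
    refine ⟨fun k => prT T (z' k), fun k => SKY_supp_pr (hz' k), ?_⟩
    rw [hsz, map_sum, SKY_pr_sum]
    refine sum_congr rfl fun k _ => ?_
    rw [hPi, he k, SKY_pr_gq q a c k T T hTq]
  have hC : ∀ x, IqT q a c S P T x → IqT q a c S P T (prT T (Pi0 x)) := by
    rintro x ⟨n, hn, rfl⟩
    refine ⟨fun k => prT T (Pi0 (n k)), fun k => SKY_supp_pr ?_, ?_⟩
    · rw [hPi]
      exact pi_supp q (pY m Y) a c S P {k} hQ.Pa hQ.add (n k) ((hn k).mono Set.inter_subset_left)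
    · rw [map_sum, SKY_pr_sum]
      refine sum_congr rfl fun k _ => ?_
      rw [hPi, pi_gq, SKY_pr_gq q a c k T T hTq]
  have hD : ∀ (e : ℤ) x, IqT q a c S P T x → IqT q a c S P T (prT (DG δ e) x) := by
    rintro e x ⟨n, hn, rfl⟩
    refine ⟨fun k => prT (DG δ (e - q)) (n k), fun k =>
      (SKY_supp_pr (hn k)).mono Set.inter_subset_left, ?_⟩
    rw [SKY_pr_sum]
    refine sum_congr rfl fun k _ => ?_
    refine SKY_pr_gq q a c k _ _ (fun u i => ?_) (n k)
    show dt δ u = e ↔ dt δ (u - (q : ℤ) • a i) = e - q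
    rw [dt_sub, dt_zsmul, hQ.de i, mul_one]
    constructor
    · intro h
      rw [h]
    · intro h
      linarith
  have hB : ∀ (L : ℤ) (x : LP F d), Supp (T ∩ {v | L ≤ dt δ v}) x →
      Supp {v | L + 1 ≤ dt δ v} (prT T (Pi0 x) - x) := by
    intro L x hx
    have h1 := coset_pi q a c δ S P m Y u0 hQ L x (by rw [← hT]; exact hx)
    rw [← hPi] at h1
    have h2 : prT T (Pi0 x) - x = prT T (Pi0 x - x) := by
      rw [SKY_pr_sub, SKY_pr_self (hx.mono Set.inter_subset_left)]
    rw [h2]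
    exact (SKY_supp_pr h1).mono Set.inter_subset_left
  have claim : ∀ (n : ℕ) (L : ℤ) (x : LP F d),
      Supp (T ∩ {v | L ≤ dt δ v ∧ dt δ v < L + n}) x → IqT q a c S P T (prT T (Pi0 x)) →
      IqT q a c S P T x := by
    intro n
    induction n with
    | zero =>
      intro L x hx _
      have h0 : x = 0 := by
        refine lp_ext fun u => ?_
        rw [coeff_zero']
        by_contra h
        have h1 := (hx u h).2
        simp only [Set.mem_ofPred_eq, Nat.cast_zero, add_zero] at h1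
        omega
      rw [h0]
      exact ⟨fun _ => 0, fun k => Supp.zero _, by simp⟩
    | succ n ih =>
      intro L x hx hIx
      obtain ⟨x0, hx0⟩ : ∃ x0, x0 = prT (DG δ L) x := ⟨_, rfl⟩
      have hx1 : Supp (T ∩ {v | L + 1 ≤ dt δ v ∧ dt δ v < L + 1 + n}) (x - x0) := by
        intro u hu
        rw [coeff_sub', hx0, prT_coeff] at hu
        by_cases h : u ∈ DG δ L
        · rw [if_pos h, sub_self] at hu
          exact absurd rfl hu
        · rw [if_neg h, sub_zero] at hu
          obtain ⟨h1, h2, h3⟩ := hx u hu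
          have h4 : dt δ u ≠ L := h
          refine ⟨h1, ?_, ?_⟩
          · omega
          · push_cast at h3
            omega
      have h0 : prT (DG δ L) (prT T (Pi0 x)) = x0 := by
        have h1' : Supp (T ∩ {v | L ≤ dt δ v}) x := fun v hv => ⟨(hx v hv).1, (hx v hv).2.1⟩
        have h1 := hB L x h1'
        have h2 : prT (DG δ L) (prT T (Pi0 x) - x) = 0 := by
          refine SKY_pr_zero h1 fun u hu hu' => ?_
          have h3 : L + 1 ≤ dt δ u := hu
          have h4 : dt δ u = L := hu'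
          omega
        rw [SKY_pr_sub, ← hx0] at h2
        exact sub_eq_zero.1 h2
      have hI0 : IqT q a c S P T x0 := by
        rw [← h0]
        exact hD L _ hIx
      have hI1 : IqT q a c S P T (prT T (Pi0 (x - x0))) := by
        rw [map_sub, SKY_pr_sub]
        exact hsub _ _ hIx (hC x0 hI0)
      have h5 := hadd _ _ hI0 (ih (L + 1) (x - x0) hx1 hI1)
      rwa [add_sub_cancel] at h5
  obtain ⟨B, hB'⟩ : ∃ B : ℤ, B = ∑ v ∈ s.coeff.support, |dt δ v| := ⟨_, rfl⟩
  have hB0 : 0 ≤ B := by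
    rw [hB']
    exact sum_nonneg fun v _ => abs_nonneg _
  refine claim (2 * B + 1).toNat (-B) s ?_ hA
  intro u hu
  have h1 : |dt δ u| ≤ B := by
    rw [hB']
    exact single_le_sum (f := fun v => |dt δ v|) (fun v _ => abs_nonneg _)
      (Finsupp.mem_support_iff.2 hu)
  have h2 := abs_le.1 h1
  refine ⟨hs u hu, h2.1, ?_⟩
  rw [Int.toNat_of_nonneg (by omega)]
  omega

end Pool.Agent.H22.T6
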