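import Pool.Agent.H22.T6.SDefs

/-!
# SPB: `PiL` preserves supports and commutes with the multiplication by `g_k^{(q)}`

Proof.  `pi_supp`: induction on the list in the definition of `PiL`; every factor `1 - D_l^{q-1}` preserves `Supp (SM S P K)` (`LL_Dop_any` in `Pool/Agent/H56/T5/LB.lean` for `D_l`,
induction on the power; `Supp.sub`).  `dl_gq`: on coefficients (`Dop_coeff`) or: `gs * (g * z) = g * (gs * z)`, and `dg (φ) (single (q • a) r * z) = single (q • a) r * dg φ z` for
`φ u = p_l + u_l` since `φ (u + q a) = φ u` in characteristic `q` (`dg_mul_single`); sum over the terms of `gq`.  `pi_gq`: induction on powers and on the list.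
-/

set_option autoImplicit false

namespace Pool.Agent.H22.T6

open Finset AddMonoidAlgebra
open Pool.Agent.H56.SMC Pool.Agent.H37.T5 Pool.Agent.H56.T5

theorem SPB_list {M : Type} [AddCommGroup M] {R : Type} [CommRing R] [Module R M] (Pr : M → Prop)
    (L : List (Module.End R M)) (h : ∀ f ∈ L, ∀ z, Pr z → Pr (f z)) (z : M) (hz : Pr z) :
    Pr (L.prod z) := by
  induction L generalizing z with
  | nil => simpa using hz
  | cons f L ih =>
    rw [List.prod_cons, Module.End.mul_apply]
    exact h f List.mem_cons_self _ (ih (fun g hg => h g (List.mem_cons_of_mem _ hg)) z hz)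

theorem SPB_pow {M : Type} [AddCommGroup M] {R : Type} [CommRing R] [Module R M] (Pr : M → Prop)
    (f : Module.End R M) (h : ∀ z, Pr z → Pr (f z)) (n : ℕ) (z : M) (hz : Pr z) :
    Pr ((f ^ n) z) := by
  induction n generalizing z with
  | zero => simpa using hz
  | succ n ih =>
    rw [pow_succ, Module.End.mul_apply]
    exact ih _ (h z hz)

/-- `PiL` preserves supports. -/
theorem pi_supp (q : ℕ) {R : Type} [CommRing R] {d : ℕ} {ι : Type} [Fintype ι] (p : Fin d → R)
    (a : ι → Lat d) (c : ι → R) (S : Set (Lat d)) (P K : Finset (Fin d))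
    (hPa : ∀ k ∈ P, ∀ i, 0 ≤ a i k) (hS : ∀ u ∈ S, ∀ i, c i ≠ 0 → u + a i ∈ S) (z : LP R d)
    (hz : Supp (SM S P K) z) : Supp (SM S P K) (PiL q p a c z) := by
  unfold PiL
  refine SPB_list (fun z => Supp (SM S P K) z) _ ?_ z hz
  intro f hf w hw
  obtain ⟨k, -, rfl⟩ := List.mem_map.mp hf
  rw [LinearMap.sub_apply, Module.End.one_apply]
  refine hw.sub (SPB_pow (fun z => Supp (SM S P K) z) _ ?_ (q - 1) w hw)
  intro y hy
  rw [DL_apply]
  exact LL_Dop_any p a c ev P K (fun k hk i => by rw [dt_ev]; exact hPa k hk i) S hS (ev k) y hy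

theorem SPB_dl (q : ℕ) {F : Type} [Field F] [CharP F q] {d : ℕ} {ι : Type} [Fintype ι]
    (p : Fin d → F) (a : ι → Lat d) (c : ι → F) (h v : Lat d) (r : F) (z : LP F d) :
    Dop p a c h (single ((q : ℤ) • v) r * z) = single ((q : ℤ) • v) r * Dop p a c h z := by
  unfold Dop
  rw [dg_mul_single, dt_zsmul]
  have e : (((q : ℤ) * dt h v : ℤ) : F) = 0 := by
    push_cast
    rw [CharP.cast_eq_zero F q, zero_mul]
  rw [e, mul_zero, AddMonoidAlgebra.single_zero, zero_mul, add_zero, mul_sub]
  congr 1
  ring

/-- `D_l` commutes with `g_k^{(q)}`. -/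
theorem dl_gq (q : ℕ) {F : Type} [Field F] [CharP F q] {d : ℕ} {ι : Type} [Fintype ι]
    (p : Fin d → F) (a : ι → Lat d) (c : ι → F) (k l : Fin d) (z : LP F d) :
    Dop p a c (ev l) (gq q a c k * z) = gq q a c k * Dop p a c (ev l) z := by
  unfold gq
  rw [Finset.sum_mul, Dop_sum, Finset.sum_mul]
  exact Finset.sum_congr rfl fun i _ => SPB_dl q p a c (ev l) (a i) _ z

/-- `PiL` commutes with `g_k^{(q)}`. -/
theorem pi_gq (q : ℕ) {F : Type} [Field F] [CharP F q] {d : ℕ} {ι : Type} [Fintype ι]
    (p : Fin d → F) (a : ι → Lat d) (c : ι → F) (k : Fin d) (z : LP F d) :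
    PiL q p a c (gq q a c k * z) = gq q a c k * PiL q p a c z := by
  have hpow : ∀ (l : Fin d) (n : ℕ) (w : LP F d),
      ((DL p a c l : Module.End F (LP F d)) ^ n) (gq q a c k * w) =
        gq q a c k * ((DL p a c l : Module.End F (LP F d)) ^ n) w := by
    intro l n
    induction n with
    | zero => intro w; simp
    | succ n ih =>
      intro w
      rw [pow_succ, Module.End.mul_apply, Module.End.mul_apply, DL_apply, DL_apply, dl_gq, ih]
  have hlist : ∀ (L : List (Fin d)) (w : LP F d),
      (L.map (fun l => 1 - (DL p a c l : Module.End F (LP F d)) ^ (q - 1))).prod (gq q a c k * w) =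
        gq q a c k *
          (L.map (fun l => 1 - (DL p a c l : Module.End F (LP F d)) ^ (q - 1))).prod w := by
    intro L
    induction L with
    | nil => intro w; simp
    | cons l L ih =>
      intro w
      rw [List.map_cons, List.prod_cons, Module.End.mul_apply, Module.End.mul_apply, ih,
        LinearMap.sub_apply, LinearMap.sub_apply, Module.End.one_apply, Module.End.one_apply, hpow,
        mul_sub]
  exact hlist _ z

end Pool.Agent.H22.T6
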