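import Pool.Agent.H22.T6.SQ
import Pool.Agent.H22.T6.SPB

/-!
# SPA: `PiL` maps `D_k z` to `g_k^{(q)} z'`

Proof.  Write `f l = 1 - D_l^{q-1}`.  For every list `L` of indices with `k ∈ L` there is `z'` with `Supp (SM S P {k}) z'` and
`(L.map f).prod (D_k z) = gq q a c k * z'` for every `z` with `Supp (SM S P {k}) z`: induction on `L = l :: L'`.  If `l = k`: `(L'.map f).prod` commutes with `D_k` (`Dop_comm`; products of
operators commuting with `D_k`), so `(f k) ((L'.map f).prod (D_k z)) = (1 - D_k^{q-1}) D_k z'' = D_k z'' - D_k^q z'' = gq q a c k * z''` by `dlq`, `z'' = (L'.map f).prod z`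
(`D_k^{q-1} D_k = D_k^q`, `q ≥ 1`).  If `l ≠ k`: `k ∈ L'`, induction gives `z'`, and `f l (gq * z') = gq * f l z'` (`dl_gq` iterated).
Supports: `LL_Dop_any` as in `pi_supp`.  Apply it to `L = List.finRange d`.
-/

set_option autoImplicit false

namespace Pool.Agent.H22.T6

open Finset AddMonoidAlgebra
open Pool.Agent.H56.SMC Pool.Agent.H37.T5 Pool.Agent.H56.T5

/-- The product over a list. -/
noncomputable def SPA_L (q : ℕ) {R : Type} [CommRing R] {d : ℕ} {ι : Type} [Fintype ι]
    (p : Fin d → R) (a : ι → Lat d) (c : ι → R) (L : List (Fin d)) : Module.End R (LP R d) :=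
  (L.map (fun k => 1 - (DL p a c k : Module.End R (LP R d)) ^ (q - 1))).prod

theorem SPA_cons (q : ℕ) {R : Type} [CommRing R] {d : ℕ} {ι : Type} [Fintype ι]
    (p : Fin d → R) (a : ι → Lat d) (c : ι → R) (l : Fin d) (L : List (Fin d)) (z : LP R d) :
    SPA_L q p a c (l :: L) z =
      SPA_L q p a c L z - ((DL p a c l : Module.End R (LP R d)) ^ (q - 1)) (SPA_L q p a c L z) := by
  unfold SPA_L
  rw [List.map_cons, List.prod_cons, Module.End.mul_apply, LinearMap.sub_apply,
    Module.End.one_apply]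

theorem SPA_comm {R : Type} [CommRing R] {d : ℕ} {ι : Type} [Fintype ι]
    (p : Fin d → R) (a : ι → Lat d) (c : ι → R) (k l : Fin d) :
    Commute (DL p a c k : Module.End R (LP R d)) (DL p a c l) := by
  apply LinearMap.ext
  intro x
  exact Dop_comm p a c (ev k) (ev l) x

theorem SPA_commL (q : ℕ) {R : Type} [CommRing R] {d : ℕ} {ι : Type} [Fintype ι]
    (p : Fin d → R) (a : ι → Lat d) (c : ι → R) (k : Fin d) (L : List (Fin d)) :
    Commute (DL p a c k : Module.End R (LP R d)) (SPA_L q p a c L) := by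
  unfold SPA_L
  apply Commute.list_prod_right
  intro x hx
  rw [List.mem_map] at hx
  obtain ⟨l, -, rfl⟩ := hx
  exact (Commute.one_right _).sub_right ((SPA_comm p a c k l).pow_right _)

theorem SPA_suppD {R : Type} [CommRing R] {d : ℕ} {ι : Type} [Fintype ι] (p : Fin d → R)
    (a : ι → Lat d) (c : ι → R) (S : Set (Lat d)) (P K : Finset (Fin d))
    (hPa : ∀ k ∈ P, ∀ i, 0 ≤ a i k) (hS : ∀ u ∈ S, ∀ i, c i ≠ 0 → u + a i ∈ S) (l : Fin d)
    (z : LP R d) (hz : Supp (SM S P K) z) : Supp (SM S P K) (DL p a c l z) :=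
  LL_Dop_any p a c ev P K (fun k hk i => by rw [dt_ev]; exact hPa k hk i) S hS (ev l) z hz

theorem SPA_suppP {R : Type} [CommRing R] {d : ℕ} {ι : Type} [Fintype ι] (p : Fin d → R)
    (a : ι → Lat d) (c : ι → R) (S : Set (Lat d)) (P K : Finset (Fin d))
    (hPa : ∀ k ∈ P, ∀ i, 0 ≤ a i k) (hS : ∀ u ∈ S, ∀ i, c i ≠ 0 → u + a i ∈ S) (l : Fin d)
    (n : ℕ) (z : LP R d) (hz : Supp (SM S P K) z) :
    Supp (SM S P K) (((DL p a c l : Module.End R (LP R d)) ^ n) z) := by
  induction n with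
  | zero => rw [pow_zero]; exact hz
  | succ n ih =>
    rw [pow_succ', Module.End.mul_apply]
    exact SPA_suppD p a c S P K hPa hS l _ ih

theorem SPA_suppL (q : ℕ) {R : Type} [CommRing R] {d : ℕ} {ι : Type} [Fintype ι] (p : Fin d → R)
    (a : ι → Lat d) (c : ι → R) (S : Set (Lat d)) (P K : Finset (Fin d))
    (hPa : ∀ k ∈ P, ∀ i, 0 ≤ a i k) (hS : ∀ u ∈ S, ∀ i, c i ≠ 0 → u + a i ∈ S)
    (L : List (Fin d)) (z : LP R d) (hz : Supp (SM S P K) z) :
    Supp (SM S P K) (SPA_L q p a c L z) := by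
  induction L with
  | nil => exact hz
  | cons l L ih =>
    rw [SPA_cons]
    exact ih.sub (SPA_suppP p a c S P K hPa hS l _ _ ih)

theorem SPA_dlp (q : ℕ) {F : Type} [Field F] [CharP F q] {d : ℕ} {ι : Type} [Fintype ι]
    (p : Fin d → F) (a : ι → Lat d) (c : ι → F) (k l : Fin d) (n : ℕ) (z : LP F d) :
    ((DL p a c l : Module.End F (LP F d)) ^ n) (gq q a c k * z) =
      gq q a c k * ((DL p a c l : Module.End F (LP F d)) ^ n) z := by
  induction n with
  | zero => rfl
  | succ n ih =>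
    rw [pow_succ', Module.End.mul_apply, Module.End.mul_apply, ih, DL_apply, DL_apply]
    exact dl_gq q p a c k l _

theorem SPA_main (q : ℕ) [Fact q.Prime] {F : Type} [Field F] [CharP F q] {d : ℕ} {ι : Type}
    [Fintype ι] (p : Fin d → F) (hp : ∀ k, p k ^ q = p k) (a : ι → Lat d) (c : ι → F)
    (S : Set (Lat d)) (P : Finset (Fin d)) (hPa : ∀ k ∈ P, ∀ i, 0 ≤ a i k)
    (hS : ∀ u ∈ S, ∀ i, c i ≠ 0 → u + a i ∈ S) (k : Fin d) (z : LP F d)
    (hz : Supp (SM S P {k}) z) (L : List (Fin d)) (hL : k ∈ L) :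
    ∃ z' : LP F d, Supp (SM S P {k}) z' ∧
      SPA_L q p a c L (Dop p a c (ev k) z) = gq q a c k * z' := by
  induction L with
  | nil => exact absurd hL (List.not_mem_nil)
  | cons l L ih =>
    by_cases hlk : l = k
    · subst hlk
      refine ⟨SPA_L q p a c L z, SPA_suppL q p a c S P {l} hPa hS L z hz, ?_⟩
      have h1 : SPA_L q p a c L (Dop p a c (ev l) z) =
          Dop p a c (ev l) (SPA_L q p a c L z) := by
        have h2 := (SPA_commL q p a c l L).eq
        have h3 := congrArg (fun φ : Module.End F (LP F d) => φ z) h2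
        exact h3.symm
      rw [SPA_cons, h1]
      have hq : q = (q - 1) + 1 := (Nat.succ_pred_eq_of_pos (Fact.out : q.Prime).pos).symm
      have h4 := dlq q p hp a c l (SPA_L q p a c L z)
      have h5 : ((DL p a c l : Module.End F (LP F d)) ^ q) (SPA_L q p a c L z) =
          ((DL p a c l : Module.End F (LP F d)) ^ (q - 1))
            (Dop p a c (ev l) (SPA_L q p a c L z)) := by
        have h6 : (DL p a c l : Module.End F (LP F d)) ^ q =
            (DL p a c l : Module.End F (LP F d)) ^ (q - 1) * DL p a c l := by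
          rw [← pow_succ, ← hq]
        rw [h6, Module.End.mul_apply, DL_apply]
      rw [← h5, h4]
      abel
    · have hk : k ∈ L := by
        rcases List.mem_cons.mp hL with h | h
        · exact absurd h.symm hlk
        · exact h
      obtain ⟨z', hz', he⟩ := ih hk
      refine ⟨z' - ((DL p a c l : Module.End F (LP F d)) ^ (q - 1)) z',
        hz'.sub (SPA_suppP p a c S P {k} hPa hS l _ _ hz'), ?_⟩
      rw [SPA_cons, he, SPA_dlp, mul_sub]

/-- `PiL (D_k z) = g_k^{(q)} z'`. -/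
theorem pi_J (q : ℕ) [Fact q.Prime] {F : Type} [Field F] [CharP F q] {d : ℕ} {ι : Type}
    [Fintype ι] (p : Fin d → F) (hp : ∀ k, p k ^ q = p k) (a : ι → Lat d) (c : ι → F)
    (S : Set (Lat d)) (P : Finset (Fin d)) (hPa : ∀ k ∈ P, ∀ i, 0 ≤ a i k)
    (hS : ∀ u ∈ S, ∀ i, c i ≠ 0 → u + a i ∈ S) (k : Fin d) (z : LP F d)
    (hz : Supp (SM S P {k}) z) :
    ∃ z' : LP F d, Supp (SM S P {k}) z' ∧
      PiL q p a c (Dop p a c (ev k) z) = gq q a c k * z' := by
  exact SPA_main q p hp a c S P hPa hS k z hz (List.finRange d) (List.mem_finRange k)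

end Pool.Agent.H22.T6
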