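import Pool.Agent.H22.T6.SDefs
import Pool.Agent.H22.T6.SJ

/-!
# SQ: `D_k^q = D_k - g_k^{(q)}` in characteristic `q`

Proof.  Work in `E = Module.End F (LP F d)`; `CharP E q` (`charP_of_injective_algebraMap (algebraMap F E).injective q`, `E` is nontrivial; or `charP_of_injective_ringHom`).
For `i : ι` let `mi : E` be the multiplication by `single (a i) (c_i a_{ik})`; `θ : E` the diagonal operator `dg (fun u => p_k + u_k)` (as a linear map), so
`DL p a c k = θ - ∑ i, mi` (`Dop`, `gs`, `pv p (ev k) = p k`, `dt (ev k) u = u k`).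
CLAIM: for every finset `s` of indices, with `B_s = θ - ∑ i ∈ s, mi`: `B_s^q - B_s = -∑ i ∈ s, mi^q`.  Induction.  `s = ∅`: `θ^q = θ`, since
`(p_k + u_k)^q = p_k^q + u_k^q = p_k + u_k` (`add_pow_char`, `hp`, and `((n : ℤ) : F)^q = (n : F)`: `map_intCast (frobenius F q)`).
Step `insert i s`: `A = B_s`, `m = -mi`; `A m - m A = a_{ik} m` because `θ mi - mi θ = a_{ik} mi` (`dg_mul_single` in Basic.lean, or on `single u r`) and multiplications commute.
If `q ∣ a_{ik}` then `(a_{ik} : F) = 0`, `mi = 0` and the claim is clear (`0^q = 0`).  Otherwise `sj` with `l = a_{ik}`; `(-mi)^q = -(mi^q)` (`neg_pow`, `q` odd, or `q = 2` and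
characteristic 2; or `(-1)^q = -1` in characteristic `q`: `neg_one_pow_char`).
`mi^q` = multiplication by `single (q • a i) (c_i^q a_{ik}^q)` (`AddMonoidAlgebra.single_pow`) and `(a_{ik} : F)^q = a_{ik}`; so `∑ i, mi^q` = multiplication by `gq q a c k`.
-/

set_option autoImplicit false

namespace Pool.Agent.H22.T6

open Finset AddMonoidAlgebra
open Pool.Agent.H56.SMC Pool.Agent.H37.T5 Pool.Agent.H56.T5

/-- The induction over the terms. -/
theorem SQ_claim {R : Type} [Ring R] (q : ℕ) [Fact q.Prime] [CharP R q] {ι : Type} (θ : R)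
    (m : ι → R) (l : ι → ℤ) (hθ : θ ^ q = θ) (hcomm : ∀ i j, m i * m j = m j * m i)
    (hm : ∀ i, θ * m i - m i * θ = (l i : R) * m i) (h0 : ∀ i, (q : ℤ) ∣ l i → m i = 0)
    (s : Finset ι) :
    (θ - ∑ i ∈ s, m i) ^ q - (θ - ∑ i ∈ s, m i) = -∑ i ∈ s, m i ^ q := by
  classical
  have hq0 : q ≠ 0 := (Fact.out : q.Prime).ne_zero
  induction s using Finset.induction_on with
  | empty =>
    simp only [sum_empty, sub_zero, neg_zero]
    rw [sub_eq_zero, hθ]
  | insert i s hi ih =>
    by_cases hdiv : (q : ℤ) ∣ l i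
    · rw [sum_insert hi, sum_insert hi, h0 i hdiv, zero_pow hq0, zero_add, zero_add, ih]
    · have hS : (θ - ∑ j ∈ s, m j) * (-m i) - (-m i) * (θ - ∑ j ∈ s, m j) =
          (l i : R) * (-m i) := by
        have h3 : (∑ j ∈ s, m j) * m i = m i * ∑ j ∈ s, m j := by
          rw [sum_mul, mul_sum]
          exact sum_congr rfl fun j _ => hcomm j i
        rw [mul_neg, mul_neg, ← hm, neg_mul, sub_mul, mul_sub, h3]
        abel
      have h4 := sj q (θ - ∑ j ∈ s, m j) (-m i) (l i) hdiv hS
      rw [ih] at h4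
      have h5 : (-m i) ^ q = -(m i ^ q) := by
        rw [neg_pow, neg_one_pow_char R q, neg_one_mul]
      rw [sum_insert hi, sum_insert hi,
        show θ - (m i + ∑ j ∈ s, m j) = θ - ∑ j ∈ s, m j + -m i by abel, h4, h5]
      abel

section
variable {F : Type} [Field F] {d : ℕ}

/-- The diagonal operator as a linear map. -/
noncomputable def SQ_dg (φ : Lat d → F) : Module.End F (LP F d) where
  toFun := dg φ
  map_add' x y := by
    apply lp_ext; intro u
    rw [coeff_add', dg_coeff, dg_coeff, dg_coeff, coeff_add']; ring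
  map_smul' r x := by
    apply lp_ext; intro u
    rw [RingHom.id_apply, coeff_smul', dg_coeff, dg_coeff, coeff_smul']; ring

theorem SQ_dg_coeff (φ : Lat d → F) (x : LP F d) (u : Lat d) :
    (SQ_dg φ x).coeff u = φ u * x.coeff u := dg_coeff φ x u

theorem SQ_dg_pow (φ : Lat d → F) (n : ℕ) (x : LP F d) (u : Lat d) :
    ((SQ_dg φ ^ n) x).coeff u = φ u ^ n * x.coeff u := by
  induction n with
  | zero => simp
  | succ n ih =>
    rw [pow_succ', Module.End.mul_apply, SQ_dg_coeff, ih]; ring

/-- Multiplication as a linear map. -/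
noncomputable def SQ_mu (b : LP F d) : Module.End F (LP F d) := LinearMap.mulLeft F b

theorem SQ_mu_apply (b x : LP F d) : SQ_mu b x = b * x := rfl

theorem SQ_mu_pow (b : LP F d) (n : ℕ) (x : LP F d) : (SQ_mu b ^ n) x = b ^ n * x := by
  induction n with
  | zero => simp
  | succ n ih => rw [pow_succ', Module.End.mul_apply, SQ_mu_apply, ih, pow_succ', mul_assoc]

theorem SQ_charP (q : ℕ) [Fact q.Prime] [CharP F q] : CharP (Module.End F (LP F d)) q := by
  have h0 : Nontrivial (Module.End F (LP F d)) := inferInstance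
  exact charP_of_injective_algebraMap (algebraMap F (Module.End F (LP F d))).injective q

theorem SQ_int_pow (q : ℕ) [Fact q.Prime] [CharP F q] (n : ℤ) : ((n : F)) ^ q = (n : F) := by
  have h := map_intCast (frobenius F q) n
  rwa [frobenius_def] at h

end

/-- `D_k^q = D_k - g_k^{(q)}`. -/
theorem dlq (q : ℕ) [Fact q.Prime] {F : Type} [Field F] [CharP F q] {d : ℕ} {ι : Type}
    [Fintype ι] (p : Fin d → F) (hp : ∀ k, p k ^ q = p k) (a : ι → Lat d) (c : ι → F) (k : Fin d)
    (z : LP F d) : ((DL p a c k : Module.End F (LP F d)) ^ q) z =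
      Dop p a c (ev k) z - gq q a c k * z := by
  have := SQ_charP (F := F) (d := d) q
  have h1 := SQ_claim q (SQ_dg (fun u => pv p (ev k) + (dt (ev k) u : F)))
    (fun i : ι => SQ_mu (single (a i) (c i * (dt (ev k) (a i) : F)))) (fun i => dt (ev k) (a i))
    (by
      apply LinearMap.ext
      intro x
      apply lp_ext; intro u
      rw [SQ_dg_pow, SQ_dg_coeff, add_pow_char, SQ_int_pow]
      congr 2
      simp only [pv, ev, Pi.single_apply]
      simp [hp])
    (by
      intro i j
      apply LinearMap.ext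
      intro x
      rw [Module.End.mul_apply, Module.End.mul_apply, SQ_mu_apply, SQ_mu_apply, SQ_mu_apply,
        SQ_mu_apply]
      ring)
    (by
      intro i
      apply LinearMap.ext
      intro x
      have h1 := dg_mul_single p (ev k) (a i) (c i * (dt (ev k) (a i) : F)) x
      have h2 : ((dt (ev k) (a i) : ℤ) : Module.End F (LP F d)) =
          algebraMap F (Module.End F (LP F d)) ((dt (ev k) (a i) : ℤ) : F) := by
        rw [map_intCast]
      rw [LinearMap.sub_apply, Module.End.mul_apply, Module.End.mul_apply, Module.End.mul_apply,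
        h2, Module.algebraMap_end_apply, SQ_mu_apply, SQ_mu_apply]
      show dg _ (single (a i) (c i * (dt (ev k) (a i) : F)) * x) -
        single (a i) (c i * (dt (ev k) (a i) : F)) * dg _ x = _
      rw [h1]
      apply lp_ext; intro u
      rw [coeff_sub', coeff_add', coeff_smul', single_mul_coeff, single_mul_coeff, single_mul_coeff]
      ring)
    (by
      intro i hdiv
      apply LinearMap.ext
      intro x
      rw [SQ_mu_apply, (CharP.intCast_eq_zero_iff F q _).2 hdiv, mul_zero]
      simp)
    univ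
  have hDL : SQ_dg (fun u => pv p (ev k) + (dt (ev k) u : F)) - ∑ i,
      SQ_mu (single (a i) (c i * (dt (ev k) (a i) : F))) =
        (DL p a c k : Module.End F (LP F d)) := by
    apply LinearMap.ext
    intro x
    rw [DL_apply, LinearMap.sub_apply, LinearMap.sum_apply]
    show dg _ x - ∑ i, single (a i) (c i * (dt (ev k) (a i) : F)) * x = _
    rw [← sum_mul]
    rfl
  simp only [hDL] at h1
  have h2 := LinearMap.congr_fun h1 z
  rw [LinearMap.sub_apply, LinearMap.neg_apply, LinearMap.sum_apply] at h2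
  simp only [SQ_mu_pow] at h2
  rw [← sum_mul, DL_apply, sub_eq_iff_eq_add] at h2
  rw [h2, neg_add_eq_sub]
  congr 2
  rw [gq]
  refine sum_congr rfl fun i _ => ?_
  rw [single_pow, mul_pow, SQ_int_pow]
  have h6 : dt (ev k) (a i) = a i k := by simp [dt, ev, Pi.single_apply]
  rw [h6, natCast_zsmul]

end Pool.Agent.H22.T6
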