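import Pool.Agent.H22.T6.SDefs

/-!
# SRK: rank of a matrix of coefficients; base change of the matrices

Proof.  `rk_span`: `Matrix.rank_eq_finrank_span_cols`: the rank is the dimension of the span of the columns, the images of the `x b` under the linear map `ρ : LP F d → (Rw → F)`, `z ↦ (u ↦ z.coeff u)`.
`ρ` is injective on the elements supported in `Rw`, so on the span of the `x b` (`Submodule.map_span`, `LinearMap.finrank_map_of_inj`.. / `LinearEquiv.finrank_eq`, e.g.
`(Submodule.equivMapOfInjective …)` after restricting to the submodule of elements supported in `Rw`).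
`TMx_map`, `GMx_map`: coefficient formulas `Dop_coeff`, `gs_mul_coeff`, `coeff_single'`; `map_sum`, `map_intCast`, `map_sub`, `map_mul`; `pv p (ev k) = p k` or `pv` directly.
(`lmap_Dop` in `Pool/Agent/H56/SMC/Basic.lean` may help.)
-/

set_option autoImplicit false

namespace Pool.Agent.H22.T6

open Finset AddMonoidAlgebra
open Pool.Agent.H56.SMC Pool.Agent.H37.T5 Pool.Agent.H56.T5

/-- The coefficients at the points of `Rw`. -/
noncomputable def SRK_rho (F : Type) [Field F] {d : ℕ} (Rw : Finset (Lat d)) :
    LP F d →ₗ[F] (Rw → F) where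
  toFun := fun z u => z.coeff u.1
  map_add' := fun x y => by
    funext u
    exact coeff_add' x y u.1
  map_smul' := fun r x => by
    funext u
    exact coeff_smul' r x u.1

/-- RK_SPAN -/
theorem rk_span {F : Type} [Field F] {d : ℕ} (Rw : Finset (Lat d)) {β : Type} [Fintype β]
    (x : β → LP F d) (hx : ∀ b, Supp (Rw : Set (Lat d)) (x b)) :
    (Matrix.of (fun (u : Rw) (b : β) => (x b).coeff u.1)).rank =
      Module.finrank F (Submodule.span F (Set.range x)) := by
  classical
  rw [Matrix.rank_eq_finrank_span_cols]
  have hsup : ∀ z ∈ Submodule.span F (Set.range x), Supp (Rw : Set (Lat d)) z := by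
    intro z hz
    refine Submodule.span_induction (p := fun z _ => Supp (Rw : Set (Lat d)) z) ?_ ?_ ?_ ?_ hz
    · rintro y ⟨b, rfl⟩
      exact hx b
    · exact Supp.zero _
    · intro y z _ _ hy hz
      exact hy.add hz
    · intro r y _ hy
      exact hy.smul r
  have h1 : Submodule.span F (Set.range
      (Matrix.of (fun (u : Rw) (b : β) => (x b).coeff u.1)).col) =
      LinearMap.range ((SRK_rho F Rw).domRestrict (Submodule.span F (Set.range x))) := by
    rw [LinearMap.range_domRestrict, Submodule.map_span, ← Set.range_comp]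
    rfl
  rw [h1]
  refine LinearMap.finrank_range_of_inj ?_
  rw [← LinearMap.ker_eq_bot, LinearMap.ker_eq_bot']
  intro z hz
  apply Subtype.ext
  apply lp_ext
  intro u
  by_contra hne
  have hu : u ∈ (Rw : Set (Lat d)) := hsup z.1 z.2 u hne
  exact hne (congrFun hz ⟨u, hu⟩)

theorem TMx_map {R R' : Type} [CommRing R] [CommRing R'] (f : R →+* R') {d : ℕ} {ι : Type}
    [Fintype ι] (p : Fin d → R) (a : ι → Lat d) (c : ι → R) (Rw : Finset (Lat d))
    (C : Finset (Fin d × Lat d)) :
    (TMx p a c Rw C).map f = TMx (fun k => f (p k)) a (fun i => f (c i)) Rw C := by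
  ext u kv
  simp only [TMx, Matrix.map_apply, Matrix.of_apply, Dop_coeff, coeff_single', map_sub, map_mul,
    map_add, map_sum, map_intCast, pv, apply_ite f, map_one, map_zero]

theorem GMx_map {R R' : Type} [CommRing R] [CommRing R'] (f : R →+* R') {d : ℕ} {ι : Type}
    [Fintype ι] (a : ι → Lat d) (c : ι → R) (Rw : Finset (Lat d)) (C : Finset (Fin d × Lat d)) :
    (GMx a c Rw C).map f = GMx a (fun i => f (c i)) Rw C := by
  ext u kv
  simp only [GMx, Matrix.map_apply, Matrix.of_apply, gs_mul_coeff, coeff_single', map_sub, map_mul,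
    map_add, map_sum, map_intCast, apply_ite f, map_one, map_zero]

end Pool.Agent.H22.T6
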